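import Mathlib

/-!
# Locally closed subschemes through the universal property
-/

namespace Pool.Agent.Helper87.CC

open TensorProduct

/-- `X` represents the ring homomorphisms from `A` which vanish on `I` and send `a` to a unit -/
structure IsLC {A X : Type} [CommRing A] [CommRing X] (j : A →+* X) (I : Ideal A) (a : A) :
    Prop where
  zero : ∀ b ∈ I, j b = 0
  unit : IsUnit (j a)
  ex : ∀ (E : Type) [CommRing E] (v : A →+* E), (∀ b ∈ I, v b = 0) → IsUnit (v a) →
    ∃ h : X →+* E, h.comp j = v
  uniq : ∀ (E : Type) [CommRing E] (h h' : X →+* E), h.comp j = h'.comp j → h = h'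

theorem IsLC.equiv {A X Y : Type} [CommRing A] [CommRing X] [CommRing Y] {j : A →+* X}
    {j' : A →+* Y} {I : Ideal A} {a : A} (h : IsLC j I a) (h' : IsLC j' I a) :
    Nonempty (X ≃+* Y) := by
  obtain ⟨f, hf⟩ := h.ex Y j' h'.zero h'.unit
  obtain ⟨g, hg⟩ := h'.ex X j h.zero h.unit
  refine ⟨RingEquiv.ofRingHom f g ?_ ?_⟩
  · apply h'.uniq
    rw [RingHom.comp_assoc, hg, hf, RingHom.id_comp]
  · apply h.uniq
    rw [RingHom.comp_assoc, hf, hg, RingHom.id_comp]

/-- the standard model -/
theorem isLC_std {A : Type} [CommRing A] (I : Ideal A) (a : A) :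
    IsLC ((algebraMap (A ⧸ I) (Localization.Away (Ideal.Quotient.mk I a))).comp
      (Ideal.Quotient.mk I)) I a where
  zero b hb := by
    rw [RingHom.comp_apply, Ideal.Quotient.eq_zero_iff_mem.2 hb, map_zero]
  unit := IsLocalization.Away.algebraMap_isUnit (S := Localization.Away
    (Ideal.Quotient.mk I a)) (Ideal.Quotient.mk I a)
  ex E _ v hv hu := by
    have hu' : IsUnit (Ideal.Quotient.lift I v hv (Ideal.Quotient.mk I a)) := by
      rw [Ideal.Quotient.lift_mk]
      exact hu
    refine ⟨IsLocalization.Away.lift (S := Localization.Away (Ideal.Quotient.mk I a))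
      (Ideal.Quotient.mk I a) hu', ?_⟩
    refine RingHom.ext fun x => ?_
    exact IsLocalization.Away.lift_eq (S := Localization.Away (Ideal.Quotient.mk I a))
      (Ideal.Quotient.mk I a) hu' (Ideal.Quotient.mk I x)
  uniq E _ h h' hh := by
    apply IsLocalization.ringHom_ext (Submonoid.powers (Ideal.Quotient.mk I a))
    apply Ideal.Quotient.ringHom_ext
    exact hh

/-- enlarging the ideal by elements killed by `a` -/
theorem IsLC.sup {A X : Type} [CommRing A] [CommRing X] {j : A →+* X} {I : Ideal A} {a b : A}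
    (h : IsLC j I a) (hab : a * b ∈ I) : IsLC j (I ⊔ Ideal.span {b}) a where
  zero := by
    have hb : j b = 0 := by
      have h1 := h.zero _ hab
      rw [map_mul] at h1
      exact (h.unit.mul_right_eq_zero).1 h1
    have h2 : I ⊔ Ideal.span {b} ≤ RingHom.ker j := by
      rw [sup_le_iff, Ideal.span_singleton_le_iff_mem]
      exact ⟨fun x hx => h.zero x hx, hb⟩
    exact fun x hx => h2 hx
  unit := h.unit
  ex E _ v hv hu := h.ex E v (fun x hx => hv x (Ideal.mem_sup_left hx)) hu
  uniq := h.uniq

/-- base change to a locally closed subscheme of the base -/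
theorem IsLC.tensor {R A L : Type} [CommRing R] [CommRing A] [CommRing L] [Algebra R A]
    [Algebra R L] {I : Ideal R} {a : R} (hLC : IsLC (algebraMap R L) I a) :
    IsLC ((Algebra.TensorProduct.includeRight : A →ₐ[R] L ⊗[R] A) : A →+* L ⊗[R] A)
      (I.map (algebraMap R A)) (algebraMap R A a) := by
  have key : ∀ r : R, (1 : L) ⊗ₜ[R] (algebraMap R A r) = (algebraMap R L r) ⊗ₜ[R] (1 : A) := by
    intro r
    rw [Algebra.algebraMap_eq_smul_one, Algebra.algebraMap_eq_smul_one, TensorProduct.smul_tmul]
  refine ⟨?_, ?_, ?_, ?_⟩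
  · have h1 : I.map (algebraMap R A) ≤ RingHom.ker ((Algebra.TensorProduct.includeRight :
        A →ₐ[R] L ⊗[R] A) : A →+* L ⊗[R] A) := by
      rw [Ideal.map_le_iff_le_comap]
      intro b hb
      change (1 : L) ⊗ₜ[R] (algebraMap R A b) = 0
      rw [key, hLC.zero b hb, TensorProduct.zero_tmul]
    exact fun b hb => h1 hb
  · change IsUnit ((1 : L) ⊗ₜ[R] (algebraMap R A a))
    rw [key]
    exact hLC.unit.map (Algebra.TensorProduct.includeLeftRingHom : L →+* L ⊗[R] A)
  · intro E _ v hv hu
    obtain ⟨u, hu⟩ := hLC.ex E (v.comp (algebraMap R A)) (fun b hb => hv _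
      (Ideal.mem_map_of_mem _ hb)) hu
    let _ : Algebra R E := (v.comp (algebraMap R A)).toAlgebra
    let u' : L →ₐ[R] E := { toRingHom := u, commutes' := fun r => RingHom.congr_fun hu r }
    let v' : A →ₐ[R] E := { toRingHom := v, commutes' := fun r => rfl }
    refine ⟨(Algebra.TensorProduct.lift u' v' (fun _ _ => Commute.all _ _)).toRingHom, ?_⟩
    ext t
    change (Algebra.TensorProduct.lift u' v' (fun _ _ => Commute.all _ _)) (1 ⊗ₜ t) = v t
    rw [Algebra.TensorProduct.lift_tmul, map_one, one_mul]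
    rfl
  · intro E _ h h' hh
    have h3 : ∀ x : L, h (x ⊗ₜ[R] (1 : A)) = h' (x ⊗ₜ[R] (1 : A)) := by
      have h4 : h.comp (Algebra.TensorProduct.includeLeftRingHom : L →+* L ⊗[R] A) =
          h'.comp Algebra.TensorProduct.includeLeftRingHom := by
        apply hLC.uniq
        ext r
        change h (algebraMap R L r ⊗ₜ 1) = h' (algebraMap R L r ⊗ₜ 1)
        rw [← key]
        exact RingHom.congr_fun hh _
      exact fun x => RingHom.congr_fun h4 x
    refine RingHom.ext fun z => ?_
    induction z using TensorProduct.induction_on with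
    | zero => rw [map_zero, map_zero]
    | tmul x y =>
      have h5 : x ⊗ₜ[R] y = (x ⊗ₜ[R] (1 : A)) * ((1 : L) ⊗ₜ[R] y) := by
        rw [Algebra.TensorProduct.tmul_mul_tmul, mul_one, one_mul]
      rw [h5, map_mul, map_mul, h3]
      congr 1
      exact RingHom.congr_fun hh y
    | add x y hx hy => rw [map_add, map_add, hx, hy]

end Pool.Agent.Helper87.CC
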