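import Pool.Agent.Helper87.CC.Fib2
import Pool.Agent.Helper65.CC.Linear
import Pool.Agent.Helper16.ReductionModP

/-!
# Systems of equations of low degree
-/

namespace Pool.Agent.Helper87.CC

open TensorProduct MvPolynomial

variable {S : ∀ (A : Type) [CommRing A], Prop}

theorem image_union_map {R K : Type} [CommRing R] [CommRing K] (φ : R →+* K) {m : ℕ}
    [DecidableEq (MvPolynomial (Fin m) K)] (L Q : Finset (MvPolynomial (Fin m) R)) :
    map φ '' ((L : Set (MvPolynomial (Fin m) R)) ∪ Q) =
      ((L.image (map φ) : Finset _) : Set (MvPolynomial (Fin m) K)) ∪ (Q.image (map φ) : Finset _) := by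
  rw [Set.image_union, Finset.coe_image, Finset.coe_image]

theorem enat_add_le {x : WithBot ℕ∞} {c : ℕ} (h : x + (c : WithBot ℕ∞) ≤ 2) :
    x = ⊥ ∨ ∃ n : ℕ, x = (n : WithBot ℕ∞) ∧ n + c ≤ 2 := by
  induction x with
  | bot => exact Or.inl rfl
  | coe x =>
    right
    have h1 : ((x + (c : ℕ∞) : ℕ∞) : WithBot ℕ∞) ≤ ((2 : ℕ∞) : WithBot ℕ∞) := by
      refine le_trans (le_of_eq ?_) (h.trans (le_of_eq ?_))
      · rw [WithBot.coe_add]
        rfl
      · rfl
    have h2 : x + (c : ℕ∞) ≤ 2 := WithBot.coe_le_coe.1 h1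
    have h6 : x ≠ ⊤ := by
      rintro rfl
      rw [top_add] at h2
      exact absurd h2 (by decide)
    obtain ⟨n, rfl⟩ := ENat.ne_top_iff_exists.1 h6
    exact ⟨n, rfl, by exact_mod_cast h2⟩

theorem dim_le_one {x : WithBot ℕ∞} (h : x + 1 ≤ 2) : x ≤ 1 := by
  have h' : x + ((1 : ℕ) : WithBot ℕ∞) ≤ 2 := by
    rw [Nat.cast_one]
    exact h
  rcases enat_add_le h' with h1 | ⟨n, rfl, hn⟩
  · rw [h1]
    exact bot_le
  · have : n ≤ 1 := by omega
    exact_mod_cast this

/-- base change of families -/
theorem fam_baseChange {R : Type} [CommRing R] (W : Type) [CommRing W] {σ : Type}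
    (s : Set (MvPolynomial σ R)) {A : Type} [CommRing A] [Algebra R A] {j : W →+* A} {x : σ → A}
    (hA : IsFam s (algebraMap R A) j x) (B : Type) [CommRing B] [Algebra R B] :
    Nonempty (Ten W (MvPolynomial σ B ⧸ Ideal.span (map (algebraMap R B) '' s)) ≃+* (B ⊗[R] A)) := by
  obtain ⟨e, -⟩ := (isFam_ten W (map (algebraMap R B) '' s)).equiv (hA.baseChange (K := B))
  exact ⟨e⟩

/-- **Systems of equations of low degree.** -/
theorem low_degree (hS : SOps S)
    {R : Type} [CommRing R] (hR : Algebra.FiniteType ℤ R)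
    (hM0 : ∀ (p : Ideal R) [p.IsPrime], 1 < ringKrullDim (R ⧸ p) → MultS S (R ⧸ p)) (m : ℕ)
    (L Q : Finset (MvPolynomial (Fin m) R)) (hL : ∀ l ∈ L, l.totalDegree ≤ 1)
    (hQ : ∀ q ∈ Q, q.totalDegree ≤ 2) (hdim : ringKrullDim R + (Q.card : WithBot ℕ∞) ≤ 2)
    {W : Type} [CommRing W] (hW : S W) :
    S (Ten W (MvPolynomial (Fin m) R ⧸ Ideal.span ((L : Set (MvPolynomial (Fin m) R)) ∪ Q))) := by
  classical
  have hM : ∀ (p : Ideal R) [p.IsPrime], MultS S (R ⧸ p) := by
    intro p _
    by_cases h : 1 < ringKrullDim (R ⧸ p)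
    · exact hM0 p h
    · exact MultS.curve hS (CurveProd.of_dim (ft_of_surj hR (Ideal.Quotient.mk p)
        Ideal.Quotient.mk_surjective) (not_lt.1 h))
  set s : Set (MvPolynomial (Fin m) R) := (L : Set (MvPolynomial (Fin m) R)) ∪ Q with hs
  let A := Ten W (MvPolynomial (Fin m) R ⧸ Ideal.span s)
  let _ : Algebra R A := (((tinr W (MvPolynomial (Fin m) R ⧸ Ideal.span s)).comp
    (Ideal.Quotient.mk _)).comp C).toAlgebra
  have hfam : IsFam s (algebraMap R A) (tinl W (MvPolynomial (Fin m) R ⧸ Ideal.span s))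
      (fun a => tinr W (MvPolynomial (Fin m) R ⧸ Ideal.span s) (Ideal.Quotient.mk _ (X a))) :=
    isFam_ten W s
  have hAft : Algebra.FiniteType ℤ A := ft_ten (hS.ft W hW) (ft_alg hR inferInstance)
  have hA : Algebra.FiniteType R A := Algebra.FiniteType.of_restrictScalars_finiteType ℤ R A
  have hRn : IsNoetherianRing R := Algebra.FiniteType.isNoetherianRing ℤ R
  have hdim0 : ringKrullDim R ≤ 2 := by
    refine le_trans ?_ hdim
    calc ringKrullDim R = ringKrullDim R + 0 := (add_zero _).symm
      _ ≤ ringKrullDim R + (Q.card : WithBot ℕ∞) := by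
        gcongr
        exact_mod_cast Nat.zero_le _
  have hLim : ∀ (K : Type) [CommRing K] [Algebra R K], ∀ l ∈ L.image (map (algebraMap R K)),
      l.totalDegree ≤ 1 := by
    intro K _ _ l hl
    obtain ⟨l', hl', rfl⟩ := Finset.mem_image.1 hl
    exact (totalDegree_map_le _ _).trans (hL l' hl')
  have hcard : Q.card = 0 ∨ Q.card = 1 ∨ 2 ≤ Q.card := by omega
  rcases hcard with h0 | h1 | h2
  · -- linear equations
    have hQ0 : Q = ∅ := Finset.card_eq_zero.1 h0
    refine fibres2 hS hR hA fun p _ => Or.inr ⟨?_, ?_⟩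
    · intro a ha
      refine (hM p).opn hS a (MultS.curve hS (CurveProd.of_dim ?_ ?_))
      · exact ft_of_surj (hM p).1 (Ideal.Quotient.mk _) Ideal.Quotient.mk_surjective
      · have h3 := ringKrullDim_quotient_succ_le_of_nonZeroDivisor
          (mem_nonZeroDivisors_of_ne_zero ha)
        have h4 : ringKrullDim (R ⧸ p) ≤ 2 := (ringKrullDim_quotient_le p).trans hdim0
        exact dim_le_one (h3.trans h4)
    · obtain ⟨E, _, _, j, hE, hGE⟩ := geometric_const hW p.ResidueField
      have h1 := Helper65.CC.linear (geometric_kops hS p.ResidueField) hGE m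
        (L.image (map (algebraMap R p.ResidueField))) (hLim p.ResidueField)
      have h2 : map (algebraMap R p.ResidueField) '' s =
          ((L.image (map (algebraMap R p.ResidueField)) : Finset _) : Set _) := by
        rw [hs, image_union_map, hQ0]
        simp
      rw [← h2] at h1
      obtain ⟨e, he⟩ := (isFam_const hE (map (algebraMap R p.ResidueField) '' s)).equiv
        (hfam.baseChange (K := p.ResidueField))
      exact .iso _ _ (AlgEquiv.ofRingEquiv (f := e) he) h1
  · -- one quadratic equation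
    obtain ⟨q, hq⟩ := Finset.card_eq_one.1 h1
    have hdim1 : ringKrullDim R ≤ 1 := by
      rw [h1, Nat.cast_one] at hdim
      exact dim_le_one hdim
    have h3 := quadric_family hS R W hR hdim1 hW m L q hL (hQ q (by rw [hq]; simp))
    have h4 : s = insert q (L : Set (MvPolynomial (Fin m) R)) := by
      rw [hs, hq, Finset.coe_singleton, Set.union_singleton]
    rw [h4]
    exact h3
  · -- two quadratic equations
    rcases subsingleton_or_nontrivial R with hsub | hnt
    · apply hS.zero
      have h3 : Subsingleton A := by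
        have := (algebraMap R A).codomain_trivial
        exact this
      exact h3
    have hdim2 : ringKrullDim R ≤ 0 ∧ Q.card = 2 := by
      rcases enat_add_le hdim with h3 | ⟨n, h3, hn⟩
      · have h4 : (0 : WithBot ℕ∞) ≤ ringKrullDim R := ringKrullDim_nonneg_of_nontrivial
        rw [h3] at h4
        exact absurd h4 (by simp)
      · have h4 : n = 0 := by omega
        subst h4
        exact ⟨by rw [h3, Nat.cast_zero], by omega⟩
    obtain ⟨f, g, -, hfg⟩ := Finset.card_eq_two.1 hdim2.2
    have hkd : Ring.KrullDimLE 0 R := Ring.krullDimLE_iff.mpr hdim2.1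
    refine devissage hS hR hA fun p _ => ⟨1, one_ne_zero, ?_⟩
    have hmax : p.IsMaximal := Ideal.isMaximal_of_isPrime p
    let k := R ⧸ p
    let _ : Field k := Ideal.Quotient.field p
    have hkft : Algebra.FiniteType ℤ k := ft_of_surj hR (Ideal.Quotient.mk p)
      Ideal.Quotient.mk_surjective
    have hkfin : Finite k := Helper16.finite_of_finiteType_int k (fgen_iff.1 hkft)
    have h3 := Pool.Agent.Helper36.TQ.two_quadrics hS (quadric_family hS) W hW m k
      (L.image (map (algebraMap R k))) (map (algebraMap R k) f) (map (algebraMap R k) g)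
      (hLim k) ((totalDegree_map_le _ _).trans (hQ f (by rw [hfg]; simp)))
      ((totalDegree_map_le _ _).trans (hQ g (by rw [hfg]; simp)))
    have h4 : map (algebraMap R k) '' s = insert (map (algebraMap R k) f)
        (insert (map (algebraMap R k) g)
          ((L.image (map (algebraMap R k)) : Finset _) : Set (MvPolynomial (Fin m) k))) := by
      rw [hs, Set.image_union, hfg, Finset.coe_image]
      ext t
      simp only [Finset.coe_insert, Finset.coe_singleton, Set.image_insert_eq,
        Set.image_singleton, Set.mem_union, Set.mem_insert_iff, Set.mem_singleton_iff]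
      tauto
    rw [← h4] at h3
    obtain ⟨e⟩ := fam_baseChange W s hfam k
    have h5 : S (k ⊗[R] A) := hS.iso _ _ e h3
    have e1 : k ≃ₐ[R] Localization.Away (1 : k) :=
      (IsLocalization.atOne k (Localization.Away (1 : k))).restrictScalars R
    exact hS.iso _ _ (Algebra.TensorProduct.congr e1 AlgEquiv.refl).toRingEquiv h5

end Pool.Agent.Helper87.CC
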