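import Pool.Agent.Helper87.CC.SOps
import Pool.Agent.Helper65.Mor.Morin
import Pool.Agent.Helper62.TS.Dim

/-!
# The class of stable rings
-/

namespace Pool.Agent.Helper87.CC

open AlgebraicGeometry CategoryTheory TensorProduct
open Pool.Agent.Helper65.Mor (Arithmetic ClosedOpen closedOpen_span arithmetic_of_fgen FGen)

theorem fgen_iff {R : Type} [CommRing R] : Algebra.FiniteType ℤ R ↔ FGen R := by
  have h : Int.castRingHom R = algebraMap ℤ R := RingHom.ext_int _ _
  rw [FGen, h]
  exact RingHom.finiteType_algebraMap.symm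

theorem arith {R : Type} [CommRing R] (h : Algebra.FiniteType ℤ R) :
    Arithmetic (Spec (CommRingCat.of R)) := arithmetic_of_fgen (fgen_iff.1 h)

theorem ft_of_surj {R S : Type} [CommRing R] [CommRing S] (h : Algebra.FiniteType ℤ R)
    (φ : R →+* S) (hφ : Function.Surjective φ) : Algebra.FiniteType ℤ S :=
  Algebra.FiniteType.of_surjective φ.toIntAlgHom hφ

theorem ft_of_hom {R S : Type} [CommRing R] [CommRing S] (h : Algebra.FiniteType ℤ R)
    (φ : R →+* S) (hφ : φ.FiniteType) : Algebra.FiniteType ℤ S :=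
  fgen_iff.2 ((fgen_iff.1 h).of_hom φ hφ)

theorem ft_alg {R S : Type} [CommRing R] [CommRing S] [Algebra R S]
    (h : Algebra.FiniteType ℤ R) (h' : Algebra.FiniteType R S) : Algebra.FiniteType ℤ S :=
  ft_of_hom h (algebraMap R S) (RingHom.finiteType_algebraMap.2 h')

theorem ft_loc {R : Type} [CommRing R] (h : Algebra.FiniteType ℤ R) (r : R) :
    @Algebra.FiniteType ℤ (Localization.Away r) _ _ (Ring.toIntAlgebra _) :=
  ft_alg h (IsLocalization.finiteType_of_monoid_fg (Submonoid.powers r) _)

theorem ft_ten {A B : Type} [CommRing A] [CommRing B] (hA : Algebra.FiniteType ℤ A)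
    (hB : Algebra.FiniteType ℤ B) : Algebra.FiniteType ℤ (Ten A B) := by
  have h1 : Algebra.FiniteType ℤ (A ⊗[ℤ] B) :=
    Algebra.FiniteType.trans (S := A) hA inferInstance
  have h2 : Algebra.FiniteType ℤ (A ⊗[ℤ] B) ↔ FGen (A ⊗[ℤ] B) := by
    rw [FGen, RingHom.ext_int (Int.castRingHom (A ⊗[ℤ] B)) (algebraMap ℤ (A ⊗[ℤ] B))]
    exact RingHom.finiteType_algebraMap.symm
  exact fgen_iff.2 (h2.1 h1)

theorem CurveProd.ft {T : Type} [CommRing T] (h : CurveProd T) : Algebra.FiniteType ℤ T := by
  induction h with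
  | base => infer_instance
  | tensor T B _ hB _ ih => exact ft_ten ih hB
  | iso S T _ e ih => exact ft_of_surj ih (e : S →+* T) e.surjective

theorem CurveProd.ten {T S : Type} [CommRing T] [CommRing S] (hT : CurveProd T)
    (hS : CurveProd S) : CurveProd (Ten T S) := by
  induction hS with
  | base =>
    obtain ⟨e, -⟩ := (isTen T ℤ).equiv (IsTen.int T)
    exact .iso _ _ hT e.symm
  | tensor S B _ hB hB1 ih =>
    obtain ⟨e⟩ := ten_assoc T S B
    exact .iso _ _ (.tensor (Ten T S) B ih hB hB1) e
  | iso S S' _ e ih =>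
    obtain ⟨e'⟩ := ten_congr (RingEquiv.refl T) e
    exact .iso _ _ ih e'

theorem CurveProd.of_dim {B : Type} [CommRing B] (hB : Algebra.FiniteType ℤ B)
    (hB1 : ringKrullDim B ≤ 1) : CurveProd B := by
  obtain ⟨e, -⟩ := (isTen ℤ B).symm.equiv (IsTen.int B)
  exact .iso _ _ (.tensor ℤ B .base hB hB1) e

theorem CurveProd.zero {B : Type} [CommRing B] (hB : Subsingleton B) : CurveProd B := by
  apply CurveProd.of_dim
  · exact Algebra.FiniteType.of_surjective (Algebra.ofId ℤ B) (fun x => ⟨0, Subsingleton.elim _ _⟩)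
  · rw [ringKrullDim_eq_bot_of_subsingleton]
    exact bot_le

section

variable {P : Scheme.{0} → Prop} (hP : ArithClosed P)
include hP

theorem p_iso {A B : Type} [CommRing A] [CommRing B]
    (hA : Algebra.FiniteType ℤ A) (e : A ≃+* B) (h : P (Spec (CommRingCat.of A))) :
    P (Spec (CommRingCat.of B)) :=
  hP.iso _ _ (arith hA) ⟨Scheme.Spec.mapIso e.toCommRingCatIso.symm.op⟩ h

theorem p_summand {R : Type} [CommRing R] (hft : Algebra.FiniteType ℤ R) (t : R)
    (htt : t * t = t) (h : P (Spec (CommRingCat.of R))) :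
    P (Spec (CommRingCat.of (R ⧸ Ideal.span {t}))) := by
  refine hP.summand _ _
    (Spec.map (CommRingCat.ofHom (Ideal.Quotient.mk (Ideal.span {t}))))
    (arith hft) (IsClosedImmersion.spec_of_surjective _ Ideal.Quotient.mk_surjective) ?_ h
  have hl : IsLocalization.Away (1 - t) (R ⧸ Ideal.span {t}) := by
    apply IsLocalization.away_of_isIdempotentElem
    · rw [IsIdempotentElem]
      linear_combination htt
    · rw [Ideal.Quotient.algebraMap_eq, Ideal.mk_ker, sub_sub_cancel]
    · exact Ideal.Quotient.mk_surjective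
  exact IsOpenImmersion.of_isLocalization (S := R ⧸ Ideal.span {t}) (1 - t)

end

/-- quotients of tensor products -/
theorem ten_quot (T : Type) [CommRing T] {A : Type} [CommRing A] (a : A) :
    Nonempty ((Ten T A ⧸ Ideal.span {tinr T A a}) ≃+* Ten T (A ⧸ Ideal.span {a})) := by
  have h1 := (isTen T A).quot (Ideal.span {a})
  obtain ⟨e, -⟩ := h1.equiv (isTen T (A ⧸ Ideal.span {a}))
  have h2 : (Ideal.span {a}).map (tinr T A) = Ideal.span {tinr T A a} := by
    rw [Ideal.map_span, Set.image_singleton]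
  exact ⟨(Ideal.quotEquivOfEq h2.symm).trans e⟩

/-- localisations of tensor products -/
theorem ten_away (T : Type) [CommRing T] {A : Type} [CommRing A] (a : A) :
    Nonempty (Localization.Away (tinr T A a) ≃+* Ten T (Localization.Away a)) := by
  obtain ⟨e, -⟩ := ((isTen T A).away (a := a) (Localization.Away a)
    (Localization.Away (tinr T A a))).equiv (isTen T (Localization.Away a))
  exact ⟨e⟩

/-- polynomials over tensor products -/
theorem ten_poly (T A : Type) [CommRing T] [CommRing A] :
    Nonempty (Polynomial (Ten T A) ≃+* Ten T (Polynomial A)) := by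
  obtain ⟨e, -⟩ := (isTen T A).poly.equiv (isTen T (Polynomial A))
  exact ⟨e⟩

/-- base change of algebras through the universal property -/
theorem ten_algebra (T A B : Type) [CommRing T] [CommRing A] [CommRing B] [Algebra A B] :
    let _ : Algebra A (Ten T A) := (tinr T A).toAlgebra
    Nonempty ((Ten T A ⊗[A] B) ≃+* Ten T B) := by
  let _ : Algebra A (Ten T A) := (tinr T A).toAlgebra
  have h1 : IsTen ((Algebra.TensorProduct.includeLeftRingHom :
      Ten T A →+* Ten T A ⊗[A] B).comp (tinl T A))
      ((Algebra.TensorProduct.includeRight : B →ₐ[A] Ten T A ⊗[A] B) : B →+* Ten T A ⊗[A] B) := by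
    refine ⟨?_, ?_⟩
    · intro E _ f g
      obtain ⟨u, hu1, hu2⟩ := (isTen T A).ex E f (g.comp (algebraMap A B))
      let _ : Algebra A E := (g.comp (algebraMap A B)).toAlgebra
      let u' : Ten T A →ₐ[A] E :=
        { toRingHom := u, commutes' := fun a => RingHom.congr_fun hu2 a }
      let g' : B →ₐ[A] E := { toRingHom := g, commutes' := fun a => rfl }
      refine ⟨(Algebra.TensorProduct.lift u' g' (fun _ _ => Commute.all _ _)).toRingHom, ?_, ?_⟩
      · rw [← hu1]
        ext t
        change (Algebra.TensorProduct.lift u' g' (fun _ _ => Commute.all _ _)) (tinl T A t ⊗ₜ 1) =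
          u (tinl T A t)
        rw [Algebra.TensorProduct.lift_tmul, map_one, mul_one]
        rfl
      · ext t
        change (Algebra.TensorProduct.lift u' g' (fun _ _ => Commute.all _ _)) (1 ⊗ₜ t) = g t
        rw [Algebra.TensorProduct.lift_tmul, map_one, one_mul]
        rfl
    · intro E _ u v h1 h2
      let _ : Algebra A E := (u.comp (Algebra.TensorProduct.includeLeftRingHom.comp
        (tinr T A))).toAlgebra
      have key : ∀ a : A, (tinr T A a) ⊗ₜ[A] (1 : B) = (1 : Ten T A) ⊗ₜ[A] (algebraMap A B a) := by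
        intro a
        have h3 : tinr T A a = a • (1 : Ten T A) := by
          rw [Algebra.smul_def, mul_one]
          rfl
        rw [h3, TensorProduct.smul_tmul, Algebra.smul_def, mul_one]
      have h3 : ∀ x : Ten T A, u (x ⊗ₜ[A] (1 : B)) = v (x ⊗ₜ[A] (1 : B)) := by
        have h4 : u.comp (Algebra.TensorProduct.includeLeftRingHom :
            Ten T A →+* Ten T A ⊗[A] B) = v.comp Algebra.TensorProduct.includeLeftRingHom := by
          apply (isTen T A).uniq
          · exact h1
          · ext a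
            change u (tinr T A a ⊗ₜ 1) = v (tinr T A a ⊗ₜ 1)
            rw [key]
            exact RingHom.congr_fun h2 _
        exact fun x => RingHom.congr_fun h4 x
      refine RingHom.ext fun z => ?_
      induction z using TensorProduct.induction_on with
      | zero => rw [map_zero, map_zero]
      | tmul x y =>
        have h5 : x ⊗ₜ[A] y = (x ⊗ₜ[A] (1 : B)) * ((1 : Ten T A) ⊗ₜ[A] y) := by
          rw [Algebra.TensorProduct.tmul_mul_tmul, mul_one, one_mul]
        rw [h5, map_mul, map_mul, h3]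
        congr 1
        exact RingHom.congr_fun h2 y
      | add x y hx hy => rw [map_add, map_add, hx, hy]
  obtain ⟨e, -⟩ := h1.equiv (isTen T B)
  exact ⟨e⟩

/-- **The stable rings form a class closed under cut and paste and transfer.** -/
theorem stable_ops {P : Scheme.{0} → Prop} (hP : ArithClosed P) :
    SOps (fun A _ => Stable P A) where
  ft A _ h := h.1
  zero A _ h := by
    refine ⟨(CurveProd.zero h).ft, fun T _ hT => ?_⟩
    apply hP.curves (Ten T A)
    exact hT.ten (CurveProd.zero h)
  iso A B _ _ e h := by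
    refine ⟨ft_of_surj h.1 (e : A →+* B) e.surjective, fun T _ hT => ?_⟩
    obtain ⟨e'⟩ := ten_congr (RingEquiv.refl T) e
    exact p_iso hP (ft_ten hT.ft h.1) e' (h.2 T hT)
  glue A _ f hA h1 h2 := by
    refine ⟨hA, fun T _ hT => ?_⟩
    have hft := ft_ten hT.ft hA
    obtain ⟨e1⟩ := ten_quot T f
    obtain ⟨e2⟩ := ten_away T f
    exact hP.glue _ _ _ _ _ (arith hft) (closedOpen_span (tinr T A f))
      (p_iso hP (ft_ten hT.ft h1.1) e1.symm (h1.2 T hT))
      (p_iso hP (ft_ten hT.ft (ft_loc hA f)) e2.symm (h2.2 T hT))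
  closed A _ f h1 h2 := by
    refine ⟨ft_of_surj h1.1 _ Ideal.Quotient.mk_surjective, fun T _ hT => ?_⟩
    have hft := ft_ten hT.ft h1.1
    obtain ⟨e1⟩ := ten_quot T f
    obtain ⟨e2⟩ := ten_away T f
    refine p_iso hP (ft_of_surj hft _ Ideal.Quotient.mk_surjective) e1 ?_
    exact hP.closed _ _ _ _ _ (arith hft) (closedOpen_span (tinr T A f)) (h1.2 T hT)
      (p_iso hP (ft_ten hT.ft (ft_loc h1.1 f)) e2.symm (h2.2 T hT))
  opn A _ f h1 h2 := by
    refine ⟨ft_loc h1.1 f, fun T _ hT => ?_⟩
    have hft := ft_ten hT.ft h1.1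
    obtain ⟨e1⟩ := ten_quot T f
    obtain ⟨e2⟩ := ten_away T f
    have h3 : P (Spec (CommRingCat.of (Localization.Away (tinr T A f)))) :=
      hP.opn _ _ _ _ _ (arith hft) (closedOpen_span (tinr T A f)) (h1.2 T hT)
        (p_iso hP (ft_ten hT.ft h2.1) e1.symm (h2.2 T hT))
    have h4 : P (Spec (CommRingCat.of (Ten T (Localization.Away f)))) :=
      p_iso hP (ft_loc hft _) e2 h3
    exact h4
  summand A _ f hf h := by
    refine ⟨ft_of_surj h.1 _ Ideal.Quotient.mk_surjective, fun T _ hT => ?_⟩
    have hft := ft_ten hT.ft h.1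
    obtain ⟨e1⟩ := ten_quot T f
    refine p_iso hP (ft_of_surj hft _ Ideal.Quotient.mk_surjective) e1 ?_
    exact p_summand hP hft _ (by rw [← map_mul, hf]) (h.2 T hT)
  poly A _ h := by
    refine ⟨ft_alg h.1 inferInstance, fun T _ hT => ?_⟩
    have hft := ft_ten hT.ft h.1
    obtain ⟨e⟩ := ten_poly T A
    exact p_iso hP (ft_alg hft inferInstance) e (hP.line _ (arith hft) (h.2 T hT))
  transfer A B _ _ _ _ _ _ hA h := by
    refine ⟨hA, fun T _ hT => ?_⟩
    have hft := ft_ten hT.ft hA
    rcases subsingleton_or_nontrivial (Ten T A) with h0 | h0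
    · exact hP.curves (Ten T A) (CurveProd.zero h0)
    let _ : Algebra A (Ten T A) := (tinr T A).toAlgebra
    obtain ⟨e⟩ := ten_algebra T A B
    have h1 : Nontrivial (Ten T A ⊗[A] B) := by
      have hn : Nontrivial A := (algebraMap A (Ten T A)).domain_nontrivial
      have hi : Nonempty (Module.Free.ChooseBasisIndex A B) :=
        (Module.Free.chooseBasis A B).index_nonempty
      obtain ⟨i⟩ := hi
      let b := Module.Basis.baseChange (Ten T A) (Module.Free.chooseBasis A B)
      exact ⟨⟨b i, 0, b.ne_zero i⟩⟩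
    refine hP.transfer (Ten T A) (Ten T A ⊗[A] B) (arith hft) ?_
    exact p_iso hP (ft_ten hT.ft h.1) e.symm (h.2 T hT)
  curve T W _ _ hT hW := by
    refine ⟨ft_ten hT.ft hW.1, fun T' _ hT' => ?_⟩
    obtain ⟨e⟩ := ten_assoc T' T W
    exact p_iso hP (ft_ten (ft_ten hT'.ft hT.ft) hW.1) e (hW.2 (Ten T' T) (hT'.ten hT))
  int := by
    refine ⟨inferInstance, fun T _ hT => ?_⟩
    exact hP.curves (Ten T ℤ) (hT.ten .base)

end Pool.Agent.Helper87.CC
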