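import Mathlib

/-!
# Classes of algebras over a field closed under the operations of cut and paste
-/

namespace Pool.Agent.Helper87.CC

/-- classes of finitely generated `K`-algebras closed under cut and paste -/
structure KOps (K : Type) [Field K] (G : ∀ (R : Type) [CommRing R] [Algebra K R], Prop) :
    Prop where
  ft : ∀ (R : Type) [CommRing R] [Algebra K R], G R → Algebra.FiniteType K R
  zero : ∀ (R : Type) [CommRing R] [Algebra K R], Subsingleton R → G R
  iso : ∀ (R S : Type) [CommRing R] [Algebra K R] [CommRing S] [Algebra K S],
    (R ≃ₐ[K] S) → G R → G S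
  glue : ∀ (R : Type) [CommRing R] [Algebra K R] (f : R), Algebra.FiniteType K R →
    G (R ⧸ Ideal.span {f}) → G (Localization.Away f) → G R
  closed : ∀ (R : Type) [CommRing R] [Algebra K R] (f : R),
    G R → G (Localization.Away f) → G (R ⧸ Ideal.span {f})
  opn : ∀ (R : Type) [CommRing R] [Algebra K R] (f : R),
    G R → G (R ⧸ Ideal.span {f}) → G (Localization.Away f)
  poly : ∀ (R : Type) [CommRing R] [Algebra K R], G R → G (Polynomial R)

end Pool.Agent.Helper87.CC
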