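import Pool.Agent.Helper87.CC.Fib
import Pool.Agent.Helper87.CC.Ops

/-!
# The geometric class is closed under cut and paste; fibres of families given by polynomials
-/

namespace Pool.Agent.Helper87.CC

open TensorProduct MvPolynomial

variable {S : ∀ (A : Type) [CommRing A], Prop}

/-- the geometric class of a class of rings closed under cut and paste -/
theorem geometric_kops (hS : SOps S) (K : Type) [Field K] :
    KOps K (fun R _ _ => Geometric (fun W _ => S W) K R) where
  ft R _ _ h := h.finiteType (fun W _ h => hS.ft W h)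
  zero R _ _ h := by
    have h1 : Geometric (fun W _ => S W) K (K ⊗[ℤ] PUnit.{1}) :=
      .const PUnit.{1} (hS.zero _ inferInstance)
    have h2 : Subsingleton (K ⊗[ℤ] PUnit.{1}) := by
      refine ⟨fun a b => ?_⟩
      have h3 : ∀ c : K ⊗[ℤ] PUnit.{1}, c = 0 := by
        intro c
        induction c using TensorProduct.induction_on with
        | zero => rfl
        | tmul x y =>
          rw [Subsingleton.elim y 0, TensorProduct.tmul_zero]
        | add x y hx hy => rw [hx, hy, add_zero]
      rw [h3 a, h3 b]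
    refine .iso _ R ?_ h1
    exact
      { toFun := fun _ => 0
        invFun := fun _ => 0
        left_inv := fun x => Subsingleton.elim _ _
        right_inv := fun x => Subsingleton.elim _ _
        map_mul' := fun _ _ => Subsingleton.elim _ _
        map_add' := fun _ _ => Subsingleton.elim _ _
        commutes' := fun _ => Subsingleton.elim _ _ }
  iso R T _ _ _ _ e h := .iso R T e h
  glue R _ _ f h h1 h2 := .glue R f h h1 h2
  closed R _ _ f h1 h2 := .closed R f h1 h2
  opn R _ _ f h1 h2 := .opn R f h1 h2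
  poly R _ _ h := .poly R h

/-- `X` is the tensor product over the integers of `W` and the `R`-algebra with the generators
`x` and the relations `s` -/
structure IsFam {R W X : Type} [CommRing R] [CommRing W] [CommRing X] {σ : Type}
    (s : Set (MvPolynomial σ R)) (i : R →+* X) (j : W →+* X) (x : σ → X) : Prop where
  zero : ∀ p ∈ s, eval₂ i x p = 0
  ex : ∀ (E : Type) [CommRing E] (f : R →+* E) (g : W →+* E) (y : σ → E),
    (∀ p ∈ s, eval₂ f y p = 0) → ∃ h : X →+* E, h.comp i = f ∧ h.comp j = g ∧ ∀ a, h (x a) = y a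
  uniq : ∀ (E : Type) [CommRing E] (h h' : X →+* E), h.comp i = h'.comp i →
    h.comp j = h'.comp j → (∀ a, h (x a) = h' (x a)) → h = h'

theorem IsFam.equiv {R W X Y : Type} [CommRing R] [CommRing W] [CommRing X] [CommRing Y]
    {σ : Type} {s : Set (MvPolynomial σ R)} {i : R →+* X} {j : W →+* X} {x : σ → X}
    {i' : R →+* Y} {j' : W →+* Y} {x' : σ → Y} (h : IsFam s i j x) (h' : IsFam s i' j' x') :
    ∃ e : X ≃+* Y, ∀ r, e (i r) = i' r := by
  obtain ⟨f, hf1, hf2, hf3⟩ := h.ex Y i' j' x' h'.zero
  obtain ⟨g, hg1, hg2, hg3⟩ := h'.ex X i j x h.zero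
  refine ⟨RingEquiv.ofRingHom f g ?_ ?_, fun r => RingHom.congr_fun hf1 r⟩
  · apply h'.uniq
    · rw [RingHom.comp_assoc, hg1, hf1, RingHom.id_comp]
    · rw [RingHom.comp_assoc, hg2, hf2, RingHom.id_comp]
    · intro a
      rw [RingHom.comp_apply, hg3, hf3, RingHom.id_apply]
  · apply h.uniq
    · rw [RingHom.comp_assoc, hf1, hg1, RingHom.id_comp]
    · rw [RingHom.comp_assoc, hf2, hg2, RingHom.id_comp]
    · intro a
      rw [RingHom.comp_apply, hf3, hg3, RingHom.id_apply]

/-- the standard model -/
theorem isFam_ten {R : Type} [CommRing R] (W : Type) [CommRing W] {σ : Type}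
    (s : Set (MvPolynomial σ R)) :
    IsFam s (((tinr W (MvPolynomial σ R ⧸ Ideal.span s)).comp (Ideal.Quotient.mk _)).comp C)
      (tinl W (MvPolynomial σ R ⧸ Ideal.span s))
      (fun a => tinr W (MvPolynomial σ R ⧸ Ideal.span s) (Ideal.Quotient.mk _ (X a))) where
  zero p hp := by
    have h1 : eval₂ (((tinr W (MvPolynomial σ R ⧸ Ideal.span s)).comp (Ideal.Quotient.mk _)).comp C)
        (fun a => tinr W (MvPolynomial σ R ⧸ Ideal.span s) (Ideal.Quotient.mk _ (X a))) p =
        ((tinr W (MvPolynomial σ R ⧸ Ideal.span s)).comp (Ideal.Quotient.mk _))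
          (eval₂ C X p) := by
      rw [eval₂_comp_left]
      rfl
    rw [h1, eval₂_eta, RingHom.comp_apply, Ideal.Quotient.eq_zero_iff_mem.2
      (Ideal.subset_span hp), map_zero]
  ex E _ f g y hy := by
    let φ : MvPolynomial σ R ⧸ Ideal.span s →+* E := Ideal.Quotient.lift _ (eval₂Hom f y) (by
      intro a ha
      have h1 : Ideal.span s ≤ RingHom.ker (eval₂Hom f y) := by
        rw [Ideal.span_le]
        exact fun p hp => hy p hp
      exact h1 ha)
    obtain ⟨h, h1, h2⟩ := (isTen W (MvPolynomial σ R ⧸ Ideal.span s)).ex E g φ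
    refine ⟨h, ?_, h1, ?_⟩
    · rw [← RingHom.comp_assoc, ← RingHom.comp_assoc, h2]
      ext r
      simp [φ]
    · intro a
      rw [← RingHom.comp_apply, h2]
      simp [φ]
  uniq E _ h h' h1 h2 h3 := by
    apply (isTen W (MvPolynomial σ R ⧸ Ideal.span s)).uniq E h h' h2
    apply Ideal.Quotient.ringHom_ext
    apply MvPolynomial.ringHom_ext'
    · exact h1
    · exact h3

/-- base change -/
theorem IsFam.baseChange {R W A K : Type} [CommRing R] [CommRing W] [CommRing A] [CommRing K]
    [Algebra R A] [Algebra R K] {σ : Type} {s : Set (MvPolynomial σ R)} {j : W →+* A} {x : σ → A}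
    (h : IsFam s (algebraMap R A) j x) :
    IsFam (map (algebraMap R K) '' s) (algebraMap K (K ⊗[R] A))
      (((Algebra.TensorProduct.includeRight : A →ₐ[R] K ⊗[R] A) : A →+* K ⊗[R] A).comp j)
      (fun a => (1 : K) ⊗ₜ[R] x a) where
  zero := by
    rintro _ ⟨p, hp, rfl⟩
    rw [eval₂_map]
    have h1 : (algebraMap K (K ⊗[R] A)).comp (algebraMap R K) =
        (((Algebra.TensorProduct.includeRight : A →ₐ[R] K ⊗[R] A) :
          A →+* K ⊗[R] A)).comp (algebraMap R A) := by
      refine RingHom.ext fun r => ?_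
      have h2 := (Algebra.TensorProduct.includeRight : A →ₐ[R] K ⊗[R] A).commutes r
      refine Eq.trans ?_ h2.symm
      exact (IsScalarTower.algebraMap_apply R K (K ⊗[R] A) r).symm
    rw [h1]
    have h2 := eval₂_comp_left ((Algebra.TensorProduct.includeRight : A →ₐ[R] K ⊗[R] A) :
      A →+* K ⊗[R] A) (algebraMap R A) x p
    rw [h.zero p hp, map_zero] at h2
    exact h2.symm
  ex E _ f g y hy := by
    obtain ⟨u, hu1, hu2, hu3⟩ := h.ex E (f.comp (algebraMap R K)) g y (by
      intro p hp
      have := hy _ ⟨p, hp, rfl⟩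
      rwa [eval₂_map] at this)
    let _ : Algebra R E := (f.comp (algebraMap R K)).toAlgebra
    let f' : K →ₐ[R] E := { toRingHom := f, commutes' := fun r => rfl }
    let u' : A →ₐ[R] E := { toRingHom := u, commutes' := fun r => RingHom.congr_fun hu1 r }
    refine ⟨(Algebra.TensorProduct.lift f' u' (fun _ _ => Commute.all _ _)).toRingHom, ?_, ?_, ?_⟩
    · refine RingHom.ext fun t => ?_
      change (Algebra.TensorProduct.lift f' u' (fun _ _ => Commute.all _ _)) (t ⊗ₜ 1) = f t
      rw [Algebra.TensorProduct.lift_tmul, map_one, mul_one]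
      rfl
    · refine RingHom.ext fun t => ?_
      change (Algebra.TensorProduct.lift f' u' (fun _ _ => Commute.all _ _)) (1 ⊗ₜ j t) = g t
      rw [Algebra.TensorProduct.lift_tmul, map_one, one_mul, ← hu2]
      rfl
    · intro a
      change (Algebra.TensorProduct.lift f' u' (fun _ _ => Commute.all _ _)) (1 ⊗ₜ x a) = y a
      rw [Algebra.TensorProduct.lift_tmul, map_one, one_mul, ← hu3]
      rfl
  uniq E _ v v' h1 h2 h3 := by
    have h4 : v.comp ((Algebra.TensorProduct.includeRight : A →ₐ[R] K ⊗[R] A) : A →+* K ⊗[R] A) =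
        v'.comp ((Algebra.TensorProduct.includeRight : A →ₐ[R] K ⊗[R] A) : A →+* K ⊗[R] A) := by
      apply h.uniq
      · have h5 : ∀ w : K ⊗[R] A →+* E,
            (w.comp ((Algebra.TensorProduct.includeRight : A →ₐ[R] K ⊗[R] A) :
              A →+* K ⊗[R] A)).comp (algebraMap R A) =
            (w.comp (algebraMap K (K ⊗[R] A))).comp (algebraMap R K) := by
          intro w
          refine RingHom.ext fun r => ?_
          have h2 := (Algebra.TensorProduct.includeRight : A →ₐ[R] K ⊗[R] A).commutes r
          have h6 := (IsScalarTower.algebraMap_apply R K (K ⊗[R] A) r)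
          exact congrArg w (h2.trans h6)
        rw [h5, h5, h1]
      · exact h2
      · exact h3
    refine RingHom.ext fun z => ?_
    induction z using TensorProduct.induction_on with
    | zero => rw [map_zero, map_zero]
    | tmul x y =>
      have h5 : x ⊗ₜ[R] y = (x ⊗ₜ[R] (1 : A)) * ((1 : K) ⊗ₜ[R] y) := by
        rw [Algebra.TensorProduct.tmul_mul_tmul, mul_one, one_mul]
      rw [h5, map_mul, map_mul]
      congr 1
      · exact RingHom.congr_fun h1 x
      · exact RingHom.congr_fun h4 y
    | add x y hx hy => rw [map_add, map_add, hx, hy]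

/-- the model over the constant algebra -/
theorem isFam_const {K W E : Type} [CommRing K] [CommRing W] [CommRing E] [Algebra K E]
    {j : W →+* E} (hE : IsTen (algebraMap K E) j) {σ : Type} (s : Set (MvPolynomial σ K)) :
    IsFam s (algebraMap K (MvPolynomial σ E ⧸ Ideal.span (map (algebraMap K E) '' s)))
      (((Ideal.Quotient.mk (Ideal.span (map (algebraMap K E) '' s))).comp C).comp j)
      (fun a => Ideal.Quotient.mk _ (X a)) where
  zero p hp := by
    have h1 : algebraMap K (MvPolynomial σ E ⧸ Ideal.span (map (algebraMap K E) '' s)) =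
        ((Ideal.Quotient.mk (Ideal.span (map (algebraMap K E) '' s))).comp C).comp
          (algebraMap K E) := rfl
    rw [h1, ← eval₂_map]
    have h2 : eval₂ ((Ideal.Quotient.mk (Ideal.span (map (algebraMap K E) '' s))).comp C)
        (fun a => Ideal.Quotient.mk _ (X a)) (map (algebraMap K E) p) =
        Ideal.Quotient.mk (Ideal.span (map (algebraMap K E) '' s))
          (eval₂ C X (map (algebraMap K E) p)) := by
      rw [eval₂_comp_left]
      rfl
    rw [h2, eval₂_eta]
    exact Ideal.Quotient.eq_zero_iff_mem.2 (Ideal.subset_span ⟨p, hp, rfl⟩)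
  ex T _ f g y hy := by
    obtain ⟨u, hu1, hu2⟩ := hE.ex T f g
    let φ : MvPolynomial σ E ⧸ Ideal.span (map (algebraMap K E) '' s) →+* T :=
      Ideal.Quotient.lift _ (eval₂Hom u y) (by
        intro a ha
        have h1 : Ideal.span (map (algebraMap K E) '' s) ≤ RingHom.ker (eval₂Hom u y) := by
          rw [Ideal.span_le]
          rintro _ ⟨p, hp, rfl⟩
          change eval₂ u y (map (algebraMap K E) p) = 0
          rw [eval₂_map, hu1]
          exact hy p hp
        exact h1 ha)
    refine ⟨φ, ?_, ?_, ?_⟩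
    · refine RingHom.ext fun t => ?_
      change eval₂Hom u y (C (algebraMap K E t)) = f t
      rw [eval₂Hom_C]
      exact RingHom.congr_fun hu1 t
    · refine RingHom.ext fun t => ?_
      change eval₂Hom u y (C (j t)) = g t
      rw [eval₂Hom_C]
      exact RingHom.congr_fun hu2 t
    · intro a
      change eval₂Hom u y (X a) = y a
      rw [eval₂Hom_X']
  uniq T _ h h' h1 h2 h3 := by
    apply Ideal.Quotient.ringHom_ext
    apply MvPolynomial.ringHom_ext'
    · exact hE.uniq T _ _ h1 h2
    · exact h3

theorem geometric_const {W : Type} [CommRing W] (hW : S W) (K : Type) [Field K] :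
    ∃ (E : Type) (_ : CommRing E) (_ : Algebra K E) (j : W →+* E), IsTen (algebraMap K E) j ∧
      Geometric (fun W _ => S W) K E :=
  ⟨K ⊗[ℤ] W, inferInstance, inferInstance,
    ((Algebra.TensorProduct.includeRight : W →ₐ[ℤ] K ⊗[ℤ] W) : W →+* K ⊗[ℤ] W),
    isTen K W, .const W hW⟩

/-- **Families whose geometric fibres are given by polynomials** -/
theorem family (hS : SOps S) {R W : Type} [CommRing R] [CommRing W]
    (hR : Algebra.FiniteType ℤ R) (hdim : ringKrullDim R ≤ 1) (hW : S W) (m : ℕ)
    (s : Set (MvPolynomial (Fin m) R))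
    (h : ∀ (K : Type) [Field K] [IsAlgClosed K] [Algebra R K] (E : Type) [CommRing E]
      [Algebra K E], Geometric (fun W _ => S W) K E → Geometric (fun W _ => S W) K
        (MvPolynomial (Fin m) E ⧸ Ideal.span (map (algebraMap K E) ''
          (map (algebraMap R K) '' s)))) :
    S (Ten W (MvPolynomial (Fin m) R ⧸ Ideal.span s)) := by
  let A := Ten W (MvPolynomial (Fin m) R ⧸ Ideal.span s)
  let _ : Algebra R A := (((tinr W (MvPolynomial (Fin m) R ⧸ Ideal.span s)).comp
    (Ideal.Quotient.mk _)).comp C).toAlgebra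
  have hfam : IsFam s (algebraMap R A) (tinl W (MvPolynomial (Fin m) R ⧸ Ideal.span s))
      (fun a => tinr W (MvPolynomial (Fin m) R ⧸ Ideal.span s) (Ideal.Quotient.mk _ (X a))) :=
    isFam_ten W s
  have hAft : Algebra.FiniteType ℤ A := ft_ten (hS.ft W hW) (ft_alg hR inferInstance)
  have hA : Algebra.FiniteType R A := Algebra.FiniteType.of_restrictScalars_finiteType ℤ R A
  refine fibres hS hR hdim hA fun p _ => ?_
  set K := AlgebraicClosure p.ResidueField with hK
  obtain ⟨E, _, _, j, hE, hGE⟩ := geometric_const hW K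
  have h1 := h K E hGE
  have h2 := isFam_const hE (map (algebraMap R K) '' s)
  obtain ⟨e, he⟩ := h2.equiv (hfam.baseChange (K := K))
  exact .iso _ _ (AlgEquiv.ofRingEquiv (f := e) he) h1

end Pool.Agent.Helper87.CC
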