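import Pool.Agent.Helper87.CC.Fib2
import Pool.Agent.Helper20.BL.Main

/-!
# Multipliers are closed under cut and paste and transfer
-/

namespace Pool.Agent.Helper87.CC

open TensorProduct

variable {S : ∀ (A : Type) [CommRing A], Prop}

/-- **The multipliers form a class closed under cut and paste and transfer.** -/
theorem mult_ops (hS : SOps S) : SOps (fun B _ => MultS S B) where
  ft A _ h := h.1
  zero A _ h := MultS.curve hS (CurveProd.zero h)
  iso A B _ _ e h := h.iso hS e
  glue A _ f hA h1 h2 := by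
    refine ⟨hA, fun W _ hW => ?_⟩
    obtain ⟨e1⟩ := ten_quot W f
    obtain ⟨e2⟩ := ten_away W f
    exact hS.glue _ _ (ft_ten (hS.ft W hW) hA) (hS.iso _ _ e1.symm (h1.2 W hW))
      (hS.iso _ _ e2.symm (h2.2 W hW))
  closed A _ f h1 h2 := by
    refine ⟨ft_of_surj h1.1 _ Ideal.Quotient.mk_surjective, fun W _ hW => ?_⟩
    obtain ⟨e1⟩ := ten_quot W f
    obtain ⟨e2⟩ := ten_away W f
    exact hS.iso _ _ e1 (hS.closed _ _ (h1.2 W hW) (hS.iso _ _ e2.symm (h2.2 W hW)))
  opn A _ f h1 h2 := h1.opn hS f h2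
  summand A _ f hf h := by
    refine ⟨ft_of_surj h.1 _ Ideal.Quotient.mk_surjective, fun W _ hW => ?_⟩
    obtain ⟨e1⟩ := ten_quot W f
    exact hS.iso _ _ e1 (hS.summand _ _ (by rw [← map_mul, hf]) (h.2 W hW))
  poly A _ h := Helper20.BL.MultS.poly hS h
  transfer A B _ _ _ _ _ _ hA h := by
    refine ⟨hA, fun W _ hW => ?_⟩
    have hft := ft_ten (hS.ft W hW) hA
    rcases subsingleton_or_nontrivial (Ten W A) with h0 | h0
    · exact hS.zero _ h0
    let _ : Algebra A (Ten W A) := (tinr W A).toAlgebra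
    obtain ⟨e⟩ := ten_algebra W A B
    have h1 : Nontrivial (Ten W A ⊗[A] B) := by
      have hn : Nontrivial A := (algebraMap A (Ten W A)).domain_nontrivial
      have hi : Nonempty (Module.Free.ChooseBasisIndex A B) :=
        (Module.Free.chooseBasis A B).index_nonempty
      obtain ⟨i⟩ := hi
      let b := Module.Basis.baseChange (Ten W A) (Module.Free.chooseBasis A B)
      exact ⟨⟨b i, 0, b.ne_zero i⟩⟩
    exact hS.transfer (Ten W A) (Ten W A ⊗[A] B) hft (hS.iso _ _ e.symm (h.2 W hW))
  curve T W _ _ hT hW := (MultS.curve hS hT).ten hS hW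
  int := MultS.curve hS .base

end Pool.Agent.Helper87.CC
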