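import Mathlib

/-!
# Tensor products over the integers through the universal property
-/

namespace Pool.Agent.Helper87.CC

open TensorProduct Polynomial

/-- the tensor product over the integers -/
def Ten (T A : Type) [CommRing T] [CommRing A] : Type := T ⊗[ℤ] A

noncomputable instance (T A : Type) [CommRing T] [CommRing A] : CommRing (Ten T A) :=
  inferInstanceAs (CommRing (T ⊗[ℤ] A))

/-- `X` is the coproduct of the rings `T` and `A` -/
structure IsTen {T A X : Type} [CommRing T] [CommRing A] [CommRing X] (i : T →+* X)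
    (j : A →+* X) : Prop where
  ex : ∀ (E : Type) [CommRing E] (f : T →+* E) (g : A →+* E),
    ∃ h : X →+* E, h.comp i = f ∧ h.comp j = g
  uniq : ∀ (E : Type) [CommRing E] (h h' : X →+* E), h.comp i = h'.comp i →
    h.comp j = h'.comp j → h = h'

/-- the left inclusion -/
noncomputable def tinl (T A : Type) [CommRing T] [CommRing A] : T →+* Ten T A :=
  (Algebra.TensorProduct.includeLeftRingHom : T →+* T ⊗[ℤ] A)

/-- the right inclusion -/
noncomputable def tinr (T A : Type) [CommRing T] [CommRing A] : A →+* Ten T A :=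
  ((Algebra.TensorProduct.includeRight : A →ₐ[ℤ] T ⊗[ℤ] A) : A →+* T ⊗[ℤ] A)

theorem isTen (T A : Type) [CommRing T] [CommRing A] : IsTen (tinl T A) (tinr T A) where
  ex E _ f g := by
    refine ⟨(Algebra.TensorProduct.lift f.toIntAlgHom g.toIntAlgHom
      (fun _ _ => Commute.all _ _) : T ⊗[ℤ] A →ₐ[ℤ] E).toRingHom, ?_, ?_⟩
    · ext t
      change (Algebra.TensorProduct.lift f.toIntAlgHom g.toIntAlgHom
        (fun _ _ => Commute.all _ _) : T ⊗[ℤ] A →ₐ[ℤ] E) (t ⊗ₜ 1) = f t
      simp
    · ext t
      change (Algebra.TensorProduct.lift f.toIntAlgHom g.toIntAlgHom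
        (fun _ _ => Commute.all _ _) : T ⊗[ℤ] A →ₐ[ℤ] E) (1 ⊗ₜ t) = g t
      simp
  uniq E _ h h' h1 h2 := by
    have h3 : (h : T ⊗[ℤ] A →+* E).toIntAlgHom = (h' : T ⊗[ℤ] A →+* E).toIntAlgHom := by
      apply Algebra.TensorProduct.ext
      · ext t
        exact congrArg (fun χ : T →+* E => χ t) h1
      · ext t
        exact congrArg (fun χ : A →+* E => χ t) h2
    ext x
    exact congrArg (fun χ : T ⊗[ℤ] A →ₐ[ℤ] E => χ x) h3

section

variable {T A X : Type} [CommRing T] [CommRing A] [CommRing X] {i : T →+* X} {j : A →+* X}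

theorem IsTen.equiv {Y : Type} [CommRing Y] {i' : T →+* Y} {j' : A →+* Y} (h : IsTen i j)
    (h' : IsTen i' j') : ∃ e : X ≃+* Y, (∀ t, e (i t) = i' t) ∧ ∀ a, e (j a) = j' a := by
  obtain ⟨f, hf1, hf2⟩ := h.ex Y i' j'
  obtain ⟨g, hg1, hg2⟩ := h'.ex X i j
  refine ⟨RingEquiv.ofRingHom f g ?_ ?_, fun t => RingHom.congr_fun hf1 t,
    fun a => RingHom.congr_fun hf2 a⟩
  · apply h'.uniq
    · rw [RingHom.comp_assoc, hg1, hf1, RingHom.id_comp]
    · rw [RingHom.comp_assoc, hg2, hf2, RingHom.id_comp]
  · apply h.uniq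
    · rw [RingHom.comp_assoc, hf1, hg1, RingHom.id_comp]
    · rw [RingHom.comp_assoc, hf2, hg2, RingHom.id_comp]

theorem IsTen.symm (h : IsTen i j) : IsTen j i where
  ex E _ f g := by
    obtain ⟨u, h1, h2⟩ := h.ex E g f
    exact ⟨u, h2, h1⟩
  uniq E _ u v h1 h2 := h.uniq E u v h2 h1

/-- transport -/
theorem IsTen.congr (h : IsTen i j) {T' A' X' : Type} [CommRing T'] [CommRing A'] [CommRing X']
    (t : T' ≃+* T) (a : A' ≃+* A) (x : X ≃+* X') :
    IsTen ((x : X →+* X').comp (i.comp (t : T' →+* T)))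
      ((x : X →+* X').comp (j.comp (a : A' →+* A))) where
  ex E _ f g := by
    obtain ⟨u, h1, h2⟩ := h.ex E (f.comp (t.symm : T →+* T')) (g.comp (a.symm : A →+* A'))
    refine ⟨u.comp (x.symm : X' →+* X), ?_, ?_⟩
    · ext s
      have := RingHom.congr_fun h1 (t s)
      simpa using this
    · ext s
      have := RingHom.congr_fun h2 (a s)
      simpa using this
  uniq E _ u v h1 h2 := by
    have h3 : u.comp (x : X →+* X') = v.comp (x : X →+* X') := by
      apply h.uniq
      · ext s
        have := RingHom.congr_fun h1 (t.symm s)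
        simpa using this
      · ext s
        have := RingHom.congr_fun h2 (a.symm s)
        simpa using this
    ext s
    have := RingHom.congr_fun h3 (x.symm s)
    simpa using this

/-- quotients -/
theorem IsTen.quot (h : IsTen i j) (I : Ideal A) :
    IsTen ((Ideal.Quotient.mk (I.map j)).comp i)
      (Ideal.Quotient.lift I ((Ideal.Quotient.mk (I.map j)).comp j) (fun a ha =>
        Ideal.Quotient.eq_zero_iff_mem.2 (Ideal.mem_map_of_mem j ha))) where
  ex E _ f g := by
    obtain ⟨u, h1, h2⟩ := h.ex E f (g.comp (Ideal.Quotient.mk I))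
    refine ⟨Ideal.Quotient.lift (I.map j) u ?_, ?_, ?_⟩
    · have h3 : I.map j ≤ RingHom.ker u := by
        rw [Ideal.map_le_iff_le_comap]
        intro a ha
        change u (j a) = 0
        have h4 := RingHom.congr_fun h2 a
        have h5 : u (j a) = g (Ideal.Quotient.mk I a) := h4
        rw [h5, Ideal.Quotient.eq_zero_iff_mem.2 ha, map_zero]
      exact fun a ha => h3 ha
    · ext s
      exact RingHom.congr_fun h1 s
    · apply Ideal.Quotient.ringHom_ext
      ext s
      exact RingHom.congr_fun h2 s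
  uniq E _ u v h1 h2 := by
    apply Ideal.Quotient.ringHom_ext
    apply h.uniq
    · exact h1
    · have h3 := congrArg (fun χ => RingHom.comp χ (Ideal.Quotient.mk I)) h2
      exact h3

/-- localisations -/
theorem IsTen.away (h : IsTen i j) {a : A} (A' X' : Type) [CommRing A'] [CommRing X']
    [Algebra A A'] [Algebra X X'] [IsLocalization.Away a A'] [IsLocalization.Away (j a) X'] :
    IsTen ((algebraMap X X').comp i)
      (IsLocalization.Away.lift (S := A') a (g := (algebraMap X X').comp j)
        (IsLocalization.Away.algebraMap_isUnit (S := X') (j a))) where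
  ex E _ f g := by
    obtain ⟨u, h1, h2⟩ := h.ex E f (g.comp (algebraMap A A'))
    have hu : IsUnit (u (j a)) := by
      have h4 := RingHom.congr_fun h2 a
      have h5 : u (j a) = g (algebraMap A A' a) := h4
      rw [h5]
      exact (IsLocalization.Away.algebraMap_isUnit a).map g
    refine ⟨IsLocalization.Away.lift (j a) hu, ?_, ?_⟩
    · rw [← RingHom.comp_assoc, IsLocalization.Away.lift_comp, h1]
    · apply IsLocalization.ringHom_ext (Submonoid.powers a)
      rw [RingHom.comp_assoc, IsLocalization.Away.lift_comp, ← RingHom.comp_assoc,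
        IsLocalization.Away.lift_comp, h2]
  uniq E _ u v h1 h2 := by
    apply IsLocalization.ringHom_ext (Submonoid.powers (j a))
    apply h.uniq
    · exact h1
    · have h3 := congrArg (fun χ => RingHom.comp χ (algebraMap A A')) h2
      simp only [RingHom.comp_assoc, IsLocalization.Away.lift_comp] at h3
      exact h3

/-- polynomials -/
theorem IsTen.poly (h : IsTen i j) : IsTen ((Polynomial.C : X →+* X[X]).comp i)
    (Polynomial.mapRingHom j) where
  ex E _ f g := by
    obtain ⟨u, h1, h2⟩ := h.ex E f (g.comp Polynomial.C)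
    refine ⟨Polynomial.eval₂RingHom u (g Polynomial.X), ?_, ?_⟩
    · ext s
      have := RingHom.congr_fun h1 s
      simpa using this
    · apply Polynomial.ringHom_ext
      · intro s
        have := RingHom.congr_fun h2 s
        simpa using this
      · simp
  uniq E _ u v h1 h2 := by
    apply Polynomial.ringHom_ext'
    · apply h.uniq
      · exact h1
      · have h3 := congrArg (fun χ => RingHom.comp χ (Polynomial.C : A →+* A[X])) h2
        ext s
        have h4 := RingHom.congr_fun h3 s
        simpa using h4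
    · have h3 := RingHom.congr_fun h2 (Polynomial.X : A[X])
      simpa using h3

/-- associativity -/
theorem IsTen.assoc {S Y : Type} [CommRing S] [CommRing Y] (h : IsTen i j) {i' : S →+* Y}
    {j' : X →+* Y} (h' : IsTen i' j') {Z : Type} [CommRing Z] {l : S →+* Z} {r : T →+* Z}
    (hz : IsTen l r) : ∃ k : Z →+* Y, k.comp l = i' ∧ k.comp r = j'.comp i ∧
      IsTen k (j'.comp j) := by
  obtain ⟨k, hk1, hk2⟩ := hz.ex Y i' (j'.comp i)
  refine ⟨k, hk1, hk2, ?_, ?_⟩
  · intro E _ f g
    obtain ⟨u, hu1, hu2⟩ := h.ex E (f.comp r) g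
    obtain ⟨v, hv1, hv2⟩ := h'.ex E (f.comp l) u
    refine ⟨v, ?_, ?_⟩
    · apply hz.uniq
      · rw [RingHom.comp_assoc, hk1, hv1]
      · rw [RingHom.comp_assoc, hk2, ← RingHom.comp_assoc, hv2, hu1]
    · rw [← RingHom.comp_assoc, hv2, hu2]
  · intro E _ u v h1 h2
    apply h'.uniq
    · rw [← hk1, ← RingHom.comp_assoc, ← RingHom.comp_assoc, h1]
    · apply h.uniq
      · rw [RingHom.comp_assoc, RingHom.comp_assoc, ← hk2, ← RingHom.comp_assoc,
          ← RingHom.comp_assoc, h1]
      · rw [RingHom.comp_assoc, RingHom.comp_assoc, h2]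

/-- the integers -/
theorem IsTen.int (T : Type) [CommRing T] : IsTen (RingHom.id T) (Int.castRingHom T) where
  ex E _ f g := ⟨f, rfl, RingHom.ext_int _ _⟩
  uniq E _ u v h1 _ := by
    simpa using h1

end

/-- tensor products of isomorphic rings -/
theorem ten_congr {T T' A A' : Type} [CommRing T] [CommRing T'] [CommRing A] [CommRing A']
    (t : T ≃+* T') (a : A ≃+* A') : Nonempty (Ten T A ≃+* Ten T' A') := by
  obtain ⟨e, -⟩ := (isTen T A).equiv ((isTen T' A').congr t a (RingEquiv.refl _))
  exact ⟨e⟩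

/-- associativity -/
theorem ten_assoc (S T A : Type) [CommRing S] [CommRing T] [CommRing A] :
    Nonempty (Ten (Ten S T) A ≃+* Ten S (Ten T A)) := by
  obtain ⟨k, -, -, h⟩ := (isTen T A).assoc (isTen S (Ten T A)) (isTen S T)
  obtain ⟨e, -⟩ := (isTen (Ten S T) A).equiv h
  exact ⟨e⟩

theorem ten_comm (S T : Type) [CommRing S] [CommRing T] : Nonempty (Ten S T ≃+* Ten T S) := by
  obtain ⟨e, -⟩ := (isTen S T).equiv (isTen T S).symm
  exact ⟨e⟩

end Pool.Agent.Helper87.CC
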