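import Pool.Agent.Helper87.CC.Defs
import Pool.Agent.Helper87.CC.Ten

/-!
# Classes of finitely generated rings closed under cut and paste and transfer
-/

namespace Pool.Agent.Helper87.CC

open TensorProduct

/-- classes of finitely generated rings closed under cut and paste, transfer and products with
products of arithmetic curves -/
structure SOps (S : ∀ (A : Type) [CommRing A], Prop) : Prop where
  ft : ∀ (A : Type) [CommRing A], S A → Algebra.FiniteType ℤ A
  zero : ∀ (A : Type) [CommRing A], Subsingleton A → S A
  iso : ∀ (A B : Type) [CommRing A] [CommRing B], (A ≃+* B) → S A → S B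
  glue : ∀ (A : Type) [CommRing A] (f : A), Algebra.FiniteType ℤ A →
    S (A ⧸ Ideal.span {f}) → S (Localization.Away f) → S A
  closed : ∀ (A : Type) [CommRing A] (f : A),
    S A → S (Localization.Away f) → S (A ⧸ Ideal.span {f})
  opn : ∀ (A : Type) [CommRing A] (f : A),
    S A → S (A ⧸ Ideal.span {f}) → S (Localization.Away f)
  summand : ∀ (A : Type) [CommRing A] (f : A), f * f = f → S A → S (A ⧸ Ideal.span {f})
  poly : ∀ (A : Type) [CommRing A], S A → S (Polynomial A)
  transfer : ∀ (A B : Type) [CommRing A] [CommRing B] [Nontrivial B] [Algebra A B]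
    [Module.Free A B] [Module.Finite A B], Algebra.FiniteType ℤ A → S B → S A
  curve : ∀ (T W : Type) [CommRing T] [CommRing W], CurveProd T → S W → S (Ten T W)
  int : S ℤ

end Pool.Agent.Helper87.CC
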