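import Pool.Agent.Helper87.CC.Defs
import Pool.Agent.Helper87.CC.Ten

/-!
# Multipliers, good fibres and products of functions on curves
-/

namespace Pool.Agent.Helper87.CC

open AlgebraicGeometry TensorProduct

/-- `Multiplier P B`: the ring `B` is finitely generated and its products with the stable rings
are stable. -/
def Multiplier (P : Scheme.{0} → Prop) (B : Type) [CommRing B] : Prop :=
  Algebra.FiniteType ℤ B ∧ ∀ (W : Type) [CommRing W], Stable P W → Stable P (Ten W B)

/-- The fibre of the `R`-algebra `A` over the prime ideal `p` is good: either `R ⧸ p` has dimension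
at most one and the geometric fibre over `p` is in the geometric class of the stable rings, or all
principal open subsets of the spectrum of `R ⧸ p` are multipliers and the fibre over `p` itself is
in the geometric class over the residue field. -/
def GoodFibre (P : Scheme.{0} → Prop) (R A : Type) [CommRing R] [CommRing A] [Algebra R A]
    (p : Ideal R) [p.IsPrime] : Prop :=
  (ringKrullDim (R ⧸ p) ≤ 1 ∧ Geometric (fun W _ => Stable P W)
    (AlgebraicClosure p.ResidueField) (AlgebraicClosure p.ResidueField ⊗[R] A)) ∨
  ((∀ a : R ⧸ p, a ≠ 0 → Multiplier P (Localization.Away a)) ∧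
    Geometric (fun W _ => Stable P W) p.ResidueField (p.ResidueField ⊗[R] A))

end Pool.Agent.Helper87.CC
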