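import Pool.Agent.Helper87.CC.Fam

/-!
# Pushouts of rings
-/

namespace Pool.Agent.Helper87.CC

open TensorProduct MvPolynomial

/-- `X` is the pushout of `a : R →+* A` and `k : R →+* K` -/
structure IsPush {R A K X : Type} [CommRing R] [CommRing A] [CommRing K] [CommRing X]
    (a : R →+* A) (k : R →+* K) (i : A →+* X) (j : K →+* X) : Prop where
  comm : i.comp a = j.comp k
  ex : ∀ (E : Type) [CommRing E] (f : A →+* E) (g : K →+* E), f.comp a = g.comp k →
    ∃ h : X →+* E, h.comp i = f ∧ h.comp j = g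
  uniq : ∀ (E : Type) [CommRing E] (h h' : X →+* E), h.comp i = h'.comp i →
    h.comp j = h'.comp j → h = h'

theorem IsPush.equiv {R A K X Y : Type} [CommRing R] [CommRing A] [CommRing K] [CommRing X]
    [CommRing Y] {a : R →+* A} {k : R →+* K} {i : A →+* X} {j : K →+* X} {i' : A →+* Y}
    {j' : K →+* Y} (h : IsPush a k i j) (h' : IsPush a k i' j') :
    ∃ e : X ≃+* Y, ∀ r, e (j r) = j' r := by
  obtain ⟨f, hf1, hf2⟩ := h.ex Y i' j' h'.comm
  obtain ⟨g, hg1, hg2⟩ := h'.ex X i j h.comm
  refine ⟨RingEquiv.ofRingHom f g ?_ ?_, fun r => RingHom.congr_fun hf2 r⟩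
  · apply h'.uniq
    · rw [RingHom.comp_assoc, hg1, hf1, RingHom.id_comp]
    · rw [RingHom.comp_assoc, hg2, hf2, RingHom.id_comp]
  · apply h.uniq
    · rw [RingHom.comp_assoc, hf1, hg1, RingHom.id_comp]
    · rw [RingHom.comp_assoc, hf2, hg2, RingHom.id_comp]

/-- the tensor product is a pushout -/
theorem isPush_tensor {R A K : Type} [CommRing R] [CommRing A] [CommRing K] [Algebra R A]
    [Algebra R K] :
    IsPush (algebraMap R A) (algebraMap R K)
      ((Algebra.TensorProduct.includeRight : A →ₐ[R] K ⊗[R] A) : A →+* K ⊗[R] A)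
      (algebraMap K (K ⊗[R] A)) where
  comm := by
    refine RingHom.ext fun r => ?_
    have h2 := (Algebra.TensorProduct.includeRight : A →ₐ[R] K ⊗[R] A).commutes r
    refine Eq.trans h2 ?_
    exact (IsScalarTower.algebraMap_apply R K (K ⊗[R] A) r)
  ex E _ f g hfg := by
    let _ : Algebra R E := (g.comp (algebraMap R K)).toAlgebra
    let g' : K →ₐ[R] E := { toRingHom := g, commutes' := fun r => rfl }
    let f' : A →ₐ[R] E := { toRingHom := f, commutes' := fun r => RingHom.congr_fun hfg r }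
    refine ⟨(Algebra.TensorProduct.lift g' f' (fun _ _ => Commute.all _ _)).toRingHom, ?_, ?_⟩
    · refine RingHom.ext fun t => ?_
      change (Algebra.TensorProduct.lift g' f' (fun _ _ => Commute.all _ _)) (1 ⊗ₜ t) = f t
      rw [Algebra.TensorProduct.lift_tmul, map_one, one_mul]
      rfl
    · refine RingHom.ext fun t => ?_
      change (Algebra.TensorProduct.lift g' f' (fun _ _ => Commute.all _ _)) (t ⊗ₜ 1) = g t
      rw [Algebra.TensorProduct.lift_tmul, map_one, mul_one]
      rfl
  uniq E _ v v' h1 h2 := by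
    refine RingHom.ext fun z => ?_
    induction z using TensorProduct.induction_on with
    | zero => rw [map_zero, map_zero]
    | tmul x y =>
      have h5 : x ⊗ₜ[R] y = (x ⊗ₜ[R] (1 : A)) * ((1 : K) ⊗ₜ[R] y) := by
        rw [Algebra.TensorProduct.tmul_mul_tmul, mul_one, one_mul]
      rw [h5, map_mul, map_mul]
      congr 1
      · exact RingHom.congr_fun h2 x
      · exact RingHom.congr_fun h1 y
    | add x y hx hy => rw [map_add, map_add, hx, hy]

/-- tensor products over the integers give pushouts -/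
theorem IsTen.push {R T K B E : Type} [CommRing R] [CommRing T] [CommRing K] [CommRing B]
    [CommRing E] {i : T →+* B} {a : R →+* B} (h : IsTen i a) {i' : T →+* E} {j' : K →+* E}
    (h' : IsTen i' j') (k : R →+* K) :
    ∃ u : B →+* E, u.comp i = i' ∧ IsPush a k u j' := by
  obtain ⟨u, hu1, hu2⟩ := h.ex E i' (j'.comp k)
  refine ⟨u, hu1, hu2, ?_, ?_⟩
  · intro F _ f g hfg
    obtain ⟨v, hv1, hv2⟩ := h'.ex F (f.comp i) g
    refine ⟨v, ?_, hv2⟩
    apply h.uniq
    · rw [RingHom.comp_assoc, hu1, hv1]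
    · rw [RingHom.comp_assoc, hu2, ← RingHom.comp_assoc, hv2, hfg]
  · intro F _ v v' h1 h2
    apply h'.uniq _ _ _ _ h2
    rw [← hu1, ← RingHom.comp_assoc, h1, RingHom.comp_assoc]

/-- the ring given by generators and relations over `B` -/
abbrev Pq {B : Type} [CommRing B] {σ : Type} (s : Set (MvPolynomial σ B)) : Type :=
  MvPolynomial σ B ⧸ Ideal.span s

/-- the structure map -/
noncomputable def pqC {B : Type} [CommRing B] {σ : Type} (s : Set (MvPolynomial σ B)) :
    B →+* Pq s := (Ideal.Quotient.mk _).comp C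

/-- homomorphisms from a ring given by generators and relations -/
theorem pq_ex {B : Type} [CommRing B] {σ : Type} (s : Set (MvPolynomial σ B)) (E : Type)
    [CommRing E] (f : B →+* E) (y : σ → E) (hy : ∀ p ∈ s, eval₂ f y p = 0) :
    ∃ h : Pq s →+* E, h.comp (pqC s) = f ∧ ∀ a, h (Ideal.Quotient.mk _ (X a)) = y a := by
  refine ⟨Ideal.Quotient.lift _ (eval₂Hom f y) ?_, ?_, ?_⟩
  · intro a ha
    have h1 : Ideal.span s ≤ RingHom.ker (eval₂Hom f y) := by
      rw [Ideal.span_le]
      exact fun p hp => hy p hp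
    exact h1 ha
  · refine RingHom.ext fun t => ?_
    change eval₂Hom f y (C t) = f t
    rw [eval₂Hom_C]
  · intro a
    change eval₂Hom f y (X a) = y a
    rw [eval₂Hom_X']

theorem pq_uniq {B : Type} [CommRing B] {σ : Type} {s : Set (MvPolynomial σ B)} {E : Type}
    [CommRing E] {h h' : Pq s →+* E} (h1 : h.comp (pqC s) = h'.comp (pqC s))
    (h2 : ∀ a, h (Ideal.Quotient.mk _ (X a)) = h' (Ideal.Quotient.mk _ (X a))) : h = h' := by
  apply Ideal.Quotient.ringHom_ext
  apply MvPolynomial.ringHom_ext'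
  · exact h1
  · exact h2

theorem pq_zero {B : Type} [CommRing B] {σ : Type} {s : Set (MvPolynomial σ B)} {p : MvPolynomial σ B}
    (hp : p ∈ s) : eval₂ (pqC s) (fun a => Ideal.Quotient.mk _ (X a)) p = 0 := by
  have h1 : eval₂ (pqC s) (fun a => Ideal.Quotient.mk _ (X a)) p =
      Ideal.Quotient.mk (Ideal.span s) (eval₂ C X p) := by
    rw [eval₂_comp_left]
    rfl
  rw [h1, eval₂_eta, Ideal.Quotient.eq_zero_iff_mem]
  exact Ideal.subset_span hp

/-- pushouts of rings given by generators and relations -/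
theorem IsPush.pq {R B K E : Type} [CommRing R] [CommRing B] [CommRing K] [CommRing E]
    {a : R →+* B} {k : R →+* K} {i : B →+* E} {j : K →+* E} (h : IsPush a k i j) {σ : Type}
    (s : Set (MvPolynomial σ B)) :
    ∃ u : Pq s →+* Pq (map i '' s), IsPush ((pqC s).comp a) k u ((pqC (map i '' s)).comp j) := by
  obtain ⟨u, hu1, hu2⟩ := pq_ex s (Pq (map i '' s)) ((pqC (map i '' s)).comp i)
    (fun a => Ideal.Quotient.mk _ (X a)) (by
      intro p hp
      rw [← eval₂_map]
      exact pq_zero ⟨p, hp, rfl⟩)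
  refine ⟨u, ?_, ?_, ?_⟩
  · rw [← RingHom.comp_assoc, hu1, RingHom.comp_assoc, h.comm, RingHom.comp_assoc]
  · intro F _ f g hfg
    obtain ⟨v, hv1, hv2⟩ := h.ex F (f.comp (pqC s)) g (by rw [RingHom.comp_assoc, hfg])
    obtain ⟨w, hw1, hw2⟩ := pq_ex (map i '' s) F v (fun a => f (Ideal.Quotient.mk _ (X a))) (by
      rintro _ ⟨p, hp, rfl⟩
      rw [eval₂_map, hv1]
      have h3 := eval₂_comp_left f (pqC s) (fun a => Ideal.Quotient.mk _ (X a)) p
      rw [pq_zero hp, map_zero] at h3
      exact h3.symm)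
    refine ⟨w, ?_, ?_⟩
    · apply pq_uniq
      · rw [RingHom.comp_assoc, hu1, ← RingHom.comp_assoc, hw1, hv1]
      · intro a
        rw [RingHom.comp_apply, hu2, hw2]
    · rw [← RingHom.comp_assoc, hw1, hv2]
  · intro F _ v v' h1 h2
    apply pq_uniq
    · apply h.uniq
      · have h3 : (v.comp u).comp (pqC s) = (v'.comp u).comp (pqC s) := by rw [h1]
        rw [RingHom.comp_assoc, RingHom.comp_assoc, hu1] at h3
        exact h3
      · exact h2
    · intro a
      have h3 := RingHom.congr_fun h1 (Ideal.Quotient.mk _ (X a))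
      rw [RingHom.comp_apply, RingHom.comp_apply, hu2] at h3
      exact h3

end Pool.Agent.Helper87.CC
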