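import Mathlib

/-!
# Every cubic surface over an algebraically closed field contains a line
-/

namespace Pool.Agent.Helper87.CC.Line

open MvPolynomial

section Bin

variable {K C C' : Type} [CommRing K] [CommRing C] [CommRing C']

/-- the points of the line -/
noncomputable def pt (z : Fin 4 → C) : Fin 4 → Polynomial C :=
  ![1, Polynomial.X, Polynomial.C (z 0) + Polynomial.C (z 1) * Polynomial.X,
    Polynomial.C (z 2) + Polynomial.C (z 3) * Polynomial.X]

/-- the restriction of a form to the line -/
noncomputable def bin (φ : K →+* C) (G : MvPolynomial (Fin 4) K) (z : Fin 4 → C) : Polynomial C :=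
  eval₂ (Polynomial.C.comp φ) (pt z) G

theorem bin_map (φ : K →+* C) (ψ : C →+* C') (G : MvPolynomial (Fin 4) K) (z : Fin 4 → C) :
    (bin φ G z).map ψ = bin (ψ.comp φ) G (fun i => ψ (z i)) := by
  rw [bin, bin, ← Polynomial.coe_mapRingHom, eval₂_comp_left]
  congr 1
  · ext x
    simp
  · funext i
    fin_cases i <;> simp [pt]

theorem bin_congr (φ : K →+* C) (G : MvPolynomial (Fin 4) K) (z z' : Fin 4 → C) (d : C)
    (h : ∀ i, d ∣ z i - z' i) (j : ℕ) : d ∣ (bin φ G z).coeff j - (bin φ G z').coeff j := by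
  rw [← Ideal.mem_span_singleton, ← Ideal.Quotient.eq]
  have h1 := congrArg (fun p => Polynomial.coeff p j)
    (bin_map φ (Ideal.Quotient.mk (Ideal.span {d})) G z)
  have h2 := congrArg (fun p => Polynomial.coeff p j)
    (bin_map φ (Ideal.Quotient.mk (Ideal.span {d})) G z')
  simp only [Polynomial.coeff_map] at h1 h2
  rw [h1, h2]
  have h3 : (fun i => Ideal.Quotient.mk (Ideal.span {d}) (z i)) =
      fun i => Ideal.Quotient.mk (Ideal.span {d}) (z' i) := by
    funext i
    rw [Ideal.Quotient.eq, Ideal.mem_span_singleton]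
    exact h i
  rw [h3]

end Bin

/-- the line on a small deformation of the cubic `x₂ x₀² + x₃ x₁²` -/
theorem exists_fixed {K : Type} [Field K] (G : MvPolynomial (Fin 4) K) :
    ∃ z : Fin 4 → PowerSeries K, ∀ j : Fin 4,
      z j = - (PowerSeries.X * (bin (PowerSeries.C (R := K)) G z).coeff j) := by
  let Φ : (Fin 4 → PowerSeries K) → Fin 4 → PowerSeries K := fun z j =>
    - (PowerSeries.X * (bin (PowerSeries.C (R := K)) G z).coeff j)
  have hΦ : ∀ (n : ℕ) (z z' : Fin 4 → PowerSeries K),
      (∀ i, (PowerSeries.X : PowerSeries K) ^ n ∣ z i - z' i) →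
      ∀ i, (PowerSeries.X : PowerSeries K) ^ (n + 1) ∣ Φ z i - Φ z' i := by
    intro n z z' h i
    have h1 := bin_congr (PowerSeries.C (R := K)) G z z' _ h i
    have h2 : Φ z i - Φ z' i = - (PowerSeries.X * ((bin (PowerSeries.C (R := K)) G z).coeff i -
        (bin (PowerSeries.C (R := K)) G z').coeff i)) := by
      simp only [Φ]
      ring
    rw [h2, dvd_neg, pow_succ']
    exact mul_dvd_mul_left _ h1
  let s : ℕ → Fin 4 → PowerSeries K := fun n => Φ^[n] 0
  have hs : ∀ n, s (n + 1) = Φ (s n) := fun n => Function.iterate_succ_apply' Φ n 0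
  have h1 : ∀ n i, (PowerSeries.X : PowerSeries K) ^ n ∣ s (n + 1) i - s n i := by
    intro n
    induction n with
    | zero => intro i; rw [pow_zero]; exact one_dvd _
    | succ n ih =>
      intro i
      rw [hs (n + 1), hs n]
      have := hΦ n (s (n + 1)) (s n) ih i
      rwa [hs n] at this
  have h2 : ∀ n m, n ≤ m → ∀ i, (PowerSeries.X : PowerSeries K) ^ n ∣ s m i - s n i := by
    intro n m hnm
    induction m, hnm using Nat.le_induction with
    | base => intro i; rw [sub_self]; exact dvd_zero _
    | succ m hm ih =>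
      intro i
      have h3 : s (m + 1) i - s n i = (s (m + 1) i - s m i) + (s m i - s n i) := by ring
      rw [h3]
      exact dvd_add ((pow_dvd_pow _ hm).trans (h1 m i)) (ih i)
  let z : Fin 4 → PowerSeries K := fun i => PowerSeries.mk fun n => PowerSeries.coeff n (s (n + 1) i)
  have h3 : ∀ n i, (PowerSeries.X : PowerSeries K) ^ n ∣ z i - s n i := by
    intro n i
    rw [PowerSeries.X_pow_dvd_iff]
    intro m hm
    have h4 := PowerSeries.X_pow_dvd_iff.1 (h2 (m + 1) n hm i) m (Nat.lt_succ_self m)
    rw [map_sub] at h4 ⊢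
    simp only [z, PowerSeries.coeff_mk]
    rw [← neg_sub, h4, neg_zero]
  refine ⟨z, fun i => ?_⟩
  have h4 : ∀ n, (PowerSeries.X : PowerSeries K) ^ n ∣ z i - Φ z i := by
    intro n
    have h5 : z i - Φ z i = (z i - s (n + 1) i) + (Φ (s n) i - Φ z i) := by
      rw [hs]
      ring
    rw [h5]
    refine dvd_add ((pow_dvd_pow _ (Nat.le_succ n)).trans (h3 (n + 1) i)) ?_
    rw [← neg_sub, dvd_neg]
    exact (pow_dvd_pow _ (Nat.le_succ n)).trans (hΦ n z (s n) (h3 n) i)
  rw [← sub_eq_zero]
  change z i - Φ z i = 0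
  ext n
  rw [map_zero]
  exact PowerSeries.X_pow_dvd_iff.1 (h4 (n + 1)) n (Nat.lt_succ_self n)

/-- evaluation of homogeneous polynomials -/
theorem eval_hom {E : Type} [CommRing E] {H : MvPolynomial (Fin 4) E} {n : ℕ}
    (hH : H.IsHomogeneous n) (c : E) (v : Fin 4 → E) :
    eval (fun i => c * v i) H = c ^ n * eval v H := by
  rw [eval_eq, eval_eq, Finset.mul_sum]
  refine Finset.sum_congr rfl fun d hd => ?_
  have h1 : ∑ i ∈ d.support, d i = n := by
    have := hH (mem_support_iff.1 hd)
    rw [← this]
    exact DFunLike.congr_fun (Finsupp.degree_eq_weight_one (R := ℕ) (σ := Fin 4)) d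
  have h2 : ∏ i ∈ d.support, (c * v i) ^ d i = c ^ n * ∏ i ∈ d.support, v i ^ d i := by
    simp only [mul_pow]
    rw [Finset.prod_mul_distrib, Finset.prod_pow_eq_pow_sum, h1]
  rw [h2]
  ring

/-- from an affine part of the line to the whole line -/
theorem vanish_all {E : Type} [Field E] [Infinite E] {H : MvPolynomial (Fin 4) E} {n : ℕ}
    (hH : H.IsHomogeneous n) (u w : Fin 4 → E) (h : ∀ y, eval (fun i => u i + y * w i) H = 0)
    (x y : E) : eval (fun i => x * u i + y * w i) H = 0 := by
  have h1 : ∀ x y : E, x ≠ 0 → eval (fun i => x * u i + y * w i) H = 0 := by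
    intro x y hx
    have h2 : (fun i => x * u i + y * w i) = fun i => x * (u i + (y / x) * w i) := by
      funext i
      field_simp
    rw [h2, eval_hom hH, h, mul_zero]
  by_cases hx : x = 0
  · let R : Polynomial E := aeval (fun i => Polynomial.C (u i) * Polynomial.X +
      Polynomial.C (y * w i)) H
    have hR : ∀ t : E, R.eval t = eval (fun i => t * u i + y * w i) H := by
      intro t
      have h3 : (Polynomial.evalRingHom t).comp (aeval (fun i => Polynomial.C (u i) * Polynomial.X +
          Polynomial.C (y * w i)) : MvPolynomial (Fin 4) E →ₐ[E] Polynomial E).toRingHom =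
          (eval (fun i => t * u i + y * w i)) := by
        apply MvPolynomial.ringHom_ext
        · intro r
          simp
        · intro i
          have h5 : (aeval (fun i => Polynomial.C (u i) * Polynomial.X +
              Polynomial.C (y * w i)) : MvPolynomial (Fin 4) E →ₐ[E] Polynomial E) (X i) =
              Polynomial.C (u i) * Polynomial.X + Polynomial.C (y * w i) := aeval_X _ _
          change Polynomial.eval t ((aeval (fun i => Polynomial.C (u i) * Polynomial.X +
              Polynomial.C (y * w i)) : MvPolynomial (Fin 4) E →ₐ[E] Polynomial E) (X i)) = _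
          rw [h5, eval_X, Polynomial.eval_add, Polynomial.eval_mul, Polynomial.eval_C,
            Polynomial.eval_C, Polynomial.eval_X, mul_comm]
      exact RingHom.congr_fun h3 H
    have h4 : R = 0 := by
      apply Polynomial.eq_zero_of_infinite_isRoot
      refine Set.Infinite.mono (s := {0}ᶜ) ?_ (Set.Finite.infinite_compl (Set.finite_singleton 0))
      intro t ht
      change R.eval t = 0
      rw [hR]
      exact h1 t y ht
    rw [hx, ← hR, h4, Polynomial.eval_zero]
  · exact h1 x y hx

/-- the Nullstellensatz: points of algebras of finite type -/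
theorem exists_point {K B : Type} [Field K] [IsAlgClosed K] [CommRing B] [Nontrivial B]
    [Algebra K B] [Algebra.FiniteType K B] : Nonempty (B →ₐ[K] K) := by
  obtain ⟨M, hM⟩ := Ideal.exists_maximal B
  let _ : Field (B ⧸ M) := Ideal.Quotient.field M
  have h1 : Algebra.FiniteType K (B ⧸ M) := inferInstance
  have h2 : Module.Finite K (B ⧸ M) := finite_of_finite_type_of_isJacobsonRing K (B ⧸ M)
  have h3 : Algebra.IsIntegral K (B ⧸ M) := inferInstance
  have h4 := IsAlgClosed.algebraMap_bijective_of_isIntegral (k := K) (K := B ⧸ M)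
  let e : K ≃ₐ[K] (B ⧸ M) := AlgEquiv.ofBijective (Algebra.ofId K (B ⧸ M)) h4
  exact ⟨e.symm.toAlgHom.comp (Ideal.Quotient.mkₐ K M)⟩

/-- lines and valuations -/
theorem residue_line {K E : Type} [Field K] [Field E] (φ : K →+* E) (O : ValuationSubring E)
    (hφ : ∀ x, φ x ∈ O) (s : E) (hs : s ∈ O.nonunits) (G F : MvPolynomial (Fin 4) K)
    (u w : Fin 4 → E) (huw : ∃ i j, u i * w j - u j * w i ≠ 0)
    (h : ∀ x y : E, eval (fun i => x * u i + y * w i) (map φ G + C s * map φ F) = 0) :
    ∃ (κ : Type) (_ : Field κ) (_ : Algebra K κ) (i j : Fin 4) (u' w' : Fin 4 → κ),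
      u' i = 1 ∧ u' j = 0 ∧ w' i = 0 ∧ w' j = 1 ∧
      ∀ x y : K, eval (fun k => algebraMap K κ x * u' k + algebraMap K κ y * w' k)
        (map (algebraMap K κ) G) = 0 := by
  classical
  let M : Fin 4 × Fin 4 → E := fun ij => u ij.1 * w ij.2 - u ij.2 * w ij.1
  obtain ⟨⟨i, j⟩, hij⟩ := Finite.exists_max (fun ij => O.valuation (M ij))
  have hM0 : M (i, j) ≠ 0 := by
    obtain ⟨i', j', h1⟩ := huw
    intro h2
    have h3 := hij (i', j')
    rw [h2, map_zero, le_zero_iff, map_eq_zero] at h3
    exact h1 h3
  have hdiv : ∀ kl : Fin 4 × Fin 4, M kl / M (i, j) ∈ O := by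
    intro kl
    obtain ⟨a, ha⟩ := (O.valuation_le_iff (M kl) (M (i, j))).1 (hij kl)
    rw [← ha, mul_div_assoc, div_self hM0, mul_one]
    exact a.2
  let φ' : K →+* O := φ.codRestrict O.toSubring hφ
  have hsO : s ∈ O := ValuationSubring.nonunits_subset hs
  let s' : O := ⟨s, hsO⟩
  let uO : Fin 4 → O := fun k => ⟨M (k, j) / M (i, j), hdiv _⟩
  let wO : Fin 4 → O := fun k => ⟨M (i, k) / M (i, j), hdiv _⟩
  have hE : ∀ x y : O, eval (fun k => x * uO k + y * wO k) (map φ' G + C s' * map φ' F) = 0 := by
    intro x y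
    apply O.subtype_injective
    have h1 : (O.subtype) (eval (fun k => x * uO k + y * wO k) (map φ' G + C s' * map φ' F)) =
        eval (fun k => (x : E) * (M (k, j) / M (i, j)) + (y : E) * (M (i, k) / M (i, j)))
          (map φ G + C s * map φ F) := by
      rw [← eval₂_id, ← eval₂_id, eval₂_comp_left]
      rw [RingHom.comp_id, eval₂_add, eval₂_add, eval₂_mul, eval₂_mul, eval₂_map, eval₂_map,
        eval₂_map, eval₂_map, eval₂_C, eval₂_C]
      rfl
    rw [h1, map_zero]
    have h2 : (fun k => (x : E) * (M (k, j) / M (i, j)) + (y : E) * (M (i, k) / M (i, j))) =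
        fun k => (((x : E) * w j - (y : E) * w i) / M (i, j)) * u k +
          ((- (x : E) * u j + (y : E) * u i) / M (i, j)) * w k := by
      funext k
      simp only [M]
      ring
    rw [h2]
    exact h _ _
  let κ := IsLocalRing.ResidueField O
  let ρ : O →+* κ := IsLocalRing.residue O
  let _ : Algebra K κ := (ρ.comp φ').toAlgebra
  have hs0 : ρ s' = 0 := by
    rw [IsLocalRing.residue_eq_zero_iff]
    exact (O.coe_mem_nonunits_iff (a := s')).1 hs
  have hMii : ∀ k, M (k, k) = 0 := fun k => by simp only [M]; ring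
  refine ⟨κ, inferInstance, inferInstance, i, j, fun k => ρ (uO k), fun k => ρ (wO k), ?_, ?_,
    ?_, ?_, ?_⟩
  · have h1 : uO i = 1 := Subtype.ext (div_self hM0)
    simp only [h1, map_one]
  · have h1 : uO j = 0 := Subtype.ext (by
      change M (j, j) / M (i, j) = 0
      rw [hMii, zero_div])
    simp only [h1, map_zero]
  · have h1 : wO i = 0 := Subtype.ext (by
      change M (i, i) / M (i, j) = 0
      rw [hMii, zero_div])
    simp only [h1, map_zero]
  · have h1 : wO j = 1 := Subtype.ext (div_self hM0)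
    simp only [h1, map_one]
  · intro x y
    have h1 := congrArg ρ (hE (φ' x) (φ' y))
    rw [map_zero, ← eval₂_id, eval₂_comp_left, RingHom.comp_id, eval₂_add, eval₂_mul, eval₂_map,
      eval₂_map, eval₂_C, hs0, zero_mul, add_zero] at h1
    rw [← eval₂_id, eval₂_map, RingHom.id_comp]
    refine Eq.trans ?_ h1
    congr 1

/-- descent of the line to the algebraically closed field -/
theorem descend_line {K κ : Type} [Field K] [IsAlgClosed K] [Field κ] [Algebra K κ]
    (G : MvPolynomial (Fin 4) K) (i j : Fin 4) (u' w' : Fin 4 → κ) (h1 : u' i = 1) (h2 : u' j = 0)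
    (h3 : w' i = 0) (h4 : w' j = 1)
    (h : ∀ x y : K, eval (fun k => algebraMap K κ x * u' k + algebraMap K κ y * w' k)
        (map (algebraMap K κ) G) = 0) :
    ∃ u w : Fin 4 → K, u i = 1 ∧ u j = 0 ∧ w i = 0 ∧ w j = 1 ∧
      ∀ x y : K, eval (fun k => x * u k + y * w k) G = 0 := by
  let B : Subalgebra K κ := Algebra.adjoin K (Set.range u' ∪ Set.range w')
  have hB : Algebra.FiniteType K B := by
    rw [← Subalgebra.fg_iff_finiteType]
    exact Subalgebra.fg_def.2 ⟨_, (Set.finite_range _).union (Set.finite_range _), rfl⟩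
  obtain ⟨φ⟩ := exists_point (K := K) (B := B)
  let uB : Fin 4 → B := fun k => ⟨u' k, Algebra.subset_adjoin (Or.inl ⟨k, rfl⟩)⟩
  let wB : Fin 4 → B := fun k => ⟨w' k, Algebra.subset_adjoin (Or.inr ⟨k, rfl⟩)⟩
  refine ⟨fun k => φ (uB k), fun k => φ (wB k), ?_, ?_, ?_, ?_, ?_⟩
  · have : uB i = 1 := Subtype.ext h1
    simp only [this, map_one]
  · have : uB j = 0 := Subtype.ext h2
    simp only [this, map_zero]
  · have : wB i = 0 := Subtype.ext h3
    simp only [this, map_zero]
  · have : wB j = 1 := Subtype.ext h4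
    simp only [this, map_one]
  · intro x y
    have h5 : aeval (fun k => algebraMap K B x * uB k + algebraMap K B y * wB k) G = 0 := by
      apply Subtype.val_injective
      have h6 : ((aeval (fun k => algebraMap K B x * uB k + algebraMap K B y * wB k) G : B) : κ) =
          eval (fun k => algebraMap K κ x * u' k + algebraMap K κ y * w' k)
            (map (algebraMap K κ) G) := by
        rw [← eval₂_id, eval₂_map, RingHom.id_comp]
        change B.val (aeval (fun k => algebraMap K B x * uB k + algebraMap K B y * wB k) G) = _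
        rw [← AlgHom.comp_apply, comp_aeval]
        rfl
      rw [h6]
      exact h x y
    have h7 := congrArg φ h5
    rw [map_zero, ← AlgHom.comp_apply, comp_aeval] at h7
    rw [← h7, ← eval₂_id]
    simp only [aeval_def]
    congr 1
    funext k
    simp only [map_add, map_mul, AlgHom.commutes]
    rfl

theorem pt_natDegree {C : Type} [CommRing C] (z : Fin 4 → C) (i : Fin 4) :
    (pt z i).natDegree ≤ 1 := by
  fin_cases i
  · change (1 : Polynomial C).natDegree ≤ 1
    rw [Polynomial.natDegree_one]
    exact Nat.zero_le _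
  · exact Polynomial.natDegree_X_le
  · change (Polynomial.C (z 0) + Polynomial.C (z 1) * Polynomial.X).natDegree ≤ 1
    compute_degree
  · change (Polynomial.C (z 2) + Polynomial.C (z 3) * Polynomial.X).natDegree ≤ 1
    compute_degree

theorem bin_natDegree {K C : Type} [CommRing K] [CommRing C] (φ : K →+* C)
    (G : MvPolynomial (Fin 4) K) (hG : G.totalDegree ≤ 3) (z : Fin 4 → C) :
    (bin φ G z).natDegree ≤ 3 := by
  classical
  have h1 : bin φ G z = aeval (pt z) (map φ G) := by
    rw [aeval_def, eval₂_map]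
    rfl
  have h2 : (map φ G).totalDegree ≤ 3 :=
    (Finset.sup_mono (support_map_subset φ G)).trans hG
  rw [h1]
  exact aeval_natDegree_le _ h2 _ (pt_natDegree z)

theorem eval_bin {K C : Type} [CommRing K] [CommRing C] (φ : K →+* C)
    (G : MvPolynomial (Fin 4) K) (z : Fin 4 → C) (y : C) :
    (bin φ G z).eval y = eval (fun i => (pt z i).eval y) (map φ G) := by
  rw [bin, ← Polynomial.coe_evalRingHom, eval₂_comp_left, ← eval₂_id, eval₂_map,
    RingHom.id_comp]
  congr 1
  ext x
  simp

/-- the special cubic form -/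
noncomputable def F0 (K : Type) [CommRing K] : MvPolynomial (Fin 4) K :=
  X 2 * X 0 ^ 2 + X 3 * X 1 ^ 2

theorem transcendental_inv (K : Type) [Field K] :
    ¬ IsAlgebraic K (algebraMap (PowerSeries K) (FractionRing (PowerSeries K))
      PowerSeries.X)⁻¹ := by
  rw [IsAlgebraic.inv_iff]
  rintro ⟨p, hp, h⟩
  apply hp
  rw [Polynomial.aeval_algebraMap_apply, IsFractionRing.to_map_eq_zero_iff] at h
  have h1 : Polynomial.aeval (PowerSeries.X : PowerSeries K) p = (p : PowerSeries K) := by
    have h2 : ((Polynomial.aeval (PowerSeries.X : PowerSeries K) :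
        Polynomial K →ₐ[K] PowerSeries K) : Polynomial K →+* PowerSeries K) =
        Polynomial.coeToPowerSeries.ringHom := by
      apply Polynomial.ringHom_ext
      · intro a
        simp
      · simp
    exact RingHom.congr_fun h2 p
  rw [h1] at h
  exact_mod_cast h

/-- **Lines on cubic surfaces.** -/
theorem exists_line {K : Type} [Field K] [IsAlgClosed K] (G : MvPolynomial (Fin 4) K)
    (hG : G.IsHomogeneous 3) : ∃ (i j : Fin 4) (u w : Fin 4 → K), u i = 1 ∧ u j = 0 ∧ w i = 0 ∧
      w j = 1 ∧ ∀ x y : K, eval (fun k => x * u k + y * w k) G = 0 := by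
  obtain ⟨z, hz⟩ := exists_fixed G
  let E := FractionRing (PowerSeries K)
  let ι : PowerSeries K →+* E := algebraMap _ _
  let φ : K →+* E := algebraMap K E
  have hφ : φ = ι.comp (PowerSeries.C (R := K)) := by
    exact IsScalarTower.algebraMap_eq K (PowerSeries K) E
  let t : E := ι PowerSeries.X
  have ht : t ≠ 0 := by
    intro h
    exact PowerSeries.X_ne_zero ((IsFractionRing.to_map_eq_zero_iff (K := E)).1 h)
  let s : E := t⁻¹
  let z' : Fin 4 → E := fun i => ι (z i)
  have hz' : ∀ j : Fin 4, s * z' j + (bin φ G z').coeff j = 0 := by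
    intro j
    have h1 : z' j = - (t * (bin φ G z').coeff j) := by
      have h2 := congrArg ι (hz j)
      rw [map_neg, map_mul, ← Polynomial.coeff_map, bin_map, ← hφ] at h2
      exact h2
    rw [h1, mul_neg, ← mul_assoc, inv_mul_cancel₀ ht, one_mul, neg_add_cancel]
  let H : MvPolynomial (Fin 4) E := map φ G + C s * map φ (F0 K)
  have hF0 : (F0 K).IsHomogeneous 3 := by
    apply IsHomogeneous.add
    · exact (isHomogeneous_X K 2).mul ((isHomogeneous_X K 0).pow 2)
    · exact (isHomogeneous_X K 3).mul ((isHomogeneous_X K 1).pow 2)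
  have hH : H.IsHomogeneous 3 := by
    apply IsHomogeneous.add
    · exact hG.map φ
    · exact (hF0.map φ).C_mul s
  let u : Fin 4 → E := ![1, 0, z' 0, z' 2]
  let w : Fin 4 → E := ![0, 1, z' 1, z' 3]
  have hline : ∀ y : E, eval (fun i => u i + y * w i) H = 0 := by
    intro y
    have h1 : (fun i => u i + y * w i) = fun i => (pt z' i).eval y := by
      funext i
      fin_cases i
      · simp [u, w, pt]
      · simp [u, w, pt]
      · simp [u, w, pt]
        ring
      · simp [u, w, pt]
        ring
    have h2 : eval (fun i => u i + y * w i) (map φ (F0 K)) =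
        z' 0 + z' 1 * y + z' 2 * y ^ 2 + z' 3 * y ^ 3 := by
      simp [F0, u, w]
      ring
    have h3 : (bin φ G z').eval y = ∑ j ∈ Finset.range 4, (bin φ G z').coeff j * y ^ j :=
      Polynomial.eval_eq_sum_range' (Nat.lt_succ_of_le (bin_natDegree φ G hG.totalDegree_le z')) y
    simp only [H, map_add, map_mul, eval_C]
    rw [h2]
    conv_lhs => rw [h1]
    rw [← eval_bin, h3]
    simp only [Finset.sum_range_succ, Finset.sum_range_zero]
    have e0 := hz' 0
    have e1 := hz' 1
    have e2 := hz' 2
    have e3 := hz' 3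
    simp only [Fin.val_zero, Fin.val_one, Fin.val_two] at e0 e1 e2
    have e3' : s * z' 3 + (bin φ G z').coeff 3 = 0 := e3
    linear_combination e0 + y * e1 + y ^ 2 * e2 + y ^ 3 * e3'
  have hinf : Infinite E := Infinite.of_injective φ φ.injective
  have hall := fun x y => vanish_all hH u w hline x y
  -- the valuation ring
  let A : Subring E := (Polynomial.aeval (R := K) s).range.toSubring
  have hsA : s ∈ A := ⟨Polynomial.X, by simp⟩
  let I : Ideal A := Ideal.span {⟨s, hsA⟩}
  have hI : I ≠ ⊤ := by
    rw [Ne, Ideal.eq_top_iff_one, Ideal.mem_span_singleton']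
    rintro ⟨⟨a, ⟨p, hp⟩⟩, ha⟩
    have h1 : a * s = 1 := congrArg Subtype.val ha
    apply transcendental_inv K
    refine ⟨p * Polynomial.X - 1, ?_, ?_⟩
    · intro h2
      have h3 := congrArg (Polynomial.eval 0) h2
      simp at h3
    · rw [map_sub, map_mul, Polynomial.aeval_X, map_one]
      have h4 : Polynomial.aeval s p = a := hp
      change Polynomial.aeval s p * s - 1 = 0
      rw [h4, h1, sub_self]
  obtain ⟨O, hO1, hO2⟩ := Ideal.image_subset_nonunits_valuationSubring I hI
  have hsO : s ∈ O.nonunits := hO2 ⟨⟨s, hsA⟩, Ideal.mem_span_singleton_self _, rfl⟩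
  have hφO : ∀ x, φ x ∈ O := fun x => hO1 ⟨Polynomial.C x, by
    change Polynomial.aeval s (Polynomial.C x) = φ x
    rw [Polynomial.aeval_C]⟩
  obtain ⟨κ, _, _, i, j, u', w', h1, h2, h3, h4, h5⟩ := residue_line φ O hφO s hsO G (F0 K) u w
    ⟨0, 1, by simp [u, w]⟩ hall
  obtain ⟨u0, w0, h6⟩ := descend_line G i j u' w' h1 h2 h3 h4 h5
  exact ⟨i, j, u0, w0, h6⟩

end Pool.Agent.Helper87.CC.Line
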