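import Pool.Agent.Helper87.CC.Fam
import Pool.Agent.Helper65.CC.Quadric
import Pool.Agent.Helper36.TQ.Main

/-!
# Families of quadrics over curves
-/

namespace Pool.Agent.Helper87.CC

open MvPolynomial

variable {S : ∀ (A : Type) [CommRing A], Prop}

theorem totalDegree_map_le {A B : Type} [CommRing A] [CommRing B] {σ : Type} (φ : A →+* B)
    (p : MvPolynomial σ A) : (map φ p).totalDegree ≤ p.totalDegree := by
  classical
  exact Finset.sup_mono (support_map_subset φ p)

/-- **Quadrics over curves.** -/
theorem quadric_family (hS : SOps S) : Pool.Agent.Helper36.TQ.Fam S := by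
  classical
  intro R W _ _ hR hdim hW m L f hL hf
  refine family hS hR hdim hW m _ fun K _ _ _ E _ _ hE => ?_
  have h1 := Pool.Agent.Helper65.CC.quadric (geometric_kops hS K) hE m
    (L.image (map (algebraMap R K))) (by
      intro l hl
      obtain ⟨l', hl', rfl⟩ := Finset.mem_image.1 hl
      exact (totalDegree_map_le _ _).trans (hL l' hl')) (map (algebraMap R K) f)
    ((totalDegree_map_le _ _).trans hf)
  rw [Finset.coe_image, ← Set.image_insert_eq] at h1
  exact h1

end Pool.Agent.Helper87.CC
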