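import Pool.Agent.Helper87.CC.Normal
import Pool.Agent.Helper36.CU.Final
import Pool.Agent.Helper87.CC.QuadFam

/-!
# Cubic polynomials in four variables over finite fields
-/

namespace Pool.Agent.Helper87.CC

open MvPolynomial TensorProduct

theorem edeg_fin_two (d : Fin 2 →₀ ℕ) : edeg d = d 0 + d 1 := by
  rw [edeg, Finsupp.sum_fintype _ _ (fun _ => rfl), Fin.sum_univ_two]

theorem quad_form {A : Type} [CommRing A] (F : MvPolynomial (Fin 2) A)
    (h : ∀ d : Fin 2 →₀ ℕ, 3 ≤ d 0 + d 1 → coeff d F = 0) :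
    F = C (coeff (Finsupp.single 0 2) F) * X 0 ^ 2 +
      C (coeff (Finsupp.single 0 1 + Finsupp.single 1 1) F) * X 0 * X 1 +
      C (coeff (Finsupp.single 1 2) F) * X 1 ^ 2 + C (coeff (Finsupp.single 0 1) F) * X 0 +
      C (coeff (Finsupp.single 1 1) F) * X 1 + C (coeff 0 F) := by
  classical
  have h1 : ∀ c : A, C c * X 0 * X 1 = monomial (Finsupp.single (0 : Fin 2) 1 +
      Finsupp.single 1 1) c := by
    intro c
    rw [X, X, C_mul_monomial, monomial_mul, mul_one, mul_one]
  rw [h1, C_mul_X_pow_eq_monomial, C_mul_X_pow_eq_monomial, C_mul_X_eq_monomial,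
    C_mul_X_eq_monomial, ← monomial_zero']
  ext d
  obtain ⟨i, j, rfl⟩ : ∃ i j : ℕ, d = Finsupp.single 0 i + Finsupp.single 1 j := by
    refine ⟨d 0, d 1, ?_⟩
    ext a
    fin_cases a <;> simp
  have hz : ∀ i j : ℕ, 3 ≤ i + j → coeff (Finsupp.single 0 i + Finsupp.single 1 j) F = 0 := by
    intro i j hij
    apply h
    simpa using hij
  simp only [coeff_add, coeff_monomial, Finsupp.ext_iff, Fin.forall_fin_two, Finsupp.add_apply,
    Finsupp.single_apply, Finsupp.coe_zero, Pi.zero_apply]
  rcases i with _ | _ | _ | i <;> rcases j with _ | _ | _ | j <;>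
    first
    | (rw [hz _ _ (by omega)]; simp; try omega)
    | simp

variable {S : ∀ (A : Type) [CommRing A], Prop}

/-- cubic polynomials in four variables, when the line is defined over the base field -/
theorem cubic_four_line (hS : SOps S) (hfam : Pool.Agent.Helper36.TQ.Fam S)
    {k L : Type} [Field k] [Finite k] [Field L] [Infinite L] [Algebra k L]
    (hcs : ∀ g : MvPolynomial (Fin 3) k, g.totalDegree ≤ 3 → ∀ (W : Type) [CommRing W], S W →
      S (Ten W (MvPolynomial (Fin 3) k ⧸ Ideal.span {g})))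
    (i j : Fin 4) (u w : Fin 4 → k) (h1 : u i = 1) (h2 : u j = 0) (h3 : w i = 0) (h4 : w j = 1)
    (f : MvPolynomial (Fin 4) k) (hf : f.totalDegree ≤ 3)
    (h : ∀ x y : L, eval (fun a => x * algebraMap k L (u a) + y * algebraMap k L (w a))
      (map (algebraMap k L) (homogeneousComponent 3 f)) = 0) (W : Type) [CommRing W] (hW : S W) :
    S (Ten W (MvPolynomial (Fin 4) k ⧸ Ideal.span {f})) := by
  have hij : i ≠ j := by
    rintro rfl
    rw [h1] at h2
    exact one_ne_zero h2
  obtain ⟨e, hi, hj⟩ := exists_perm i j hij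
  obtain ⟨Ψ, hΨ⟩ := exists_change e u w i j hi hj h1 h2 h3 h4
  have hBD := BD.aeval (newc e u w) (newc_bd e u w) f hf
  have h5 : ∀ d : Fin 2 →₀ ℕ, 3 ≤ d 0 + d 1 → coeff d (aeval (newc e u w) f) = 0 := by
    intro d hd
    rw [← edeg_fin_two] at hd
    by_contra hne
    have h6 := hBD d hne
    exact hne (coeff_cubic e u w f hf h d (by omega))
  have h6 := quad_form _ h5
  have hdeg : ∀ (d : Fin 2 →₀ ℕ) (n : ℕ), 3 ≤ n + (d 0 + d 1) →
      (coeff d (aeval (newc e u w) f)).totalDegree ≤ n := by
    intro d n hn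
    by_cases hne : coeff d (aeval (newc e u w) f) = 0
    · rw [hne, totalDegree_zero]
      exact Nat.zero_le n
    · have h7 := hBD d hne
      rw [edeg_fin_two] at h7
      omega
  have h7 := Pool.Agent.Helper36.CU.conic_plane_mult hS hfam hcs
    (coeff (Finsupp.single 0 2) (aeval (newc e u w) f))
    (coeff (Finsupp.single 0 1 + Finsupp.single 1 1) (aeval (newc e u w) f))
    (coeff (Finsupp.single 1 2) (aeval (newc e u w) f))
    (coeff (Finsupp.single 0 1) (aeval (newc e u w) f))
    (coeff (Finsupp.single 1 1) (aeval (newc e u w) f))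
    (coeff 0 (aeval (newc e u w) f))
    (hdeg _ _ (by simp)) (hdeg _ _ (by simp)) (hdeg _ _ (by simp)) (hdeg _ _ (by simp))
    (hdeg _ _ (by simp)) (hdeg _ _ (by simp)) W hW
  rw [← h6] at h7
  have e1 : (MvPolynomial (Fin 4) k ⧸ Ideal.span {f}) ≃+*
      (MvPolynomial (Fin 2) (MvPolynomial (Fin 2) k) ⧸ Ideal.span {aeval (newc e u w) f}) :=
    Ideal.quotientEquiv _ _ Ψ.toRingEquiv (by
      rw [Ideal.map_span, Set.image_singleton]
      congr 2
      exact (hΨ f).symm)
  obtain ⟨e2⟩ := ten_congr (T := W) (T' := W)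
    (A := MvPolynomial (Fin 2) (MvPolynomial (Fin 2) k) ⧸ Ideal.span {aeval (newc e u w) f})
    (A' := MvPolynomial (Fin 4) k ⧸ Ideal.span {f}) (RingEquiv.refl W) e1.symm
  exact hS.iso _ _ e2 h7

/-- **Cubic polynomials in four variables over finite fields.** -/
theorem cubic_four (hS : SOps S) (hfam : Pool.Agent.Helper36.TQ.Fam S)
    (hcs : ∀ (k : Type) [Field k] [Finite k] (g : MvPolynomial (Fin 3) k), g.totalDegree ≤ 3 →
      ∀ (W : Type) [CommRing W], S W → S (Ten W (MvPolynomial (Fin 3) k ⧸ Ideal.span {g})))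
    {k : Type} [Field k] [Finite k] (f : MvPolynomial (Fin 4) k) (hf : f.totalDegree ≤ 3)
    (W : Type) [CommRing W] (hW : S W) :
    S (Ten W (MvPolynomial (Fin 4) k ⧸ Ideal.span {f})) := by
  let L := AlgebraicClosure k
  obtain ⟨i, j, u, w, h1, h2, h3, h4, h5⟩ := Line.exists_line
    (map (algebraMap k L) (homogeneousComponent 3 f))
    ((homogeneousComponent_isHomogeneous 3 f).map _)
  let T : Set L := Set.range u ∪ Set.range w
  have hT : T.Finite := (Set.finite_range u).union (Set.finite_range w)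
  let k' := IntermediateField.adjoin k T
  have hfin : FiniteDimensional k k' := by
    have := hT.to_subtype
    exact IntermediateField.finiteDimensional_adjoin fun x _ => Algebra.IsIntegral.isIntegral x
  have hfk : Finite k' := Module.finite_of_finite k
  let u' : Fin 4 → k' := fun a => ⟨u a, IntermediateField.subset_adjoin k T (Or.inl ⟨a, rfl⟩)⟩
  let w' : Fin 4 → k' := fun a => ⟨w a, IntermediateField.subset_adjoin k T (Or.inr ⟨a, rfl⟩)⟩
  refine Pool.Agent.Helper36.TQ.descend (k' := k') hS (hS.ft W hW) {f} ?_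
  rw [Set.image_singleton]
  refine cubic_four_line (L := L) hS hfam (hcs k') i j u' w' (Subtype.ext h1) (Subtype.ext h2)
    (Subtype.ext h3) (Subtype.ext h4) _ ((totalDegree_map_le _ _).trans hf) ?_ W hW
  intro x y
  have h6 : map (algebraMap k' L) (homogeneousComponent 3 (map (algebraMap k k') f)) =
      map (algebraMap k L) (homogeneousComponent 3 f) := by
    ext d
    rw [coeff_map, coeff_map, coeff_homogeneousComponent, coeff_homogeneousComponent, coeff_map]
    split_ifs
    · exact (IsScalarTower.algebraMap_apply k k' L _).symm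
    · rw [map_zero, map_zero]
  rw [h6]
  exact h5 x y

end Pool.Agent.Helper87.CC
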