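import Pool.Agent.Helper87.CC.Mult
import Pool.Agent.Helper87.CC.Cubic4
import Pool.Agent.Helper36.CU.Surface

/-!
# Cubic polynomials in at most four variables over finite fields
-/

namespace Pool.Agent.Helper87.CC

open TensorProduct MvPolynomial

variable {S : ∀ (A : Type) [CommRing A], Prop}

/-- **Cubic polynomials in at most four variables over finite fields.** -/
theorem cubics (hS : SOps S) {k : Type} [Field k] [Finite k] {m : ℕ}
    (f : MvPolynomial (Fin m) k) (hm : m ≤ 4) (hf : f.totalDegree ≤ 3) :
    MultS S (MvPolynomial (Fin m) k ⧸ Ideal.span {f}) := by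
  have hfam := quadric_family hS
  have hk : Algebra.FiniteType ℤ k := by
    have : Module.Finite ℤ k := Module.Finite.of_finite
    infer_instance
  have hkdim : ringKrullDim k ≤ 1 := by
    rw [ringKrullDim_eq_zero_of_field]
    exact zero_le_one
  have hft : Algebra.FiniteType ℤ (MvPolynomial (Fin m) k ⧸ Ideal.span {f}) :=
    ft_alg hk inferInstance
  rcases (by omega : m ≤ 2 ∨ m = 3 ∨ m = 4) with h | h | h
  · by_cases h0 : f = 0
    · subst h0
      have h1 := Helper20.BL.MultS.mvPoly hS (Helper20.BL.MultS.of_dim hS hk hkdim) (Fin m)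
      obtain ⟨e⟩ := Helper20.BL.quot_bot (Ideal.span {(0 : MvPolynomial (Fin m) k)})
        (by rw [Ideal.span_singleton_eq_bot])
      exact h1.iso hS e
    · refine Helper20.BL.MultS.of_dim hS hft ?_
      have h1 := ringKrullDim_quotient_succ_le_of_nonZeroDivisor (mem_nonZeroDivisors_of_ne_zero h0)
      rw [MvPolynomial.ringKrullDim_of_isNoetherianRing, ringKrullDim_eq_zero_of_field,
        zero_add, Nat.card_eq_fintype_card, Fintype.card_fin] at h1
      exact dim_le_one (h1.trans (by exact_mod_cast h))
  · subst h
    exact ⟨hft, fun W _ hW => Helper36.CU.cubic_surface hS hfam hW f hf⟩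
  · subst h
    exact ⟨hft, fun W _ hW => cubic_four hS hfam
      (fun k _ _ g hg W _ hW => Helper36.CU.cubic_surface hS hfam hW g hg) f hf W hW⟩

end Pool.Agent.Helper87.CC
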