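import Pool.Agent.Helper87.CC.TameDefs
import Pool.Agent.Helper20.BL.Geo
import Pool.Agent.Helper87.CC.Cubics

/-!
# Tame rings are multipliers
-/

namespace Pool.Agent.Helper87.CC

open TensorProduct MvPolynomial

variable {S : ∀ (A : Type) [CommRing A], Prop}

theorem cutPaste_mult (hS : SOps S) : CutPasteClosed (fun B _ => MultS S B) where
  curves _ _ h := MultS.curve hS h
  iso _ _ _ _ e h := h.iso hS e
  tensor A B _ _ hA hB := hA.ten hS hB
  glue := (mult_ops hS).glue
  closed := (mult_ops hS).closed
  opn := (mult_ops hS).opn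
  summand := (mult_ops hS).summand
  poly := (mult_ops hS).poly

/-- the geometric class is monotone -/
theorem Geometric.mono {M M' : ∀ (W : Type) [CommRing W], Prop} {K : Type} [Field K]
    (h : ∀ (W : Type) [CommRing W], M W → M' W) {R : Type} [CommRing R] [Algebra K R]
    (hR : Geometric M K R) : Geometric M' K R := by
  induction hR with
  | const W hW => exact .const W (h W hW)
  | iso R S e _ ih => exact .iso R S e ih
  | poly R _ ih => exact .poly R ih
  | glue R f hft _ _ ih1 ih2 => exact .glue R f hft ih1 ih2
  | closed R f _ _ ih1 ih2 => exact .closed R f ih1 ih2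
  | opn R f _ _ ih1 ih2 => exact .opn R f ih1 ih2
  | summand R f hf _ ih => exact .summand R f hf ih
  | transfer R g hft hg hd _ ih => exact .transfer R g hft hg hd ih

/-- The tame rings form a class with the closure properties in its definition: it is the smallest
one. -/
theorem tameClosed_tame : TameClosed (fun B _ => Tame B) where
  cutPaste :=
    { curves := fun T _ h M hM => hM.cutPaste.curves T h
      iso := fun A B _ _ e h M hM => hM.cutPaste.iso A B e (h M hM)
      tensor := fun A B _ _ hA hB M hM => hM.cutPaste.tensor A B (hA M hM) (hB M hM)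
      glue := fun A _ f hA h1 h2 M hM => hM.cutPaste.glue A f hA (h1 M hM) (h2 M hM)
      closed := fun A _ f h1 h2 M hM => hM.cutPaste.closed A f (h1 M hM) (h2 M hM)
      opn := fun A _ f h1 h2 M hM => hM.cutPaste.opn A f (h1 M hM) (h2 M hM)
      summand := fun A _ f hf h M hM => hM.cutPaste.summand A f hf (h M hM)
      poly := fun A _ h M hM => hM.cutPaste.poly A (h M hM) }
  transfer := fun A B _ _ _ _ _ _ hA h M hM => hM.transfer A B hA (h M hM)
  fibration := fun R A _ _ _ hR hA h1 h2 M hM => hM.fibration R A hR hA
    (fun p _ hp => (h1 p hp).mono fun _ _ h => h M hM)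
    (fun p _ hp => ⟨fun a ha => (h2 p hp).1 a ha M hM, (h2 p hp).2.mono fun _ _ h => h M hM⟩)
  lowDegree := fun R _ hR h m L Q hL hQ hdim M hM =>
    hM.lowDegree R hR (fun p _ hp => h p hp M hM) m L Q hL hQ hdim
  bilinear := fun R _ hR h m n F hF hcard hdim M hM =>
    hM.bilinear R hR (fun p _ hp => h p hp M hM) m n F hF hcard hdim
  simplex := fun p _ J _ m α hα T _ c hc M hM => hM.simplex p J m α hα T c hc
  cubic := fun k _ _ m f hm hf M hM => hM.cubic k m f hm hf

/-- **The class of multipliers has all closure properties of the tame rings.** -/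
theorem tameClosed_mult (hS : SOps S) : TameClosed (fun B _ => MultS S B) where
  cutPaste := cutPaste_mult hS
  transfer := (mult_ops hS).transfer
  fibration _ _ _ _ _ hR hA h1 h2 := Helper20.BL.fibres_mult hS hR hA h1 h2
  lowDegree R _ hR hM m L Q hL hQ hdim :=
    ⟨ft_alg hR inferInstance, fun W _ hW => low_degree hS hR hM m L Q hL hQ hdim hW⟩
  bilinear R _ hR hM m n F hF hcard hdim := by
    refine Helper20.BL.bilinear hS hR (fun p _ => ?_) m n F hF hcard hdim
    by_cases h : 1 < ringKrullDim (R ⧸ p)
    · exact hM p h
    · exact MultS.curve hS (CurveProd.of_dim (ft_of_surj hR (Ideal.Quotient.mk p)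
        Ideal.Quotient.mk_surjective) (not_lt.1 h))
  simplex p _ J _ m α hα T _ c hc :=
    ⟨ft_alg (product_functions hS p hα hS.int hc).1 inferInstance,
      fun W _ hW => simplex_family hS p hα hW hc⟩
  cubic k _ _ m f hm hf := cubics hS f hm hf

end Pool.Agent.Helper87.CC
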