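import Mathlib

/-!
# Polynomials with polynomial coefficients and their total degree in all variables
-/

namespace Pool.Agent.Helper87.CC

open MvPolynomial

variable {k σ τ ρ : Type} [Field k]

/-- the degree of an exponent -/
def edeg (d : σ →₀ ℕ) : ℕ := d.sum fun _ e => e

theorem edeg_add (d e : σ →₀ ℕ) : edeg (d + e) = edeg d + edeg e := by
  classical
  exact Finsupp.sum_add_index' (fun _ => rfl) (fun _ _ _ => rfl)

theorem edeg_zero : edeg (0 : σ →₀ ℕ) = 0 := Finsupp.sum_zero_index

theorem edeg_single (i : σ) (n : ℕ) : edeg (Finsupp.single i n) = n :=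
  Finsupp.sum_single_index rfl

/-- the total degree in both groups of variables is at most `n` -/
def BD (n : ℕ) (F : MvPolynomial σ (MvPolynomial τ k)) : Prop :=
  ∀ d, coeff d F ≠ 0 → (coeff d F).totalDegree + edeg d ≤ n

theorem BD.mono {m n : ℕ} {F : MvPolynomial σ (MvPolynomial τ k)} (h : BD m F) (hmn : m ≤ n) :
    BD n F := fun d hd => (h d hd).trans hmn

theorem BD.add {n : ℕ} {F G : MvPolynomial σ (MvPolynomial τ k)} (hF : BD n F) (hG : BD n G) :
    BD n (F + G) := by
  intro d hd
  rw [coeff_add] at hd ⊢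
  by_cases h1 : coeff d F = 0
  · rw [h1, zero_add] at hd ⊢
    exact hG d hd
  by_cases h2 : coeff d G = 0
  · rw [h2, add_zero] at hd ⊢
    exact hF d hd
  have h3 := hF d h1
  have h4 := hG d h2
  have h5 := totalDegree_add (coeff d F) (coeff d G)
  omega

theorem BD.zero (n : ℕ) : BD n (0 : MvPolynomial σ (MvPolynomial τ k)) := by
  intro d hd
  exact absurd (coeff_zero d) hd

theorem BD.sum {n : ℕ} {ι : Type} (s : Finset ι) (F : ι → MvPolynomial σ (MvPolynomial τ k))
    (h : ∀ i ∈ s, BD n (F i)) : BD n (∑ i ∈ s, F i) := by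
  classical
  induction s using Finset.induction_on with
  | empty => exact BD.zero n
  | insert a s ha ih =>
    rw [Finset.sum_insert ha]
    exact (h a (Finset.mem_insert_self a s)).add (ih fun i hi => h i (Finset.mem_insert_of_mem hi))

theorem BD.mul {m n : ℕ} {F G : MvPolynomial σ (MvPolynomial τ k)} (hF : BD m F) (hG : BD n G) :
    BD (m + n) (F * G) := by
  classical
  intro d hd
  rw [coeff_mul] at hd ⊢
  have h1 : ∀ x ∈ Finset.HasAntidiagonal.antidiagonal d, (coeff x.1 F * coeff x.2 G).totalDegree + edeg d ≤ m + n ∨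
      coeff x.1 F * coeff x.2 G = 0 := by
    rintro ⟨a, b⟩ hab
    rw [Finset.HasAntidiagonal.mem_antidiagonal] at hab
    subst hab
    by_cases ha : coeff a F = 0
    · right; rw [ha, zero_mul]
    by_cases hb : coeff b G = 0
    · right; rw [hb, mul_zero]
    left
    have h2 := hF a ha
    have h3 := hG b hb
    have h4 := totalDegree_mul (coeff a F) (coeff b G)
    have h5 : edeg ((a, b).1 + (a, b).2) = edeg a + edeg b := edeg_add a b
    rw [h5]
    change (coeff a F * coeff b G).totalDegree + _ ≤ _
    omega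
  obtain ⟨x, hx, hx0⟩ := Finset.exists_ne_zero_of_sum_ne_zero hd
  have h2 : edeg d ≤ m + n := by
    rcases h1 x hx with h | h
    · omega
    · exact absurd h hx0
  have h3 : (∑ x ∈ Finset.HasAntidiagonal.antidiagonal d, coeff x.1 F * coeff x.2 G).totalDegree ≤
      m + n - edeg d := by
    apply totalDegree_finsetSum_le
    intro y hy
    rcases h1 y hy with h | h
    · omega
    · rw [h, totalDegree_zero]
      exact Nat.zero_le _
  omega

theorem BD.C {n : ℕ} {p : MvPolynomial τ k} (hp : p.totalDegree ≤ n) :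
    BD n (MvPolynomial.C p : MvPolynomial σ (MvPolynomial τ k)) := by
  classical
  intro d hd
  rw [coeff_C] at hd ⊢
  split_ifs at hd ⊢ with h
  · subst h
    rw [edeg_zero, add_zero]
    exact hp
  · exact absurd rfl hd

theorem BD.X (i : σ) : BD 1 (MvPolynomial.X i : MvPolynomial σ (MvPolynomial τ k)) := by
  classical
  intro d hd
  rw [coeff_X'] at hd ⊢
  split_ifs at hd ⊢ with h
  · subst h
    rw [edeg_single, totalDegree_one]
  · exact absurd rfl hd

theorem BD.pow {n : ℕ} {F : MvPolynomial σ (MvPolynomial τ k)} (hF : BD n F) (m : ℕ) :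
    BD (m * n) (F ^ m) := by
  induction m with
  | zero =>
    rw [pow_zero, ← MvPolynomial.C_1]
    exact BD.C (by rw [totalDegree_one]; exact Nat.zero_le _)
  | succ m ih =>
    rw [pow_succ, Nat.succ_mul]
    exact ih.mul hF

theorem BD.prod {ι : Type} (s : Finset ι) (F : ι → MvPolynomial σ (MvPolynomial τ k)) (n : ι → ℕ)
    (h : ∀ i ∈ s, BD (n i) (F i)) : BD (∑ i ∈ s, n i) (∏ i ∈ s, F i) := by
  classical
  induction s using Finset.induction_on with
  | empty =>
    rw [Finset.prod_empty, Finset.sum_empty, ← MvPolynomial.C_1]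
    exact BD.C (by rw [totalDegree_one])
  | insert a s ha ih =>
    rw [Finset.prod_insert ha, Finset.sum_insert ha]
    exact (h a (Finset.mem_insert_self a s)).mul (ih fun i hi => h i (Finset.mem_insert_of_mem hi))

/-- substitution of polynomials of total degree one -/
theorem BD.aeval {n : ℕ} (s : ρ → MvPolynomial σ (MvPolynomial τ k)) (hs : ∀ i, BD 1 (s i))
    (f : MvPolynomial ρ k) (hf : f.totalDegree ≤ n) : BD n (MvPolynomial.aeval s f) := by
  classical
  rw [aeval_def, eval₂_eq]
  apply BD.sum
  intro d hd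
  have h1 : BD 0 (algebraMap k (MvPolynomial σ (MvPolynomial τ k)) (coeff d f)) := by
    have h2 : algebraMap k (MvPolynomial σ (MvPolynomial τ k)) (coeff d f) =
        MvPolynomial.C (MvPolynomial.C (coeff d f)) := rfl
    rw [h2]
    exact BD.C (by rw [totalDegree_C])
  have h2 := BD.prod d.support (fun i => s i ^ d i) (fun i => d i * 1)
    (fun i _ => (hs i).pow (d i))
  refine (h1.mul h2).mono ?_
  rw [zero_add]
  simp only [mul_one]
  exact (le_totalDegree hd).trans hf

end Pool.Agent.Helper87.CC
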