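import Pool.Agent.Helper87.CC.Scale
import Pool.Agent.Helper9.FT.Main

/-!
# Polynomials with affinely independent exponents over finite prime fields
-/

namespace Pool.Agent.Helper87.CC

open TensorProduct MvPolynomial
open Pool.Agent.Helper65.Mor (CurveProduct)
open Pool.Agent.Helper62.TS
open Pool.Agent.Helper62.RO
open Pool.Agent.Helper9.FT (RCl mm_kclass ug_mem)

variable {S : ∀ (A : Type) [CommRing A], Prop}

/-- algebras over prime fields -/
theorem isTen_zmod (p : ℕ) (C V : Type) [CommRing C] [CommRing V] [Algebra (ZMod p) C]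
    [Algebra (ZMod p) V] : IsTen (algebraMap C (C ⊗[ZMod p] V))
      ((Algebra.TensorProduct.includeRight : V →ₐ[ZMod p] C ⊗[ZMod p] V) :
        V →+* C ⊗[ZMod p] V) where
  ex E _ f g := by
    obtain ⟨h, h1, h2⟩ := (isPush_tensor (R := ZMod p) (A := V) (K := C)).ex E g f
      (Subsingleton.elim _ _)
    exact ⟨h, h2, h1⟩
  uniq E _ h h' h1 h2 := (isPush_tensor (R := ZMod p) (A := V) (K := C)).uniq E h h' h2 h1

theorem ten_zmod (p : ℕ) (C V : Type) [CommRing C] [CommRing V] [Algebra (ZMod p) C]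
    [Algebra (ZMod p) V] : Nonempty (Ten C V ≃+* (C ⊗[ZMod p] V)) := by
  obtain ⟨e, -⟩ := (isTen C V).equiv (isTen_zmod p C V)
  exact ⟨e⟩

theorem curveProd_zmod (p : ℕ) [Fact p.Prime] : CurveProd (ZMod p) := by
  refine CurveProd.of_dim ?_ ?_
  · exact Algebra.FiniteType.of_surjective (Algebra.ofId ℤ (ZMod p)) (ZMod.intCast_surjective)
  · rw [ringKrullDim_eq_zero_of_field]
    exact zero_le_one

theorem ft_zmod (p : ℕ) {A : Type} [CommRing A] [Algebra (ZMod p) A] [Fact p.Prime]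
    (h : Algebra.FiniteType (ZMod p) A) : Algebra.FiniteType ℤ A :=
  ft_alg (curveProd_zmod p).ft h

theorem curveProd_of (p : ℕ) [Fact p.Prime] {C : Type} [CommRing C] [Algebra (ZMod p) C]
    (h : CurveProduct (ZMod p) C) : CurveProd C := by
  induction h with
  | base => exact curveProd_zmod p
  | tensor R A _ hA hA1 ih =>
    obtain ⟨e⟩ := ten_zmod p R A
    exact .iso _ _ (ih.ten (CurveProd.of_dim (ft_zmod p hA) hA1)) e
  | iso R T _ e ih => exact .iso _ _ ih e.toRingEquiv

/-- products of curves -/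
theorem SOps.curveProd (hS : SOps S) {T : Type} [CommRing T] (hT : CurveProd T) : S T := by
  obtain ⟨e, -⟩ := (isTen T ℤ).equiv (IsTen.int T)
  exact hS.iso _ _ e (hS.curve T ℤ hT hS.int)

theorem s_rcl (hS : SOps S) (p : ℕ) [Fact p.Prime] :
    RCl (ZMod p) (fun d => d ≠ 0) (fun A _ => S A) where
  adm_ne d h := h
  adm_one := one_ne_zero
  adm_mul d e hd he := mul_ne_zero hd he
  iso := hS.iso
  glue A _ _ a hA h1 h2 := hS.glue A a (ft_zmod p hA) h1 h2
  kummer A _ _ a d hA _ hd h := by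
    rcases subsingleton_or_nontrivial A with h0 | h0
    · exact hS.zero A h0
    have h1 : S (Kum A a d) := hS.iso _ _
      (Algebra.TensorProduct.lid (ZMod p) (Kum A a d)).toRingEquiv (h (ZMod p) .base)
    refine transfer_adjoinRoot hS (ft_zmod p hA) (Polynomial.monic_X_pow_sub_C a hd) ?_ h1
    rw [Polynomial.natDegree_X_pow_sub_C]
    exact Nat.pos_of_ne_zero hd
  curves A _ _ h := hS.curveProd (curveProd_of p h)

/-- multipliers of the class -/
theorem mem_of_mm (hS : SOps S) (p : ℕ) [Fact p.Prime] {V : Type} [CommRing V]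
    [Algebra (ZMod p) V] (h : MM (ZMod p) (fun A _ => S A) V) {W : Type} [CommRing W]
    (hW : S W) : S (Ten W V) := by
  let _ : Algebra (ZMod p) (Ten (ZMod p) W) := (tinl (ZMod p) W).toAlgebra
  have h1 : NN (ZMod p) (fun A _ => S A) (Ten (ZMod p) W) := by
    refine ⟨?_, ?_⟩
    · have h2 : Algebra.FiniteType ℤ (Ten (ZMod p) W) := ft_ten (curveProd_zmod p).ft (hS.ft W hW)
      exact Algebra.FiniteType.of_restrictScalars_finiteType ℤ (ZMod p) _
    · intro C _ _ hC
      obtain ⟨e1⟩ := ten_zmod p C (Ten (ZMod p) W)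
      obtain ⟨e2⟩ := ten_assoc C (ZMod p) W
      exact hS.iso _ _ (e2.trans e1) (hS.curve (Ten C (ZMod p)) W
        ((curveProd_of p hC).ten (curveProd_zmod p)) hW)
  have h2 := (h.2 (Ten (ZMod p) W) h1).2 (ZMod p) .base
  have h3 := hS.iso _ _ (Algebra.TensorProduct.lid (ZMod p)
    (Ten (ZMod p) W ⊗[ZMod p] V)).toRingEquiv h2
  obtain ⟨e1⟩ := ten_zmod p (Ten (ZMod p) W) V
  obtain ⟨e2⟩ := ten_comm W (ZMod p)
  obtain ⟨e3⟩ := ten_congr e2 (RingEquiv.refl V)
  obtain ⟨e4⟩ := ten_assoc W (ZMod p) V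
  obtain ⟨e5⟩ := ten_zmod p (ZMod p) V
  obtain ⟨e6⟩ := ten_congr (RingEquiv.refl W)
    (e5.trans (Algebra.TensorProduct.lid (ZMod p) V).toRingEquiv)
  exact hS.iso _ _ ((e1.symm.trans e3.symm).trans (e4.trans e6)) h3

/-- polynomials with affinely independent exponents and coefficients one -/
theorem simplex_mem (hS : SOps S) (p : ℕ) [Fact p.Prime] {J : Type} [Fintype J] {m : ℕ}
    (α : J → Fin m →₀ ℕ) (hα : AffineIndependent ℚ fun (j : J) (i : Fin m) => ((α j i : ℕ) : ℚ))
    (s : Finset J) {W : Type} [CommRing W] (hW : S W) :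
    S (Ten W (Pq {(∑ j ∈ s, monomial (α j) 1 : MvPolynomial (Fin m) (ZMod p))})) := by
  classical
  refine mem_of_mm hS p ?_ hW
  refine ug_mem (mm_kclass (s_rcl hS p)) (ug_simplex (mm_kclass (s_rcl hS p)) ℚ
    (fun d => by simp) _ (affIndep_of ?_))
  set f : MvPolynomial (Fin m) (ZMod p) := ∑ j ∈ s, monomial (α j) 1 with hf
  have h1 : ∀ d : f.support, ∃ j : J, α j = d.1 := by
    intro d
    have h2 : d.1 ∈ (∑ j ∈ s, monomial (α j) 1 : MvPolynomial (Fin m) (ZMod p)).support := d.2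
    have h3 := support_sum h2
    rw [Finset.mem_biUnion] at h3
    obtain ⟨j, -, hj⟩ := h3
    have h4 := support_monomial_subset hj
    exact ⟨j, (Finset.mem_singleton.1 h4).symm⟩
  choose g hg using h1
  have hinj : Function.Injective g := by
    intro d d' h
    apply Subtype.ext
    rw [← hg d, ← hg d', h]
  have h2 := hα.comp_embedding ⟨g, hinj⟩
  have h3 : (fun (a : f.support) (i : Fin m) => ((a.1 i : ℕ) : ℚ)) =
      (fun (j : J) (i : Fin m) => ((α j i : ℕ) : ℚ)) ∘ (⟨g, hinj⟩ : f.support ↪ J) := by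
    funext d i
    simp only [Function.comp_apply, Function.Embedding.coeFn_mk]
    rw [hg d]
  rw [h3]
  exact h2

end Pool.Agent.Helper87.CC
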