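import Pool.Agent.Helper65.Mor.SchemeDefs

/-!
# Classes of arithmetic schemes closed under cut and paste and transfer, and geometric classes of
algebras
-/

namespace Pool.Agent.Helper87.CC

open AlgebraicGeometry CategoryTheory TensorProduct
open Pool.Agent.Helper65.Mor (Arithmetic ClosedOpen)

/-- `CurveProd T`: the ring `T` is a finite tensor product over `ℤ` of finitely generated rings of
Krull dimension at most `1` (for example orders in number fields, and products of affine curves
over a finite field). -/
inductive CurveProd : ∀ (T : Type) [CommRing T], Prop
  | base : CurveProd ℤ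
  | tensor (T B : Type) [CommRing T] [CommRing B] :
      CurveProd T → Algebra.FiniteType ℤ B → ringKrullDim B ≤ 1 → CurveProd (T ⊗[ℤ] B)
  | iso (S T : Type) [CommRing S] [CommRing T] : CurveProd S → (S ≃+* T) → CurveProd T

/-- Classes of arithmetic schemes with the formal properties of the class of those `X` for which
all groups `H^i(X_et, ℤ^c(n))` with `n < 0` are finitely generated. -/
structure ArithClosed (P : Scheme.{0} → Prop) : Prop where
  /-- spectra of finite tensor products of finitely generated rings of dimension at most one -/
  curves : ∀ (T : Type) [CommRing T], CurveProd T → P (Spec (CommRingCat.of T))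
  /-- invariance under isomorphism -/
  iso : ∀ X Y : Scheme.{0}, Arithmetic X → Nonempty (X ≅ Y) → P X → P Y
  /-- two-out-of-three for a closed subscheme `Z` of `X` and its open complement `U` -/
  closed : ∀ (Z X U : Scheme.{0}) (i : Z ⟶ X) (j : U ⟶ X), Arithmetic X → ClosedOpen i j →
    P X → P U → P Z
  /-- two-out-of-three for a closed subscheme `Z` of `X` and its open complement `U` -/
  opn : ∀ (Z X U : Scheme.{0}) (i : Z ⟶ X) (j : U ⟶ X), Arithmetic X → ClosedOpen i j →
    P X → P Z → P U
  /-- two-out-of-three for a closed subscheme `Z` of `X` and its open complement `U` -/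
  glue : ∀ (Z X U : Scheme.{0}) (i : Z ⟶ X) (j : U ⟶ X), Arithmetic X → ClosedOpen i j →
    P Z → P U → P X
  /-- summands of disjoint unions -/
  summand : ∀ (Z X : Scheme.{0}) (i : Z ⟶ X), Arithmetic X → IsClosedImmersion i →
    IsOpenImmersion i → P X → P Z
  /-- the affine line over affine members -/
  line : ∀ (A : Type) [CommRing A], Arithmetic (Spec (CommRingCat.of A)) →
    P (Spec (CommRingCat.of A)) → P (Spec (CommRingCat.of (Polynomial A)))
  /-- transfer for finite free algebras of positive rank -/
  transfer : ∀ (A B : Type) [CommRing A] [CommRing B] [Nontrivial B] [Algebra A B]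
    [Module.Free A B] [Module.Finite A B], Arithmetic (Spec (CommRingCat.of A)) →
    P (Spec (CommRingCat.of B)) → P (Spec (CommRingCat.of A))

/-- `Stable P A`: the ring `A` is finitely generated and the product of `Spec A` with the spectrum
of every `T` with `CurveProd T` belongs to `P`. -/
def Stable (P : Scheme.{0} → Prop) (A : Type) [CommRing A] : Prop :=
  Algebra.FiniteType ℤ A ∧ ∀ (T : Type) [CommRing T], CurveProd T →
    P (Spec (CommRingCat.of (T ⊗[ℤ] A)))

/-- **The geometric class** over a field `K` given by the class `M` of rings: the smallest class of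
`K`-algebras which contains the algebras `K ⊗ W` with `M W` and is closed under isomorphisms,
polynomial rings, two-out-of-three for `R/f`, `R` and `R_f`, direct factors `R/f` with `f ^ 2 = f`,
and descent from `R[x]/(g)` to `R` for monic nonconstant polynomials `g`. -/
inductive Geometric (M : ∀ (W : Type) [CommRing W], Prop) (K : Type) [Field K] :
    ∀ (R : Type) [CommRing R] [Algebra K R], Prop
  | const (W : Type) [CommRing W] : M W → Geometric M K (K ⊗[ℤ] W)
  | iso (R S : Type) [CommRing R] [Algebra K R] [CommRing S] [Algebra K S] :
      (R ≃ₐ[K] S) → Geometric M K R → Geometric M K S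
  | poly (R : Type) [CommRing R] [Algebra K R] : Geometric M K R → Geometric M K (Polynomial R)
  | glue (R : Type) [CommRing R] [Algebra K R] (f : R) : Algebra.FiniteType K R →
      Geometric M K (R ⧸ Ideal.span {f}) → Geometric M K (Localization.Away f) → Geometric M K R
  | closed (R : Type) [CommRing R] [Algebra K R] (f : R) :
      Geometric M K R → Geometric M K (Localization.Away f) → Geometric M K (R ⧸ Ideal.span {f})
  | opn (R : Type) [CommRing R] [Algebra K R] (f : R) :
      Geometric M K R → Geometric M K (R ⧸ Ideal.span {f}) → Geometric M K (Localization.Away f)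
  | summand (R : Type) [CommRing R] [Algebra K R] (f : R) : f * f = f →
      Geometric M K R → Geometric M K (R ⧸ Ideal.span {f})
  | transfer (R : Type) [CommRing R] [Algebra K R] (g : Polynomial R) : Algebra.FiniteType K R →
      g.Monic → 0 < g.natDegree → Geometric M K (AdjoinRoot g) → Geometric M K R

end Pool.Agent.Helper87.CC
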