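import Pool.Agent.Helper87.CC.Spr
import Pool.Agent.Helper87.CC.Good
import Pool.Agent.Helper87.CC.LC
import Pool.Agent.Helper45.LG.GalSpread
import Pool.Agent.Helper45.LG.Good
import Pool.Agent.Helper62.TS.Dim

/-!
# From geometric fibres to the total space
-/

namespace Pool.Agent.Helper87.CC

open TensorProduct MvPolynomial Filter
open Pool.Agent.Helper45.LG (RingClosed Rep Std rep_std Spread FT Mv Lifts exists_lifts
  exists_lift lifts_unique finiteType_std exists_rep_int)
open Pool.Agent.Helper62.TS (dim_away_le dim_integral_le)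

variable {S : ∀ (A : Type) [CommRing A], Prop}

/-- presentations over Noetherian rings -/
theorem exists_rep_noeth {C R : Type} [CommRing C] [IsNoetherianRing C] [CommRing R] [Algebra C R]
    (h : Algebra.FiniteType C R) :
    ∃ (n m : ℕ) (x : Fin n → R) (f : Fin m → MvPolynomial (Fin n) C), Rep x f := by
  obtain ⟨n, φ, hφ⟩ := Algebra.FiniteType.iff_quotient_mvPolynomial''.1 h
  obtain ⟨S, hS⟩ := (isNoetherianRing_iff_ideal_fg _).1 inferInstance (RingHom.ker φ)
  obtain ⟨m, f, hf⟩ : ∃ (m : ℕ) (f : Fin m → MvPolynomial (Fin n) C),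
      Set.range f = (S : Set (MvPolynomial (Fin n) C)) := by
    refine ⟨S.card, fun i => (S.equivFin.symm i : MvPolynomial (Fin n) C), ?_⟩
    ext p
    constructor
    · rintro ⟨i, rfl⟩
      exact (S.equivFin.symm i).2
    · intro hp
      exact ⟨S.equivFin ⟨p, hp⟩, by simp⟩
  have hk : Ideal.span (Set.range f) = RingHom.ker φ := by rw [hf, hS]
  let e : Std f ≃ₐ[C] R :=
    (Ideal.quotientEquivAlgOfEq C hk).trans (Ideal.quotientKerAlgEquivOfSurjective hφ)
  exact ⟨n, m, _, f, (rep_std f).transport e⟩

/-- the subring `B` is a finite free extension of a localisation of `D` -/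
def GoodSub (D : Type) {K : Type} [CommRing D] [Field K] [Algebra D K] (B : Subring K) : Prop :=
  ∃ (a : D) (_ : a ≠ 0) (_ : Algebra (Localization.Away a) B),
    (∀ d : D, ((algebraMap (Localization.Away a) B (algebraMap D _ d) : B) : K) =
      algebraMap D K d) ∧
    Module.Finite (Localization.Away a) B ∧ Module.Free (Localization.Away a) B

theorem GoodSub.ft {D K : Type} [CommRing D] [Field K] [Algebra D K] {B : Subring K}
    (h : GoodSub D B) (hD : Algebra.FiniteType ℤ D) : FT B := by
  obtain ⟨a, -, _, -, h1, -⟩ := h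
  exact ft_alg (ft_loc hD a) inferInstance

theorem GoodSub.dim {D K : Type} [CommRing D] [Field K] [Algebra D K] {B : Subring K}
    (h : GoodSub D B) (hD : ringKrullDim D ≤ 1) : ringKrullDim B ≤ 1 := by
  obtain ⟨a, -, _, -, h1, -⟩ := h
  exact (dim_integral_le (R := Localization.Away a)).trans ((dim_away_le a).trans hD)

theorem GoodSub.curve {D K : Type} [CommRing D] [Field K] [Algebra D K] {B : Subring K}
    (h : GoodSub D B) (hD : Algebra.FiniteType ℤ D) (hD1 : ringKrullDim D ≤ 1) : CurveProd B :=
  CurveProd.of_dim (h.ft hD) (h.dim hD1)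

section

variable {D F K : Type} [CommRing D] [IsDomain D] [Field F] [Algebra D F]
  [IsFractionRing D F] [Field K] [Algebra F K] [Algebra D K] [IsScalarTower D F K]

/-- the generic fibre -/
theorem fibre_generic (hS : SOps S) [IsNoetherianRing D] [Algebra.IsAlgebraic F K]
    (hD : Algebra.FiniteType ℤ D) (hdim : ringKrullDim D ≤ 1) {R A : Type} [CommRing R]
    [IsNoetherianRing R] [CommRing A] [Algebra R A] [Algebra.FiniteType R A] [Algebra R D]
    [Algebra R K] [IsScalarTower R D K]
    (h : Geometric (fun W _ => S W) K (K ⊗[R] A)) :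
    ∃ a : D, a ≠ 0 ∧ S (Localization.Away a ⊗[R] A) := by
  classical
  let G : Finset K → Set (Subring K) := fun T => {B | GoodSub D B ∧ ∀ x ∈ T, x ∈ B}
  let l : Filter (Subring K) := ⨅ T, 𝓟 (G T)
  have hdir : Directed (· ≥ ·) fun T => 𝓟 (G T) := by
    intro T T'
    refine ⟨T ∪ T', ?_, ?_⟩
    · apply principal_mono.2
      rintro B ⟨h1, h2⟩
      exact ⟨h1, fun x hx => h2 x (Finset.mem_union_left _ hx)⟩
    · apply principal_mono.2
      rintro B ⟨h1, h2⟩
      exact ⟨h1, fun x hx => h2 x (Finset.mem_union_right _ hx)⟩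
  have hne : l.NeBot := by
    apply iInf_neBot_of_directed' hdir
    intro T
    rw [principal_neBot_iff]
    obtain ⟨a, ha, B, i1, h1, h2, h3, h4⟩ := exists_good (D := D) (F := F) (K := K) T
    exact ⟨B, ⟨a, ha, i1, h2, h3, h4⟩, h1⟩
  have hl : ∀ x : K, ∀ᶠ B in l, x ∈ B := fun x => by
    have h1 : G {x} ∈ l := mem_iInf_of_mem {x} (mem_principal_self _)
    filter_upwards [h1] with B hB
    exact hB.2 x (Finset.mem_singleton_self x)
  have hgood : ∀ᶠ B in l, GoodSub D B := by
    have h1 : G ∅ ∈ l := mem_iInf_of_mem ∅ (mem_principal_self _)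
    filter_upwards [h1] with B hB
    exact hB.1
  have hft : ∀ᶠ B in l, FT B := by
    filter_upwards [hgood] with B hB
    exact hB.ft hD
  have hseed : ∀ (W : Type) [CommRing W], S W →
      Spread (fun A _ => S A) l (TensorProduct ℤ K W) := by
    intro W _ hW
    obtain ⟨n, m, x, f, hx⟩ := exists_rep_int (hS.ft W hW)
    refine Spread.of_one hS.ringClosed hl hft (hx.baseChange (D := K)) ?_
    filter_upwards [hgood] with B hB g hg
    have hg' : Lifts B (fun k => MvPolynomial.map (algebraMap ℤ K) (f k))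
        (fun k => MvPolynomial.map (algebraMap ℤ B) (f k)) := fun k => by
      rw [MvPolynomial.map_map]
      congr 1
    rw [lifts_unique hg hg']
    obtain ⟨e, -⟩ := (rep_std (fun k => MvPolynomial.map (algebraMap ℤ B) (f k))).equiv
      (hx.baseChange (D := B))
    have h1 : S (Ten B W) := hS.curve B W (hB.curve hD hdim) hW
    exact hS.iso _ _ e.symm.toRingEquiv h1
  obtain ⟨n, m, x, f, hx⟩ := exists_rep_noeth (C := R) (R := A) inferInstance
  have hs := Geometric.spread (M := fun W _ => S W) (fun W _ h => hS.ft W h) hS hl hft hseed h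
    _ _ _ _ (hx.baseChange (D := K))
  obtain ⟨B, hB, hBG⟩ := (hs.and hgood).exists
  obtain ⟨a, ha, i1, hal, hfin, hfree⟩ := hBG
  refine ⟨a, ha, ?_⟩
  set L := Localization.Away a with hL
  have h7 := hB (fun k => MvPolynomial.map (algebraMap L B)
    (MvPolynomial.map (algebraMap R L) (f k))) (fun k => by
    have h10 : (B.subtype.comp (algebraMap L B)).comp (algebraMap R L) = algebraMap R K := by
      refine RingHom.ext fun r => ?_
      change ((algebraMap L B (algebraMap R L r) : B) : K) = algebraMap R K r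
      rw [IsScalarTower.algebraMap_apply R D L, hal, ← IsScalarTower.algebraMap_apply R D K]
    rw [MvPolynomial.map_map, MvPolynomial.map_map, h10])
  obtain ⟨e, -⟩ := (rep_std (fun k => MvPolynomial.map (algebraMap L B)
    (MvPolynomial.map (algebraMap R L) (f k)))).equiv
      ((hx.baseChange (D := L)).baseChange (D := B))
  have h8 : S (B ⊗[L] (L ⊗[R] A)) := hS.iso _ _ e.toRingEquiv h7
  have h9 : S ((L ⊗[R] A) ⊗[L] B) :=
    hS.iso _ _ (Algebra.TensorProduct.comm L B (L ⊗[R] A)).toRingEquiv h8
  rcases subsingleton_or_nontrivial (L ⊗[R] A) with h0 | h0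
  · exact hS.zero _ h0
  have hnt : Nontrivial ((L ⊗[R] A) ⊗[L] B) := by
    let b := Module.Free.chooseBasis L B
    have hne : Nonempty (Module.Free.ChooseBasisIndex L B) := by
      by_contra hcon
      rw [not_nonempty_iff] at hcon
      have : Subsingleton B := b.repr.toEquiv.subsingleton
      exact false_of_nontrivial_of_subsingleton B
    let b' := Algebra.TensorProduct.basis (L ⊗[R] A) b
    obtain ⟨i⟩ := hne
    exact ⟨⟨b' i, 0, b'.ne_zero i⟩⟩
  exact hS.transfer (L ⊗[R] A) ((L ⊗[R] A) ⊗[L] B) (ft_alg (ft_loc hD a) inferInstance) h9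

end

/-- quotients -/
theorem quot_iso {A : Type} [CommRing A] (J : Ideal A) (a : A) (J' : Ideal A)
    (h : J' = J ⊔ Ideal.span {a}) :
    Nonempty (((A ⧸ J) ⧸ Ideal.span {Ideal.Quotient.mk J a}) ≃+* (A ⧸ J')) := by
  subst h
  have h1 : Ideal.span {Ideal.Quotient.mk J a} = (Ideal.span {a}).map (Ideal.Quotient.mk J) := by
    rw [Ideal.map_span, Set.image_singleton]
  rw [h1]
  exact ⟨DoubleQuot.quotQuotEquivQuotSup J (Ideal.span {a})⟩

theorem map_sup_span {A R : Type} [CommRing A] [CommRing R] [Algebra R A] (I : Ideal R) (b : R) :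
    Ideal.map (algebraMap R A) (I ⊔ Ideal.span {b}) =
      Ideal.map (algebraMap R A) I ⊔ Ideal.span {algebraMap R A b} := by
  rw [Ideal.map_sup, Ideal.map_span, Set.image_singleton]

/-- **From the geometric fibres over a curve to the total space.** -/
theorem fibres (hS : SOps S) {R A : Type} [CommRing R] [CommRing A] [Algebra R A]
    (hR : Algebra.FiniteType ℤ R) (hdim : ringKrullDim R ≤ 1) (hA : Algebra.FiniteType R A)
    (h : ∀ (p : Ideal R) [p.IsPrime], Geometric (fun W _ => S W)
      (AlgebraicClosure p.ResidueField) (AlgebraicClosure p.ResidueField ⊗[R] A)) : S A := by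
  have hRn : IsNoetherianRing R := Algebra.FiniteType.isNoetherianRing ℤ R
  have hAft : Algebra.FiniteType ℤ A := ft_alg hR hA
  have hqft : ∀ I : Ideal A, Algebra.FiniteType ℤ (A ⧸ I) := fun I =>
    ft_of_surj hAft (Ideal.Quotient.mk I) Ideal.Quotient.mk_surjective
  have key : ∀ I : Ideal R, S (A ⧸ Ideal.map (algebraMap R A) I) := by
    intro I
    induction I using IsNoetherian.induction with
    | hgt I ih =>
    have hsup : ∀ b : R, b ∉ I → S ((A ⧸ Ideal.map (algebraMap R A) I) ⧸
        Ideal.span {Ideal.Quotient.mk (Ideal.map (algebraMap R A) I) (algebraMap R A b)}) := by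
      intro b hb
      have h1 : I < I ⊔ Ideal.span {b} := by
        refine lt_of_le_of_ne le_sup_left fun h2 => hb ?_
        rw [h2]
        exact Ideal.mem_sup_right (Ideal.mem_span_singleton_self b)
      obtain ⟨e⟩ := quot_iso (Ideal.map (algebraMap R A) I) (algebraMap R A b)
        (Ideal.map (algebraMap R A) (I ⊔ Ideal.span {b})) (map_sup_span I b)
      exact hS.iso _ _ e.symm (ih _ h1)
    by_cases htop : I = ⊤
    · apply hS.zero
      rw [htop, Ideal.map_top]
      exact Ideal.Quotient.subsingleton_iff.2 rfl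
    by_cases hp : Ideal.IsPrime I
    · have hdimI : ringKrullDim (R ⧸ I) ≤ 1 := (ringKrullDim_quotient_le I).trans hdim
      obtain ⟨a, ha, hSa⟩ := fibre_generic (D := R ⧸ I) (F := Ideal.ResidueField I)
        (K := AlgebraicClosure (Ideal.ResidueField I)) hS (ft_of_surj hR (Ideal.Quotient.mk I)
          Ideal.Quotient.mk_surjective) hdimI (h I)
      obtain ⟨b, rfl⟩ := Ideal.Quotient.mk_surjective a
      have hb : b ∉ I := fun hb => ha (Ideal.Quotient.eq_zero_iff_mem.2 hb)
      refine hS.glue _ (Ideal.Quotient.mk (Ideal.map (algebraMap R A) I) (algebraMap R A b)) (hqft _)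
        (hsup b hb) ?_
      have h1 : IsLC (algebraMap R (Localization.Away (Ideal.Quotient.mk I b))) I b :=
        isLC_std I b
      obtain ⟨e⟩ := (h1.tensor (A := A)).equiv (isLC_std (Ideal.map (algebraMap R A) I)
        (algebraMap R A b))
      exact hS.iso _ _ e hSa
    · rw [Ideal.isPrime_iff] at hp
      push Not at hp
      obtain ⟨a, b, hab, ha, hb⟩ := hp htop
      refine hS.glue _ (Ideal.Quotient.mk (Ideal.map (algebraMap R A) I) (algebraMap R A a)) (hqft _)
        (hsup a ha) ?_
      have hIb : I < I ⊔ Ideal.span {b} := by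
        refine lt_of_le_of_ne le_sup_left fun h2 => hb ?_
        rw [h2]
        exact Ideal.mem_sup_right (Ideal.mem_span_singleton_self b)
      have hIba : I < (I ⊔ Ideal.span {b}) ⊔ Ideal.span {a} := lt_of_lt_of_le hIb le_sup_left
      obtain ⟨e1⟩ := quot_iso (Ideal.map (algebraMap R A) (I ⊔ Ideal.span {b})) (algebraMap R A a)
        (Ideal.map (algebraMap R A) ((I ⊔ Ideal.span {b}) ⊔ Ideal.span {a})) (map_sup_span _ a)
      have h3 := hS.opn _ (Ideal.Quotient.mk (Ideal.map (algebraMap R A) (I ⊔ Ideal.span {b}))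
        (algebraMap R A a)) (ih _ hIb) (hS.iso _ _ e1.symm (ih _ hIba))
      have h4 := (isLC_std (Ideal.map (algebraMap R A) I) (algebraMap R A a)).sup
        (b := algebraMap R A b) (by
          rw [← map_mul]
          exact Ideal.mem_map_of_mem _ hab)
      rw [← map_sup_span] at h4
      obtain ⟨e2⟩ := (isLC_std (Ideal.map (algebraMap R A) (I ⊔ Ideal.span {b}))
        (algebraMap R A a)).equiv h4
      exact hS.iso _ _ e2 h3
  have h0 := key ⊥
  have e : (A ⧸ (⊥ : Ideal R).map (algebraMap R A)) ≃+* A := by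
    rw [Ideal.map_bot]
    exact RingEquiv.quotientBot A
  exact hS.iso _ _ e h0

end Pool.Agent.Helper87.CC
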