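import Pool.Agent.Helper87.CC.QuadFam

/-!
# Multipliers and fibres over bases of higher dimension
-/

namespace Pool.Agent.Helper87.CC

open TensorProduct MvPolynomial Filter
open Pool.Agent.Helper45.LG (RingClosed Rep Std rep_std Spread FT Mv Lifts exists_lifts
  exists_lift lifts_unique finiteType_std exists_rep_int)

variable {S : ∀ (A : Type) [CommRing A], Prop}

/-- multipliers of a class of rings -/
def MultS (S : ∀ (A : Type) [CommRing A], Prop) (B : Type) [CommRing B] : Prop :=
  Algebra.FiniteType ℤ B ∧ ∀ (W : Type) [CommRing W], S W → S (Ten W B)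

theorem MultS.iso (hS : SOps S) {A B : Type} [CommRing A] [CommRing B] (e : A ≃+* B)
    (h : MultS S A) : MultS S B := by
  refine ⟨ft_of_surj h.1 (e : A →+* B) e.surjective, fun W _ hW => ?_⟩
  obtain ⟨e'⟩ := ten_congr (RingEquiv.refl W) e
  exact hS.iso _ _ e' (h.2 W hW)

theorem MultS.curve (hS : SOps S) {T : Type} [CommRing T] (h : CurveProd T) : MultS S T := by
  refine ⟨h.ft, fun W _ hW => ?_⟩
  obtain ⟨e⟩ := ten_comm T W
  exact hS.iso _ _ e (hS.curve T W h hW)

theorem MultS.mem (hS : SOps S) {T : Type} [CommRing T] (h : MultS S T) : S T := by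
  obtain ⟨e, -⟩ := (isTen ℤ T).symm.equiv (IsTen.int T)
  exact hS.iso _ _ e (h.2 ℤ hS.int)

theorem MultS.ten (hS : SOps S) {A B : Type} [CommRing A] [CommRing B] (hA : MultS S A)
    (hB : MultS S B) : MultS S (Ten A B) := by
  refine ⟨ft_ten hA.1 hB.1, fun W _ hW => ?_⟩
  obtain ⟨e⟩ := ten_assoc W A B
  exact hS.iso _ _ e (hB.2 _ (hA.2 W hW))

theorem MultS.opn (hS : SOps S) {A : Type} [CommRing A] (a : A) (h : MultS S A)
    (h' : MultS S (A ⧸ Ideal.span {a})) : MultS S (Localization.Away a) := by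
  refine ⟨ft_loc h.1 a, fun W _ hW => ?_⟩
  obtain ⟨e1⟩ := ten_quot W a
  obtain ⟨e2⟩ := ten_away W a
  exact hS.iso _ _ e2 (hS.opn _ _ (h.2 W hW) (hS.iso _ _ e1.symm (h'.2 W hW)))

/-- **Devissage.** -/
theorem devissage (hS : SOps S) {R A : Type} [CommRing R] [CommRing A] [Algebra R A]
    (hR : Algebra.FiniteType ℤ R) (hA : Algebra.FiniteType R A)
    (h : ∀ (p : Ideal R) [p.IsPrime], ∃ a : R ⧸ p, a ≠ 0 ∧ S (Localization.Away a ⊗[R] A)) :
    S A := by
  have hRn : IsNoetherianRing R := Algebra.FiniteType.isNoetherianRing ℤ R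
  have hAft : Algebra.FiniteType ℤ A := ft_alg hR hA
  have hqft : ∀ I : Ideal A, Algebra.FiniteType ℤ (A ⧸ I) := fun I =>
    ft_of_surj hAft (Ideal.Quotient.mk I) Ideal.Quotient.mk_surjective
  have key : ∀ I : Ideal R, S (A ⧸ Ideal.map (algebraMap R A) I) := by
    intro I
    induction I using IsNoetherian.induction with
    | hgt I ih =>
    have hsup : ∀ b : R, b ∉ I → S ((A ⧸ Ideal.map (algebraMap R A) I) ⧸
        Ideal.span {Ideal.Quotient.mk (Ideal.map (algebraMap R A) I) (algebraMap R A b)}) := by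
      intro b hb
      have h1 : I < I ⊔ Ideal.span {b} := by
        refine lt_of_le_of_ne le_sup_left fun h2 => hb ?_
        rw [h2]
        exact Ideal.mem_sup_right (Ideal.mem_span_singleton_self b)
      obtain ⟨e⟩ := quot_iso (Ideal.map (algebraMap R A) I) (algebraMap R A b)
        (Ideal.map (algebraMap R A) (I ⊔ Ideal.span {b})) (map_sup_span I b)
      exact hS.iso _ _ e.symm (ih _ h1)
    by_cases htop : I = ⊤
    · apply hS.zero
      rw [htop, Ideal.map_top]
      exact Ideal.Quotient.subsingleton_iff.2 rfl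
    by_cases hp : Ideal.IsPrime I
    · obtain ⟨a, ha, hSa⟩ := h I
      obtain ⟨b, rfl⟩ := Ideal.Quotient.mk_surjective a
      have hb : b ∉ I := fun hb => ha (Ideal.Quotient.eq_zero_iff_mem.2 hb)
      refine hS.glue _ (Ideal.Quotient.mk (Ideal.map (algebraMap R A) I) (algebraMap R A b))
        (hqft _) (hsup b hb) ?_
      have h1 : IsLC (algebraMap R (Localization.Away (Ideal.Quotient.mk I b))) I b :=
        isLC_std I b
      obtain ⟨e⟩ := (h1.tensor (A := A)).equiv (isLC_std (Ideal.map (algebraMap R A) I)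
        (algebraMap R A b))
      exact hS.iso _ _ e hSa
    · rw [Ideal.isPrime_iff] at hp
      push Not at hp
      obtain ⟨a, b, hab, ha, hb⟩ := hp htop
      refine hS.glue _ (Ideal.Quotient.mk (Ideal.map (algebraMap R A) I) (algebraMap R A a))
        (hqft _) (hsup a ha) ?_
      have hIb : I < I ⊔ Ideal.span {b} := by
        refine lt_of_le_of_ne le_sup_left fun h2 => hb ?_
        rw [h2]
        exact Ideal.mem_sup_right (Ideal.mem_span_singleton_self b)
      have hIba : I < (I ⊔ Ideal.span {b}) ⊔ Ideal.span {a} := lt_of_lt_of_le hIb le_sup_left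
      obtain ⟨e1⟩ := quot_iso (Ideal.map (algebraMap R A) (I ⊔ Ideal.span {b}))
        (algebraMap R A a) (Ideal.map (algebraMap R A) ((I ⊔ Ideal.span {b}) ⊔ Ideal.span {a}))
        (map_sup_span _ a)
      have h3 := hS.opn _ (Ideal.Quotient.mk (Ideal.map (algebraMap R A) (I ⊔ Ideal.span {b}))
        (algebraMap R A a)) (ih _ hIb) (hS.iso _ _ e1.symm (ih _ hIba))
      have h4 := (isLC_std (Ideal.map (algebraMap R A) I) (algebraMap R A a)).sup
        (b := algebraMap R A b) (by
          rw [← map_mul]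
          exact Ideal.mem_map_of_mem _ hab)
      rw [← map_sup_span] at h4
      obtain ⟨e2⟩ := (isLC_std (Ideal.map (algebraMap R A) (I ⊔ Ideal.span {b}))
        (algebraMap R A a)).equiv h4
      exact hS.iso _ _ e2 h3
  have h0 := key ⊥
  have e : (A ⧸ (⊥ : Ideal R).map (algebraMap R A)) ≃+* A := by
    rw [Ideal.map_bot]
    exact RingEquiv.quotientBot A
  exact hS.iso _ _ e h0

/-- the subring `B` is a localisation of `D` -/
def LocSub (D : Type) {K : Type} [CommRing D] [Field K] [Algebra D K] (B : Subring K) : Prop :=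
  ∃ (a : D) (_ : a ≠ 0) (e : Localization.Away a ≃+* B),
    ∀ d : D, ((e (algebraMap D _ d) : B) : K) = algebraMap D K d

section

variable {D F : Type} [CommRing D] [IsDomain D] [Field F] [Algebra D F] [IsFractionRing D F]

theorem exists_locSub (T : Finset F) : ∃ B : Subring F, LocSub D B ∧ ∀ x ∈ T, x ∈ B := by
  classical
  obtain ⟨b, hb⟩ := IsLocalization.exist_integer_multiples_of_finset (nonZeroDivisors D) T
  have hb0 : (b : D) ≠ 0 := nonZeroDivisors.coe_ne_zero b
  have hu : IsUnit (algebraMap D F b) := by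
    rw [isUnit_iff_ne_zero, Ne, IsFractionRing.to_map_eq_zero_iff]
    exact hb0
  let φ : Localization.Away (b : D) →+* F := IsLocalization.Away.lift (b : D) hu
  have hφ : ∀ d : D, φ (algebraMap D _ d) = algebraMap D F d := fun d =>
    IsLocalization.Away.lift_eq (b : D) hu d
  have hinj : Function.Injective φ := by
    rw [injective_iff_map_eq_zero]
    intro x hx
    obtain ⟨n, d, hd⟩ := IsLocalization.Away.surj (b : D) x
    have h1 : φ (x * algebraMap D _ (b : D) ^ n) = 0 := by rw [map_mul, hx, zero_mul]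
    rw [hd, hφ, IsFractionRing.to_map_eq_zero_iff] at h1
    rw [h1, map_zero] at hd
    have h2 : IsUnit (algebraMap D (Localization.Away (b : D)) b ^ n) :=
      (IsLocalization.Away.algebraMap_isUnit (b : D)).pow n
    exact (h2.mul_left_eq_zero).1 hd
  refine ⟨φ.range, ⟨b, hb0, RingEquiv.ofBijective φ.rangeRestrict ⟨?_, φ.rangeRestrict_surjective⟩,
    fun d => hφ d⟩, ?_⟩
  · intro x y hxy
    exact hinj (congrArg Subtype.val hxy)
  · intro x hx
    obtain ⟨d, hd⟩ := hb x hx
    refine ⟨IsLocalization.Away.invSelf (b : D) * algebraMap D _ d, ?_⟩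
    have h1 : φ (algebraMap D _ (b : D)) * φ (IsLocalization.Away.invSelf (b : D)) = 1 := by
      rw [← map_mul, IsLocalization.Away.mul_invSelf, map_one]
    rw [map_mul, hφ, hd, Algebra.smul_def, mul_comm (φ _), mul_comm (algebraMap D F _), mul_assoc,
      ← hφ (b : D), h1, mul_one]

/-- the generic fibre itself -/
theorem fibre_generic_field (hS : SOps S) (hM : ∀ a : D, a ≠ 0 → MultS S (Localization.Away a))
    {R A : Type} [CommRing R] [IsNoetherianRing R] [CommRing A] [Algebra R A]
    [Algebra.FiniteType R A] [Algebra R D] [Algebra R F] [IsScalarTower R D F]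
    (h : Geometric (fun W _ => S W) F (F ⊗[R] A)) :
    ∃ a : D, a ≠ 0 ∧ S (Localization.Away a ⊗[R] A) := by
  classical
  let G : Finset F → Set (Subring F) := fun T => {B | LocSub D B ∧ ∀ x ∈ T, x ∈ B}
  let l : Filter (Subring F) := ⨅ T, 𝓟 (G T)
  have hdir : Directed (· ≥ ·) fun T => 𝓟 (G T) := by
    intro T T'
    refine ⟨T ∪ T', ?_, ?_⟩
    · apply principal_mono.2
      rintro B ⟨h1, h2⟩
      exact ⟨h1, fun x hx => h2 x (Finset.mem_union_left _ hx)⟩
    · apply principal_mono.2
      rintro B ⟨h1, h2⟩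
      exact ⟨h1, fun x hx => h2 x (Finset.mem_union_right _ hx)⟩
  have hne : l.NeBot := by
    apply iInf_neBot_of_directed' hdir
    intro T
    rw [principal_neBot_iff]
    obtain ⟨B, h1, h2⟩ := exists_locSub (D := D) T
    exact ⟨B, h1, h2⟩
  have hl : ∀ x : F, ∀ᶠ B in l, x ∈ B := fun x => by
    have h1 : G {x} ∈ l := mem_iInf_of_mem {x} (mem_principal_self _)
    filter_upwards [h1] with B hB
    exact hB.2 x (Finset.mem_singleton_self x)
  have hgood : ∀ᶠ B in l, LocSub D B := by
    have h1 : G ∅ ∈ l := mem_iInf_of_mem ∅ (mem_principal_self _)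
    filter_upwards [h1] with B hB
    exact hB.1
  have hmult : ∀ B : Subring F, LocSub D B → MultS S B := by
    rintro B ⟨a, ha, e, -⟩
    exact (hM a ha).iso hS e
  have hft : ∀ᶠ B in l, FT B := by
    filter_upwards [hgood] with B hB
    exact (hmult B hB).1
  have hseed : ∀ (W : Type) [CommRing W], S W →
      Spread (fun A _ => S A) l (TensorProduct ℤ F W) := by
    intro W _ hW
    obtain ⟨n, m, x, f, hx⟩ := exists_rep_int (hS.ft W hW)
    refine Spread.of_one hS.ringClosed hl hft (hx.baseChange (D := F)) ?_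
    filter_upwards [hgood] with B hB g hg
    have hg' : Lifts B (fun k => MvPolynomial.map (algebraMap ℤ F) (f k))
        (fun k => MvPolynomial.map (algebraMap ℤ B) (f k)) := fun k => by
      rw [MvPolynomial.map_map]
      congr 1
    rw [lifts_unique hg hg']
    obtain ⟨e, -⟩ := (rep_std (fun k => MvPolynomial.map (algebraMap ℤ B) (f k))).equiv
      (hx.baseChange (D := B))
    obtain ⟨e'⟩ := ten_comm W B
    have h1 : S (Ten B W) := hS.iso _ _ e' ((hmult B hB).2 W hW)
    exact hS.iso _ _ e.symm.toRingEquiv h1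
  obtain ⟨n, m, x, f, hx⟩ := exists_rep_noeth (C := R) (R := A) inferInstance
  have hs := Geometric.spread (M := fun W _ => S W) (fun W _ h => hS.ft W h) hS hl hft hseed h
    _ _ _ _ (hx.baseChange (D := F))
  obtain ⟨B, hB, a, ha, e0, hal⟩ := (hs.and hgood).exists
  refine ⟨a, ha, ?_⟩
  set L := Localization.Away a with hL
  let _ : Algebra L B := (e0 : L →+* B).toAlgebra
  have h7 := hB (fun k => MvPolynomial.map (algebraMap L B)
    (MvPolynomial.map (algebraMap R L) (f k))) (fun k => by
    have h10 : (B.subtype.comp (algebraMap L B)).comp (algebraMap R L) = algebraMap R F := by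
      refine RingHom.ext fun r => ?_
      change ((e0 (algebraMap R L r) : B) : F) = algebraMap R F r
      rw [IsScalarTower.algebraMap_apply R D L, hal, ← IsScalarTower.algebraMap_apply R D F]
    rw [MvPolynomial.map_map, MvPolynomial.map_map, h10])
  obtain ⟨e, -⟩ := (rep_std (fun k => MvPolynomial.map (algebraMap L B)
    (MvPolynomial.map (algebraMap R L) (f k)))).equiv
      ((hx.baseChange (D := L)).baseChange (D := B))
  have h8 : S (B ⊗[L] (L ⊗[R] A)) := hS.iso _ _ e.toRingEquiv h7
  let eL : B ≃ₐ[L] L := (AlgEquiv.ofRingEquiv (f := e0) (fun x => rfl)).symm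
  exact hS.iso _ _ ((Algebra.TensorProduct.congr eL AlgEquiv.refl).trans
    (Algebra.TensorProduct.lid L (L ⊗[R] A))).toRingEquiv h8

end

/-- **From the fibres to the total space.** -/
theorem fibres2 (hS : SOps S) {R A : Type} [CommRing R] [CommRing A] [Algebra R A]
    (hR : Algebra.FiniteType ℤ R) (hA : Algebra.FiniteType R A)
    (h : ∀ (p : Ideal R) [p.IsPrime],
      (ringKrullDim (R ⧸ p) ≤ 1 ∧ Geometric (fun W _ => S W)
        (AlgebraicClosure p.ResidueField) (AlgebraicClosure p.ResidueField ⊗[R] A)) ∨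
      ((∀ a : R ⧸ p, a ≠ 0 → MultS S (Localization.Away a)) ∧
        Geometric (fun W _ => S W) p.ResidueField (p.ResidueField ⊗[R] A))) : S A := by
  have hRn : IsNoetherianRing R := Algebra.FiniteType.isNoetherianRing ℤ R
  refine devissage hS hR hA fun p _ => ?_
  rcases h p with ⟨h1, h2⟩ | ⟨h1, h2⟩
  · exact fibre_generic (D := R ⧸ p) (F := p.ResidueField)
        (K := AlgebraicClosure p.ResidueField) hS (ft_of_surj hR (Ideal.Quotient.mk p)
          Ideal.Quotient.mk_surjective) h1 h2
  · exact fibre_generic_field (D := R ⧸ p) (F := p.ResidueField) hS h1 h2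

end Pool.Agent.Helper87.CC
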