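import Pool.Agent.Helper87.CC.BiDeg
import Pool.Agent.Helper87.CC.Line

/-!
# The normal form of cubic polynomials in four variables
-/

namespace Pool.Agent.Helper87.CC

open MvPolynomial

theorem exists_perm (i j : Fin 4) (h : i ≠ j) :
    ∃ e : Fin 4 ≃ Fin 2 ⊕ Fin 2, e i = Sum.inl 0 ∧ e j = Sum.inl 1 := by
  let p1 : Equiv.Perm (Fin 4) := Equiv.swap i 0
  have h1 : p1 i = 0 := Equiv.swap_apply_left i 0
  have h2 : p1 j ≠ 0 := by
    rw [← h1]
    exact fun h3 => h (p1.injective h3).symm
  let p2 : Equiv.Perm (Fin 4) := Equiv.swap (p1 j) 1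
  have h3 : p2 0 = 0 := Equiv.swap_apply_of_ne_of_ne h2.symm (by decide)
  have h4 : p2 (p1 j) = 1 := Equiv.swap_apply_left _ _
  let s : Fin 4 ≃ Fin 2 ⊕ Fin 2 := (finSumFinEquiv (m := 2) (n := 2)).symm
  refine ⟨(p1.trans p2).trans s, ?_, ?_⟩
  · change s (p2 (p1 i)) = _
    rw [h1, h3]
    rfl
  · change s (p2 (p1 j)) = _
    rw [h4]
    rfl

section

variable {K : Type} [Field K] (e : Fin 4 ≃ Fin 2 ⊕ Fin 2) (u w : Fin 4 → K)

/-- the remaining coordinates -/
noncomputable def rest (x : Fin 2 ⊕ Fin 2) : MvPolynomial (Fin 2) (MvPolynomial (Fin 2) K) :=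
  x.elim (fun _ => 0) (fun b => C (X b))

/-- the new coordinates -/
noncomputable def newc (a : Fin 4) : MvPolynomial (Fin 2) (MvPolynomial (Fin 2) K) :=
  C (C (u a)) * X 0 + C (C (w a)) * X 1 + rest (e a)

/-- the old coordinates -/
noncomputable def oldc (i j : Fin 4) (x : Fin 2 ⊕ Fin 2) : MvPolynomial (Fin 4) K :=
  x.elim (fun b => if b = 0 then X i else X j)
    (fun b => X (e.symm (Sum.inr b)) - C (u (e.symm (Sum.inr b))) * X i -
      C (w (e.symm (Sum.inr b))) * X j)

theorem exists_change (i j : Fin 4) (hi : e i = Sum.inl 0) (hj : e j = Sum.inl 1) (h1 : u i = 1)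
    (h2 : u j = 0) (h3 : w i = 0) (h4 : w j = 1) :
    ∃ Ψ : MvPolynomial (Fin 4) K ≃ₐ[K] MvPolynomial (Fin 2) (MvPolynomial (Fin 2) K),
      ∀ f, Ψ f = aeval (newc e u w) f := by
  let fwd : MvPolynomial (Fin 4) K →ₐ[K] MvPolynomial (Fin 2) (MvPolynomial (Fin 2) K) :=
    aeval (newc e u w)
  let S := sumAlgEquiv K (Fin 2) (Fin 2)
  let bwd0 : MvPolynomial (Fin 2 ⊕ Fin 2) K →ₐ[K] MvPolynomial (Fin 4) K :=
    aeval (oldc e u w i j)
  have hfX : ∀ a, fwd (X a) = newc e u w a := fun a => aeval_X _ _
  have hbX : ∀ x, bwd0 (X x) = oldc e u w i j x := fun x => aeval_X _ _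
  have hfC : ∀ c : K, fwd (C c) = C (C c) := fun c => by
    rw [← algebraMap_eq, AlgHom.commutes]
    rfl
  have hbC : ∀ c : K, bwd0 (C c) = C c := fun c => by
    rw [← algebraMap_eq, AlgHom.commutes]
    rfl
  have hni : newc e u w i = X 0 := by
    simp [newc, rest, hi, h1, h3]
  have hnj : newc e u w j = X 1 := by
    simp [newc, rest, hj, h2, h4]
  have key1 : fwd.comp bwd0 = (S : MvPolynomial (Fin 2 ⊕ Fin 2) K →ₐ[K] _) := by
    apply MvPolynomial.algHom_ext
    rintro (b | b)
    · rw [AlgHom.comp_apply, hbX]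
      change _ = S (X (Sum.inl b))
      rw [sumAlgEquiv_X_inl]
      fin_cases b
      · change fwd (X i) = _
        rw [hfX, hni]
        rfl
      · change fwd (X j) = _
        rw [hfX, hnj]
        rfl
    · rw [AlgHom.comp_apply, hbX]
      change _ = S (X (Sum.inr b))
      rw [sumAlgEquiv_X_inr]
      simp only [oldc, Sum.elim_inr, map_sub, map_mul, hfX, hfC, hni, hnj]
      simp only [newc, rest, Equiv.apply_symm_apply, Sum.elim_inr]
      ring
  have key2 : ∀ a, bwd0 (S.symm (newc e u w a)) = X a := by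
    intro a
    have h5 : S.symm (newc e u w a) = C (u a) * X (Sum.inl 0) + C (w a) * X (Sum.inl 1) +
        S.symm (rest (e a)) := by
      simp only [newc, map_add, map_mul]
      rw [sumAlgEquiv_symm_C_C, sumAlgEquiv_symm_C_C, sumAlgEquiv_symm_X, sumAlgEquiv_symm_X]
    rw [h5, map_add, map_add, map_mul, map_mul, hbC, hbC, hbX, hbX]
    have h6 : oldc e u w i j (Sum.inl 0) = X i := rfl
    have h7 : oldc e u w i j (Sum.inl 1) = X j := rfl
    rw [h6, h7]
    rcases hea : e a with b | b
    · have h8 : S.symm (rest (K := K) (Sum.inl b)) = 0 := map_zero _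
      rw [h8, map_zero, add_zero]
      fin_cases b
      · have ha : a = i := e.injective (hea.trans hi.symm)
        subst ha
        rw [h1, h3, C_1, C_0, one_mul, zero_mul, add_zero]
      · have ha : a = j := e.injective (hea.trans hj.symm)
        subst ha
        rw [h2, h4, C_1, C_0, one_mul, zero_mul, zero_add]
    · have h8 : S.symm (rest (K := K) (Sum.inr b)) = X (Sum.inr b) := by
        change S.symm (C (X b)) = _
        rw [sumAlgEquiv_symm_C_X]
      rw [h8, hbX]
      have ha : e.symm (Sum.inr b) = a := by rw [← hea, Equiv.symm_apply_apply]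
      simp only [oldc, Sum.elim_inr, ha]
      ring
  let bwd : MvPolynomial (Fin 2) (MvPolynomial (Fin 2) K) →ₐ[K] MvPolynomial (Fin 4) K :=
    bwd0.comp (S.symm : _ →ₐ[K] MvPolynomial (Fin 2 ⊕ Fin 2) K)
  refine ⟨AlgEquiv.ofAlgHom fwd bwd ?_ ?_, fun f => rfl⟩
  · apply AlgHom.ext
    intro x
    have h5 := DFunLike.congr_fun key1 (S.symm x)
    have h6 : S (S.symm x) = x := S.apply_symm_apply x
    exact h5.trans h6
  · apply MvPolynomial.algHom_ext
    intro a
    change bwd0 (S.symm (fwd (X a))) = X a
    rw [hfX, key2]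

theorem newc_bd (a : Fin 4) : BD 1 (newc e u w a) := by
  have hC : ∀ c : K, BD 0 (C (C c) : MvPolynomial (Fin 2) (MvPolynomial (Fin 2) K)) := fun c =>
    BD.C (by rw [totalDegree_C])
  refine (((hC _).mul (BD.X 0)).add ((hC _).mul (BD.X 1))).add ?_
  rcases e a with b | b
  · exact BD.zero 1
  · exact BD.C (by
      change (X b : MvPolynomial (Fin 2) K).totalDegree ≤ 1
      exact (totalDegree_X b).le)

end

/-- vanishing of the cubic part on the line -/
theorem coeff_cubic {K L : Type} [Field K] [Field L] [Infinite L] [Algebra K L]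
    (e : Fin 4 ≃ Fin 2 ⊕ Fin 2) (u w : Fin 4 → K) (f : MvPolynomial (Fin 4) K)
    (hf : f.totalDegree ≤ 3)
    (h : ∀ x y : L, eval (fun a => x * algebraMap K L (u a) + y * algebraMap K L (w a))
      (map (algebraMap K L) (homogeneousComponent 3 f)) = 0) (d : Fin 2 →₀ ℕ) (hd : edeg d = 3) :
    coeff d (aeval (newc e u w) f) = 0 := by
  classical
  by_contra hne
  have h1 := BD.aeval (newc e u w) (newc_bd e u w) f hf d hne
  rw [hd] at h1
  have h2 : (coeff d (aeval (newc e u w) f)).totalDegree = 0 := by omega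
  obtain ⟨c, hc⟩ : ∃ c, coeff d (aeval (newc e u w) f) = C c :=
    ⟨_, totalDegree_eq_zero_iff_eq_C.1 h2⟩
  -- specialise
  let l : Fin 4 → MvPolynomial (Fin 2) K := fun a => C (u a) * X 0 + C (w a) * X 1
  have h3 : map constantCoeff (aeval (newc e u w) f) = aeval l f := by
    have h4 : (map (constantCoeff : MvPolynomial (Fin 2) K →+* K) :
          MvPolynomial (Fin 2) (MvPolynomial (Fin 2) K) →+* MvPolynomial (Fin 2) K).comp
        ((aeval (newc e u w) : MvPolynomial (Fin 4) K →ₐ[K]
          MvPolynomial (Fin 2) (MvPolynomial (Fin 2) K)) :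
          MvPolynomial (Fin 4) K →+* MvPolynomial (Fin 2) (MvPolynomial (Fin 2) K)) =
        ((aeval l : MvPolynomial (Fin 4) K →ₐ[K] MvPolynomial (Fin 2) K) :
          MvPolynomial (Fin 4) K →+* _) := by
      apply MvPolynomial.ringHom_ext
      · intro r
        change map constantCoeff (aeval (newc e u w) (C r)) = aeval l (C r)
        rw [← algebraMap_eq, AlgHom.commutes, AlgHom.commutes]
        change map constantCoeff (C (C r)) = C r
        rw [map_C, constantCoeff_C]
      · intro a
        change map constantCoeff (aeval (newc e u w) (X a)) = aeval l (X a)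
        rw [aeval_X, aeval_X, newc]
        rcases e a with b | b
        · simp [rest, l]
        · simp [rest, l]
    exact RingHom.congr_fun h4 f
  have h4 : coeff d (aeval l f) = c := by
    rw [← h3, coeff_map, hc, constantCoeff_C]
  have hl : ∀ a, (l a).IsHomogeneous 1 := by
    intro a
    apply IsHomogeneous.add
    · have := (isHomogeneous_C (Fin 2) (u a)).mul (isHomogeneous_X K (0 : Fin 2))
      simpa using this
    · have := (isHomogeneous_C (Fin 2) (w a)).mul (isHomogeneous_X K (1 : Fin 2))
      simpa using this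
  have h5 : ∀ n, n ≠ 3 → coeff d (aeval l (homogeneousComponent n f)) = 0 := by
    intro n hn
    have h6 := (homogeneousComponent_isHomogeneous n f).aeval l hl
    by_contra h7
    have h8 := h6 h7
    rw [one_mul] at h8
    apply hn
    rw [← h8, ← hd]
    exact (DFunLike.congr_fun (Finsupp.degree_eq_weight_one (R := ℕ) (σ := Fin 2)) d).symm
  have h6 : aeval l (homogeneousComponent 3 f) = 0 := by
    have hinj : Function.Injective (map (algebraMap K L) : MvPolynomial (Fin 2) K →+* _) :=
      map_injective _ (algebraMap K L).injective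
    apply hinj
    rw [map_zero]
    apply MvPolynomial.funext
    intro v
    rw [map_zero]
    have h7 := h (v 0) (v 1)
    refine Eq.trans ?_ h7
    have h8 : ((eval v).comp (map (algebraMap K L))).comp
        ((aeval l : MvPolynomial (Fin 4) K →ₐ[K] MvPolynomial (Fin 2) K) :
          MvPolynomial (Fin 4) K →+* _) =
        (eval (fun a => v 0 * algebraMap K L (u a) + v 1 * algebraMap K L (w a))).comp
          (map (algebraMap K L)) := by
      apply MvPolynomial.ringHom_ext
      · intro r
        change eval v (map (algebraMap K L) (aeval l (C r))) =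
          eval (fun a => v 0 * algebraMap K L (u a) + v 1 * algebraMap K L (w a))
            (map (algebraMap K L) (C r))
        rw [← algebraMap_eq, AlgHom.commutes, algebraMap_eq, algebraMap_eq, map_C, map_C, eval_C,
          eval_C]
      · intro a
        change eval v (map (algebraMap K L) (aeval l (X a))) =
          eval (fun a => v 0 * algebraMap K L (u a) + v 1 * algebraMap K L (w a))
            (map (algebraMap K L) (X a))
        rw [aeval_X]
        simp only [l, map_add, map_mul, map_C, map_X, eval_C, eval_X]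
        ring
    exact RingHom.congr_fun h8 _
  have h7 : c = 0 := by
    rw [← h4]
    conv_lhs => rw [← sum_homogeneousComponent f]
    rw [map_sum, coeff_sum]
    apply Finset.sum_eq_zero
    intro n _
    by_cases hn : n = 3
    · rw [hn, h6, coeff_zero]
    · exact h5 n hn
  apply hne
  rw [hc, h7, C_0]

end Pool.Agent.Helper87.CC
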