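import Pool.Agent.Helper87.CC.Char

/-!
# Affinely independent exponents, coefficients which are products of functions on curves
-/

namespace Pool.Agent.Helper87.CC

open TensorProduct MvPolynomial

variable {S : ∀ (A : Type) [CommRing A], Prop}

/-- Families `c` of elements of a ring `T` of characteristic `p` which are products of functions on
arithmetic curves: `T` is the tensor product of the prime field with finitely many finitely
generated rings of dimension at most one, and every `c j` is a product of elements of the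
factors. -/
inductive ProductFunctions (p : ℕ) (J : Type) : ∀ (T : Type) [CommRing T], (J → T) → Prop
  | one : ProductFunctions p J (ZMod p) (fun _ => 1)
  | tensor (T R : Type) [CommRing T] [CommRing R] (c : J → T) (d : J → R) :
      ProductFunctions p J T c → Algebra.FiniteType ℤ R → ringKrullDim R ≤ 1 →
      ProductFunctions p J (T ⊗[ℤ] R) (fun j => c j ⊗ₜ[ℤ] d j)
  | iso (T T' : Type) [CommRing T] [CommRing T'] (c : J → T) (e : T ≃+* T') :
      ProductFunctions p J T c → ProductFunctions p J T' (fun j => e (c j))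

/-- tensor products are pushouts over the integers -/
theorem IsTen.to_push {A K X : Type} [CommRing A] [CommRing K] [CommRing X] {i : A →+* X}
    {j : K →+* X} (h : IsTen j i) : IsPush (Int.castRingHom A) (Int.castRingHom K) i j where
  comm := RingHom.ext_int _ _
  ex E _ f g _ := by
    obtain ⟨u, h1, h2⟩ := h.ex E g f
    exact ⟨u, h2, h1⟩
  uniq E _ u v h1 h2 := h.uniq E u v h2 h1

theorem IsPush.to_ten {A K X : Type} [CommRing A] [CommRing K] [CommRing X] {i : A →+* X}
    {j : K →+* X} {a : ℤ →+* A} {k : ℤ →+* K} (h : IsPush a k i j) : IsTen j i where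
  ex E _ f g := by
    obtain ⟨u, h1, h2⟩ := h.ex E g f (RingHom.ext_int _ _)
    exact ⟨u, h2, h1⟩
  uniq E _ u v h1 h2 := h.uniq E u v h2 h1

/-- isomorphic base rings -/
theorem pq_congr {T T' σ : Type} [CommRing T] [CommRing T'] (e : T ≃+* T')
    (s : Set (MvPolynomial σ T)) : Nonempty (Pq s ≃+* Pq (map (e : T →+* T') '' s)) := by
  refine ⟨Ideal.quotientEquiv _ _ (MvPolynomial.mapEquiv σ e) ?_⟩
  rw [Ideal.map_span]
  rfl

/-- products with rings given by generators and relations -/
theorem ten_pq (W T : Type) [CommRing W] [CommRing T] {σ : Type} (s : Set (MvPolynomial σ T)) :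
    Nonempty (Ten W (Pq s) ≃+* Pq (map (tinr W T) '' s)) := by
  let _ : Algebra T (Ten W T) := (tinr W T).toAlgebra
  have h1 : IsTen (algebraMap T (Ten W T)) (tinl W T) := (isTen W T).symm
  obtain ⟨e, -⟩ := (isFam_ten W s).equiv (isFam_const h1 s)
  exact ⟨e⟩

/-- all partial sums of the polynomial define members of the class -/
def Subs (S : ∀ (A : Type) [CommRing A], Prop) {J : Type} {m : ℕ} (α : J → Fin m →₀ ℕ)
    (T : Type) [CommRing T] (c : J → T) : Prop :=
  ∀ s : Finset J, S (Pq {(∑ j ∈ s, monomial (α j) (c j) : MvPolynomial (Fin m) T)})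

theorem map_sum_image {T T' : Type} [CommRing T] [CommRing T'] {J : Type} {m : ℕ}
    (α : J → Fin m →₀ ℕ) (c : J → T) (φ : T →+* T') (s : Finset J) :
    map φ '' {(∑ j ∈ s, monomial (α j) (c j) : MvPolynomial (Fin m) T)} =
      {(∑ j ∈ s, monomial (α j) (φ (c j)) : MvPolynomial (Fin m) T')} := by
  rw [Set.image_singleton, map_sum]
  simp only [map_monomial]

theorem Subs.iso (hS : SOps S) {J : Type} {m : ℕ} {α : J → Fin m →₀ ℕ} {T T' : Type}
    [CommRing T] [CommRing T'] {c : J → T} (h : Subs S α T c) (e : T ≃+* T') (c' : J → T')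
    (hc : ∀ j, e (c j) = c' j) : Subs S α T' c' := by
  intro s
  obtain ⟨u⟩ := pq_congr e {(∑ j ∈ s, monomial (α j) (c j) : MvPolynomial (Fin m) T)}
  rw [map_sum_image] at u
  obtain rfl : c' = fun j => e (c j) := funext fun j => (hc j).symm
  exact hS.iso _ _ u (h s)

/-- the geometric fibres -/
theorem fibre_step (hS : SOps S) {J : Type} [Fintype J] {m : ℕ} {α : J → Fin m →₀ ℕ}
    (hα : AffineIndependent ℚ fun (j : J) (i : Fin m) => ((α j i : ℕ) : ℚ)) {T R : Type}
    [CommRing T] [CommRing R] {c : J → T} (d : J → R) (h : Subs S α T c) (s : Finset J)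
    {K : Type} [Field K] [IsAlgClosed K] [Algebra R K]
    [Algebra R (Pq {(∑ j ∈ s, monomial (α j) (tinl T R (c j) * tinr T R (d j)) :
      MvPolynomial (Fin m) (Ten T R))})]
    (halg : algebraMap R (Pq {(∑ j ∈ s, monomial (α j) (tinl T R (c j) * tinr T R (d j)) :
      MvPolynomial (Fin m) (Ten T R))}) = (pqC _).comp (tinr T R)) :
    Geometric (fun W _ => S W) K (K ⊗[R] (Pq {(∑ j ∈ s, monomial (α j)
      (tinl T R (c j) * tinr T R (d j)) : MvPolynomial (Fin m) (Ten T R))})) := by
  classical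
  let E := Ten K T
  let _ : Algebra K E := (tinl K T).toAlgebra
  have hE : IsTen (algebraMap K E) (tinr K T) := isTen K T
  -- the fibre
  obtain ⟨u, hu, hpush⟩ := (isTen T R).push hE.symm (algebraMap R K)
  obtain ⟨w, hw⟩ := hpush.pq {(∑ j ∈ s, monomial (α j) (tinl T R (c j) * tinr T R (d j)) :
      MvPolynomial (Fin m) (Ten T R))}
  rw [← halg] at hw
  obtain ⟨e1, he1⟩ := hw.equiv isPush_tensor
  have hu1 : ∀ t, u (tinl T R t) = tinr K T t := fun t => RingHom.congr_fun hu t
  have hu2 : ∀ r, u (tinr T R r) = algebraMap K E (algebraMap R K r) :=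
    fun r => RingHom.congr_fun hpush.comm r
  -- the scaling
  set δ : J → K := fun j => algebraMap R K (d j) with hδ
  obtain ⟨v, μ, hvμ⟩ := exists_scale α hα δ
  set b : J → E := fun j => tinr K T (c j) * algebraMap K E (δ j) with hb
  set b' : J → E := fun j => if δ j = 0 then 0 else tinr K T (c j) with hb'
  obtain ⟨e2, he2⟩ := scale_equiv s α b b' (fun i => Units.map (algebraMap K E).toMonoidHom (v i))
    (Units.map (algebraMap K E).toMonoidHom μ) (by
      intro j _
      by_cases hj : δ j = 0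
      · simp only [hb', hb, hj, if_true, map_zero, mul_zero, zero_mul]
      · simp only [hb', hb, hj, if_false]
        have h1 := congrArg (algebraMap K E) (hvμ j hj)
        rw [map_one, map_mul, map_mul, map_prod] at h1
        simp only [map_pow] at h1
        have h2 : ∀ x : Kˣ, ((Units.map (algebraMap K E).toMonoidHom x : Eˣ) : E) =
            algebraMap K E (x : K) := fun x => rfl
        simp only [h2]
        calc tinr K T (c j) = tinr K T (c j) * 1 := (mul_one _).symm
          _ = tinr K T (c j) * (algebraMap K E μ * algebraMap K E (δ j) *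
              ∏ i, algebraMap K E (v i) ^ (α j i)) := by rw [h1]
          _ = _ := by ring)
  -- the constant algebra
  set s' := s.filter (fun j => δ j ≠ 0) with hs'
  obtain ⟨E', _, _, j', hE', hG⟩ := geometric_const (h s') K
  obtain ⟨w', hw'⟩ := hE.to_push.pq {(∑ j ∈ s', monomial (α j) (c j) : MvPolynomial (Fin m) T)}
  obtain ⟨e3, he3, -⟩ := hw'.to_ten.equiv hE'
  have hset : map (tinr K T) '' {(∑ j ∈ s', monomial (α j) (c j) : MvPolynomial (Fin m) T)} =
      {(∑ j ∈ s, monomial (α j) (b' j) : MvPolynomial (Fin m) E)} := by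
    rw [map_sum_image, hs', Finset.sum_filter]
    congr 1
    refine Finset.sum_congr rfl fun j _ => ?_
    by_cases hj : δ j = 0
    · simp [hb', hj]
    · simp [hb', hj]
  have h3 : ∃ e : Pq (map (tinr K T) '' {(∑ j ∈ s', monomial (α j) (c j) :
      MvPolynomial (Fin m) T)}) ≃+* E', ∀ x, e (pqC _ (algebraMap K E x)) = algebraMap K E' x :=
    ⟨e3, he3⟩
  rw [hset] at h3
  obtain ⟨e4, he4⟩ := h3
  have hset2 : map u '' {(∑ j ∈ s, monomial (α j) (tinl T R (c j) * tinr T R (d j)) :
      MvPolynomial (Fin m) (Ten T R))} =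
      {(∑ j ∈ s, monomial (α j) (b j) : MvPolynomial (Fin m) E)} := by
    rw [map_sum_image]
    simp only [map_mul, hu1, hu2]
    rfl
  have h5 : ∃ e : Pq (map u '' {(∑ j ∈ s, monomial (α j) (tinl T R (c j) * tinr T R (d j)) :
      MvPolynomial (Fin m) (Ten T R))}) ≃+* (K ⊗[R] (Pq {(∑ j ∈ s, monomial (α j)
      (tinl T R (c j) * tinr T R (d j)) : MvPolynomial (Fin m) (Ten T R))})),
      ∀ x, e (pqC _ (algebraMap K E x)) = algebraMap K _ x := ⟨e1, he1⟩
  rw [hset2] at h5
  obtain ⟨e5, he5⟩ := h5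
  refine .iso _ _ (AlgEquiv.ofRingEquiv (f := (e4.symm.trans e2.symm).trans e5) ?_) hG
  intro x
  change e5 (e2.symm (e4.symm (algebraMap K E' x))) = _
  rw [← he4, e4.symm_apply_apply, ← he2, e2.symm_apply_apply, he5]

theorem ft_over {R A : Type} [CommRing R] [CommRing A] [Algebra R A]
    (h : Algebra.FiniteType ℤ A) : Algebra.FiniteType R A :=
  Algebra.FiniteType.of_restrictScalars_finiteType ℤ R A

/-- one more curve -/
theorem subs_step (hS : SOps S) {J : Type} [Fintype J] {m : ℕ} {α : J → Fin m →₀ ℕ}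
    (hα : AffineIndependent ℚ fun (j : J) (i : Fin m) => ((α j i : ℕ) : ℚ)) {T R : Type}
    [CommRing T] [CommRing R] (hT : Algebra.FiniteType ℤ T) (hR : Algebra.FiniteType ℤ R)
    (hdim : ringKrullDim R ≤ 1) {c : J → T} (d : J → R) (h : Subs S α T c) :
    Subs S α (Ten T R) (fun j => tinl T R (c j) * tinr T R (d j)) := by
  intro s
  let A := Pq {(∑ j ∈ s, monomial (α j) (tinl T R (c j) * tinr T R (d j)) :
      MvPolynomial (Fin m) (Ten T R))}
  let _ : Algebra R A := ((pqC _).comp (tinr T R)).toAlgebra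
  have hA' : Algebra.FiniteType R A := ft_over (ft_alg (ft_ten hT hR)
    (inferInstanceAs (Algebra.FiniteType (Ten T R) A)))
  exact fibres hS hR hdim hA' fun p _ => fibre_step hS hα d h s rfl

/-- **Products of functions.** -/
theorem product_functions (hS : SOps S) (p : ℕ) [Fact p.Prime] {J : Type} [Fintype J] {m : ℕ}
    {α : J → Fin m →₀ ℕ}
    (hα : AffineIndependent ℚ fun (j : J) (i : Fin m) => ((α j i : ℕ) : ℚ)) {W : Type}
    [CommRing W] (hW : S W) {T : Type} [CommRing T] {c : J → T}
    (h : ProductFunctions p J T c) :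
    Algebra.FiniteType ℤ T ∧ Subs S α (Ten W T) (fun j => tinr W T (c j)) := by
  induction h with
  | one =>
    refine ⟨(curveProd_zmod p).ft, fun s => ?_⟩
    obtain ⟨e⟩ := ten_pq W (ZMod p) {(∑ j ∈ s, monomial (α j) 1 : MvPolynomial (Fin m) (ZMod p))}
    rw [map_sum_image α (fun _ => (1 : ZMod p))] at e
    exact hS.iso _ _ e (simplex_mem hS p α hα s hW)
  | tensor T R c d _ hR hdim ih =>
    obtain ⟨hT, ih⟩ := ih
    refine ⟨ft_ten hT hR, ?_⟩
    have h1 := subs_step hS hα (ft_ten (hS.ft W hW) hT) hR hdim d ih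
    obtain ⟨k, hk1, hk2, hk3⟩ := (isTen T R).assoc (isTen W (Ten T R)) (isTen W T)
    obtain ⟨e, he1, he2⟩ := (isTen (Ten W T) R).equiv hk3
    refine h1.iso hS e _ fun j => ?_
    rw [map_mul, he1, he2]
    have h2 : k (tinr W T (c j)) = tinr W (Ten T R) (tinl T R (c j)) :=
      RingHom.congr_fun hk2 (c j)
    have h3 : tinl T R (c j) * tinr T R (d j) = (c j ⊗ₜ[ℤ] d j : T ⊗[ℤ] R) := by
      change ((c j ⊗ₜ[ℤ] (1 : R)) * ((1 : T) ⊗ₜ[ℤ] d j) : T ⊗[ℤ] R) = _
      rw [Algebra.TensorProduct.tmul_mul_tmul, mul_one, one_mul]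
    rw [h2, RingHom.comp_apply, ← map_mul, h3]
    rfl
  | iso T T' c e _ ih =>
    obtain ⟨hT, ih⟩ := ih
    refine ⟨ft_of_surj hT (e : T →+* T') e.surjective, ?_⟩
    obtain ⟨e', he1, he2⟩ := (isTen W T).equiv ((isTen W T').congr (RingEquiv.refl W) e
      (RingEquiv.refl _))
    exact ih.iso hS e' _ fun j => he2 (c j)

/-- **Polynomials with affinely independent exponents.** -/
theorem simplex_family (hS : SOps S) (p : ℕ) [Fact p.Prime] {J : Type} [Fintype J] {m : ℕ}
    {α : J → Fin m →₀ ℕ}
    (hα : AffineIndependent ℚ fun (j : J) (i : Fin m) => ((α j i : ℕ) : ℚ)) {W : Type}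
    [CommRing W] (hW : S W) {T : Type} [CommRing T] {c : J → T}
    (h : ProductFunctions p J T c) :
    S (Ten W (MvPolynomial (Fin m) T ⧸ Ideal.span {∑ j, monomial (α j) (c j)})) := by
  have h1 := (product_functions hS p hα hW h).2 Finset.univ
  obtain ⟨e⟩ := ten_pq W T {(∑ j, monomial (α j) (c j) : MvPolynomial (Fin m) T)}
  rw [map_sum_image] at e
  exact hS.iso _ _ e.symm h1

end Pool.Agent.Helper87.CC
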