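import Pool.Agent.Helper87.CC.Push
import Pool.Agent.Helper9.FT.Cochar
import Pool.Agent.Helper62.RO.Few

/-!
# Rescaling the coefficients of polynomials with affinely independent exponents
-/

namespace Pool.Agent.Helper87.CC

open TensorProduct MvPolynomial
open Pool.Agent.Helper9.FT (exists_dual_nat)
open Pool.Agent.Helper62.RO (affIndep_of)

/-- a product of powers of units -/
theorem exists_root_unit {K : Type} [Field K] [IsAlgClosed K] (c : K) (hc : c ≠ 0) {e : ℕ}
    (he : e ≠ 0) : ∃ t : Kˣ, ((t ^ e : Kˣ) : K) = c⁻¹ := by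
  obtain ⟨z, hz⟩ := IsAlgClosed.exists_pow_nat_eq (c⁻¹) (Nat.pos_of_ne_zero he)
  have hz0 : z ≠ 0 := by
    rintro rfl
    rw [zero_pow he] at hz
    exact inv_ne_zero hc hz.symm
  exact ⟨Units.mk0 z hz0, by rw [Units.val_pow_eq_pow_val, Units.val_mk0, hz]⟩

theorem prod_zpow_sum {G ι : Type} [CommGroup G] (t : G) (f : ι → ℤ) (s : Finset ι) :
    ∏ i ∈ s, t ^ f i = t ^ ∑ i ∈ s, f i := by
  classical
  induction s using Finset.induction_on with
  | empty => simp
  | insert a s ha ih => rw [Finset.prod_insert ha, Finset.sum_insert ha, zpow_add, ih]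

/-- coefficients of polynomials with affinely independent exponents can be rescaled -/
theorem exists_scale {K : Type} [Field K] [IsAlgClosed K] {J : Type} [Fintype J] {m : ℕ}
    (α : J → Fin m →₀ ℕ) (hα : AffineIndependent ℚ fun (j : J) (i : Fin m) => ((α j i : ℕ) : ℚ))
    (d : J → K) : ∃ (v : Fin m → Kˣ) (μ : Kˣ), ∀ j, d j ≠ 0 →
      (μ : K) * d j * ∏ i, (v i : K) ^ (α j i) = 1 := by
  classical
  let b : J → Option (Fin m) → ℤ := fun j s => s.elim 1 (fun i => (α j i : ℤ))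
  have hb : LinearIndependent ℚ (fun (j : J) (s : Option (Fin m)) => ((b j s : ℤ) : ℚ)) := by
    rw [Fintype.linearIndependent_iff]
    intro g hg
    apply affIndep_of hα g
    · have h1 := congrFun hg none
      simpa [b, Finset.sum_apply] using h1
    · intro i
      have h1 := congrFun hg (some i)
      simpa [b, Finset.sum_apply] using h1
  obtain ⟨e, L, he, hL⟩ := exists_dual_nat b hb
  have he0 : e ≠ 0 := by
    rintro rfl
    exact he Nat.cast_zero
  have ht : ∀ j, ∃ t : Kˣ, d j ≠ 0 → ((t ^ e : Kˣ) : K) = (d j)⁻¹ := by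
    intro j
    by_cases hd : d j = 0
    · exact ⟨1, fun h => absurd hd h⟩
    · obtain ⟨t, ht⟩ := exists_root_unit (d j) hd he0
      exact ⟨t, fun _ => ht⟩
  choose t ht using ht
  let w : Option (Fin m) → Kˣ := fun s => ∏ i, t i ^ L i s
  have hw : ∀ j, ∏ s, w s ^ b j s = t j ^ e := by
    intro j
    have h1 : ∀ s, w s ^ b j s = ∏ i, t i ^ (L i s * b j s) := by
      intro s
      rw [← Finset.prod_zpow]
      refine Finset.prod_congr rfl fun i _ => ?_
      rw [zpow_mul]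
    simp only [h1]
    rw [Finset.prod_comm]
    have h2 : ∀ i, ∏ s, t i ^ (L i s * b j s) = if i = j then t j ^ e else 1 := by
      intro i
      have h3 : ∏ s, t i ^ (L i s * b j s) = t i ^ (∑ s, L i s * b j s) :=
        prod_zpow_sum _ _ _
      rw [h3, hL]
      split_ifs with h
      · subst h
        exact zpow_natCast _ _
      · exact zpow_zero _
    simp only [h2]
    rw [Finset.prod_ite_eq' Finset.univ j (fun _ => t j ^ e)]
    simp
  refine ⟨fun i => w (some i), w none, fun j hj => ?_⟩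
  have h1 := hw j
  rw [Fintype.prod_option] at h1
  have h2 : (w none : K) * ∏ i, (w (some i) : K) ^ (α j i) = (d j)⁻¹ := by
    rw [← ht j hj, ← h1]
    push_cast
    simp [b]
  calc (w none : K) * d j * ∏ i, (w (some i) : K) ^ (α j i)
      = d j * ((w none : K) * ∏ i, (w (some i) : K) ^ (α j i)) := by ring
    _ = 1 := by rw [h2, mul_inv_cancel₀ hj]

/-- one direction of the rescaling -/
theorem scale_hom {E : Type} [CommRing E] {J : Type} {m : ℕ} (s : Finset J)
    (α : J → Fin m →₀ ℕ) (b b' : J → E) (v : Fin m → Eˣ) (μ : Eˣ)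
    (h : ∀ j ∈ s, b' j = μ * b j * ∏ i, (v i : E) ^ (α j i)) :
    ∃ u : Pq {(∑ j ∈ s, monomial (α j) (b j) : MvPolynomial (Fin m) E)} →+*
      Pq {(∑ j ∈ s, monomial (α j) (b' j) : MvPolynomial (Fin m) E)},
      u.comp (pqC _) = pqC _ ∧ ∀ a, u (Ideal.Quotient.mk _ (X a)) =
        pqC _ (v a : E) * Ideal.Quotient.mk _ (X a) := by
  refine pq_ex {(∑ j ∈ s, monomial (α j) (b j) : MvPolynomial (Fin m) E)}
    (Pq {(∑ j ∈ s, monomial (α j) (b' j) : MvPolynomial (Fin m) E)})
    (pqC {(∑ j ∈ s, monomial (α j) (b' j) : MvPolynomial (Fin m) E)})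
    (fun a => pqC {(∑ j ∈ s, monomial (α j) (b' j) : MvPolynomial (Fin m) E)} (v a : E) *
      Ideal.Quotient.mk _ (X a)) ?_
  intro p hp
  rw [Set.mem_singleton_iff.1 hp, eval₂_sum]
  have h0 := pq_zero (s := {(∑ j ∈ s, monomial (α j) (b' j) : MvPolynomial (Fin m) E)})
    (Set.mem_singleton _)
  rw [eval₂_sum] at h0
  set φ : E →+* Pq {(∑ j ∈ s, monomial (α j) (b' j) : MvPolynomial (Fin m) E)} := pqC _ with hφ
  have hμ : IsUnit (φ (μ : E)) := μ.isUnit.map φ
  apply hμ.mul_right_cancel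
  rw [zero_mul, Finset.sum_mul, ← h0]
  refine Finset.sum_congr rfl fun j hj => ?_
  rw [eval₂_monomial, eval₂_monomial, h j hj, Finsupp.prod_fintype _ _ (fun _ => pow_zero _),
    Finsupp.prod_fintype _ _ (fun _ => pow_zero _), map_mul, map_mul, map_prod]
  simp only [mul_pow, map_pow, Finset.prod_mul_distrib]
  ring

/-- the rescaling -/
theorem scale_equiv {E : Type} [CommRing E] {J : Type} {m : ℕ} (s : Finset J)
    (α : J → Fin m →₀ ℕ) (b b' : J → E) (v : Fin m → Eˣ) (μ : Eˣ)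
    (h : ∀ j ∈ s, b' j = μ * b j * ∏ i, (v i : E) ^ (α j i)) :
    ∃ e : Pq {(∑ j ∈ s, monomial (α j) (b j) : MvPolynomial (Fin m) E)} ≃+*
      Pq {(∑ j ∈ s, monomial (α j) (b' j) : MvPolynomial (Fin m) E)},
      ∀ x, e (pqC _ x) = pqC _ x := by
  obtain ⟨f, hf1, hf2⟩ := scale_hom s α b b' v μ h
  have h' : ∀ j ∈ s, b j = (μ⁻¹ : Eˣ) * b' j * ∏ i, (((v i)⁻¹ : Eˣ) : E) ^ (α j i) := by
    intro j hj
    rw [h j hj]
    have h1 : (∏ i, (v i : E) ^ (α j i)) * ∏ i, (((v i)⁻¹ : Eˣ) : E) ^ (α j i) = 1 := by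
      rw [← Finset.prod_mul_distrib]
      refine Finset.prod_eq_one fun i _ => ?_
      rw [← mul_pow, Units.mul_inv, one_pow]
    calc b j = ((μ⁻¹ : Eˣ) * μ) * b j * 1 := by rw [Units.inv_mul, one_mul, mul_one]
      _ = ((μ⁻¹ : Eˣ) * μ) * b j * ((∏ i, (v i : E) ^ (α j i)) *
          ∏ i, (((v i)⁻¹ : Eˣ) : E) ^ (α j i)) := by rw [h1]
      _ = _ := by ring
  obtain ⟨g, hg1, hg2⟩ := scale_hom s α b' b (fun i => (v i)⁻¹) μ⁻¹ h'
  refine ⟨RingEquiv.ofRingHom f g ?_ ?_, fun x => RingHom.congr_fun hf1 x⟩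
  · apply pq_uniq
    · rw [RingHom.comp_assoc, hg1, hf1, RingHom.id_comp]
    · intro a
      rw [RingHom.comp_apply, hg2, map_mul, hf2]
      have h3 := RingHom.congr_fun hf1 (((v a)⁻¹ : Eˣ) : E)
      rw [RingHom.comp_apply] at h3
      rw [h3, ← mul_assoc, ← map_mul, Units.inv_mul, map_one, one_mul, RingHom.id_apply]
  · apply pq_uniq
    · rw [RingHom.comp_assoc, hf1, hg1, RingHom.id_comp]
    · intro a
      rw [RingHom.comp_apply, hf2, map_mul, hg2]
      have h3 := RingHom.congr_fun hg1 ((v a : Eˣ) : E)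
      rw [RingHom.comp_apply] at h3
      rw [h3, ← mul_assoc, ← map_mul, Units.mul_inv, map_one, one_mul, RingHom.id_apply]

end Pool.Agent.Helper87.CC
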