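import Pool.Agent.Helper87.CC.Ring
import Pool.Agent.Helper45.LG.Spread

/-!
# Spreading out of geometric algebras
-/

namespace Pool.Agent.Helper87.CC

open MvPolynomial Filter
open Pool.Agent.Helper45.LG (RingClosed Rep Std rep_std Spread FT Mv Lifts exists_rep exists_lifts
  exists_lift map_rename_some lifts_unique aeval_mk finiteType_std triple)

variable {S : ∀ (A : Type) [CommRing A], Prop}

theorem SOps.ringClosed (hS : SOps S) : RingClosed (fun A _ => S A) where
  iso R T _ _ _ e h := hS.iso R T e h
  zero R _ h := hS.zero R h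
  glue R _ f hR h1 h2 := hS.glue R f hR h1 h2
  closed R _ f _ h1 h2 := hS.closed R f h1 h2
  opn R _ f _ h1 h2 := hS.opn R f h1 h2
  poly R _ _ h := hS.poly R h
  summand R _ f _ hf h := hS.summand R f hf h

/-- the relation of a monic polynomial -/
noncomputable def relPoly (C : Type) [CommRing C] {σ : Type} {d : ℕ}
    (γ : Fin d → MvPolynomial σ C) : MvPolynomial (Option σ) C :=
  X none ^ d + ∑ i : Fin d, rename some (γ i) * X none ^ (i : ℕ)

theorem aeval_relPoly {C R : Type} [CommRing C] [CommRing R] [Algebra C R] {σ : Type} {d : ℕ}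
    (x : σ → R) (γ : Fin d → MvPolynomial σ C) :
    aeval (fun j : Option σ => j.elim Polynomial.X (fun i => Polynomial.C (x i)))
      (relPoly C γ) = (Polynomial.X ^ d + ∑ i : Fin d, Polynomial.C (aeval x (γ i)) *
        Polynomial.X ^ (i : ℕ) : Polynomial R) := by
  have h1 : ∀ p : MvPolynomial σ C, aeval (fun j : Option σ => j.elim Polynomial.X
      (fun i => Polynomial.C (x i))) (rename some p) = (Polynomial.C (aeval x p) :
        Polynomial R) := by
    intro p
    rw [aeval_rename]
    have : (aeval ((fun j : Option σ => j.elim Polynomial.X (fun i => Polynomial.C (x i))) ∘ some) :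
        MvPolynomial σ C →ₐ[C] Polynomial R) = (Polynomial.CAlgHom (R := C)).comp (aeval x) := by
      apply MvPolynomial.algHom_ext
      intro j
      simp
    rw [this]
    rfl
  rw [relPoly, map_add, map_pow, map_sum, aeval_X]
  congr 1
  refine Finset.sum_congr rfl fun i _ => ?_
  rw [map_mul, map_pow, aeval_X, h1]
  rfl

/-- monic polynomials -/
theorem monic_sum {R : Type} [CommRing R] [Nontrivial R] {d : ℕ} (c : Fin d → R) :
    (Polynomial.X ^ d + ∑ i : Fin d, Polynomial.C (c i) * Polynomial.X ^ (i : ℕ) :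
      Polynomial R).Monic ∧
    (Polynomial.X ^ d + ∑ i : Fin d, Polynomial.C (c i) * Polynomial.X ^ (i : ℕ) :
      Polynomial R).natDegree = d := by
  have h1 : (∑ i : Fin d, Polynomial.C (c i) * Polynomial.X ^ (i : ℕ) : Polynomial R).degree <
      (d : WithBot ℕ) := Polynomial.degree_sum_fin_lt c
  refine ⟨Polynomial.monic_X_pow_add h1, ?_⟩
  rw [Polynomial.natDegree_add_eq_left_of_degree_lt]
  · exact Polynomial.natDegree_X_pow d
  · rw [Polynomial.degree_X_pow]
    exact h1

theorem monic_expand {R : Type} [CommRing R] {g : Polynomial R} (hg : g.Monic) :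
    g = Polynomial.X ^ g.natDegree + ∑ i : Fin g.natDegree, Polynomial.C (g.coeff i) *
      Polynomial.X ^ (i : ℕ) := by
  conv_lhs => rw [hg.as_sum]
  rw [Fin.sum_univ_eq_sum_range (fun i => Polynomial.C (g.coeff i) * Polynomial.X ^ i)]

variable {K : Type} [Field K] {l : Filter (Subring K)}

theorem transfer_adjoinRoot (hS : SOps S) {R : Type} [CommRing R] (hR : Algebra.FiniteType ℤ R)
    {g : Polynomial R} (hg : g.Monic) (hd : 0 < g.natDegree) (h : S (AdjoinRoot g)) : S R := by
  rcases subsingleton_or_nontrivial R with h0 | h0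
  · exact hS.zero R h0
  have h1 : Module.Finite R (AdjoinRoot g) := hg.finite_adjoinRoot
  have h2 : Module.Free R (AdjoinRoot g) := hg.free_adjoinRoot
  have h3 : Nontrivial (AdjoinRoot g) := by
    let b := (AdjoinRoot.powerBasis' hg).basis
    have hi : 0 < (AdjoinRoot.powerBasis' hg).dim := by
      rwa [AdjoinRoot.powerBasis'_dim]
    exact ⟨⟨b ⟨0, hi⟩, 0, b.ne_zero _⟩⟩
  exact hS.transfer R (AdjoinRoot g) hR h

/-- transfer spreads out -/
theorem spread_transfer (hS : SOps S) (hl : ∀ x : K, ∀ᶠ B in l, x ∈ B)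
    (hft : ∀ᶠ B in l, FT B) {R : Type} [CommRing R] [Algebra K R]
    (hR : Algebra.FiniteType K R) {g : Polynomial R} (hg : g.Monic) (hd : 0 < g.natDegree)
    (h : Spread (fun A _ => S A) l (AdjoinRoot g)) : Spread (fun A _ => S A) l R := by
  obtain ⟨n, m, x, f, hx⟩ := exists_rep hR
  choose γ hγ using fun i : Fin g.natDegree => hx.surj (g.coeff i)
  have hp : aeval (fun j : Option (Fin n) => j.elim Polynomial.X (fun i => Polynomial.C (x i)))
      (relPoly K γ) = g := by
    rw [aeval_relPoly]
    simp only [hγ]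
    exact (monic_expand hg).symm
  have h' : Spread (fun A _ => S A) l (Polynomial R ⧸ Ideal.span {g}) := h
  refine Spread.of_one hS.ringClosed hl hft hx ?_
  filter_upwards [h' _ _ _ _ (hx.poly.quot hp), exists_lifts hl γ, hft] with B h1 h2 h3 f' hf'
  obtain ⟨γ', hγ'⟩ := h2
  rcases subsingleton_or_nontrivial (Std f') with h0 | h0
  · exact hS.zero _ h0
  let c : Fin g.natDegree → Std f' := fun i => Ideal.Quotient.mk _ (γ' i)
  let G : Polynomial (Std f') := Polynomial.X ^ g.natDegree +
    ∑ i : Fin g.natDegree, Polynomial.C (c i) * Polynomial.X ^ (i : ℕ)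
  obtain ⟨hG1, hG2⟩ := monic_sum c
  have hc : ∀ i, aeval (fun j => Ideal.Quotient.mk (Ideal.span (Set.range f')) (X j))
      (γ' i) = c i := by
    intro i
    have h5 := aeval_mk f' (fun j => X j) (γ' i)
    rw [h5]
    congr 1
    exact congrArg (fun χ : Mv B (Fin n) →ₐ[B] Mv B (Fin n) => χ (γ' i))
      (bind₁_X_left (R := B) (σ := Fin n))
  have hp' : aeval (fun j : Option (Fin n) => (j.elim Polynomial.X
      (fun i => Polynomial.C (Ideal.Quotient.mk (Ideal.span (Set.range f')) (X i))) :
        Polynomial (Std f'))) (relPoly B γ') = G := by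
    rw [aeval_relPoly]
    simp only [hc]
    rfl
  have hrep := (rep_std f').poly.quot hp'
  obtain ⟨e, -⟩ := (rep_std _).equiv hrep
  have h6 : S (Std (fun i : Option (Fin m) => i.elim (relPoly B γ')
      (fun i => rename some (f' i)))) := by
    apply h1
    rintro (_ | i)
    · simp only [Option.elim_none, relPoly, map_add, map_pow, map_X, map_sum, map_mul]
      congr 1
      refine Finset.sum_congr rfl fun i _ => ?_
      rw [map_rename_some, hγ' i]
    · simp only [Option.elim_some]
      rw [map_rename_some, hf' i]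
  have h7 : S (AdjoinRoot G) := hS.iso _ _ e.toRingEquiv h6
  exact transfer_adjoinRoot hS (finiteType_std h3 f') hG1 (by rw [hG2]; exact hd) h7

theorem Geometric.finiteType {M : ∀ (W : Type) [CommRing W], Prop}
    (hM : ∀ (W : Type) [CommRing W], M W → Algebra.FiniteType ℤ W) {R : Type} [CommRing R]
    [Algebra K R] (h : Geometric M K R) : Algebra.FiniteType K R := by
  induction h with
  | const W h =>
    have := hM W h
    exact Algebra.FiniteType.baseChange K
  | iso R S e _ ih => exact Algebra.FiniteType.equiv ih e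
  | poly R _ ih =>
    have := ih
    infer_instance
  | glue R f h _ _ _ _ => exact h
  | closed R f _ _ ih _ =>
    have := ih
    infer_instance
  | opn R f _ _ ih _ =>
    have := ih
    have h6 : Algebra.FiniteType R (Localization.Away f) :=
        IsLocalization.finiteType_of_monoid_fg (Submonoid.powers f) _
    exact Algebra.FiniteType.trans ih h6
  | summand R f _ _ ih =>
    have := ih
    infer_instance
  | transfer R g h _ _ _ _ => exact h

/-- **Spreading out.** -/
theorem Geometric.spread {M : ∀ (W : Type) [CommRing W], Prop}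
    (hM : ∀ (W : Type) [CommRing W], M W → Algebra.FiniteType ℤ W) (hS : SOps S)
    (hl : ∀ x : K, ∀ᶠ B in l, x ∈ B) (hft : ∀ᶠ B in l, FT B)
    (hc : ∀ (W : Type) [CommRing W], M W → Spread (fun A _ => S A) l (TensorProduct ℤ K W))
    {R : Type} [CommRing R] [Algebra K R] (h : Geometric M K R) :
    Spread (fun A _ => S A) l R := by
  induction h with
  | const W h => exact hc W h
  | iso R S e _ ih =>
    intro σ ρ _ _ x f hx
    exact ih σ ρ _ f (hx.transport e.symm)
  | poly R h ih => exact Spread.poly hS.ringClosed hl hft (h.finiteType hM) ih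
  | glue R f h _ _ ih1 ih2 =>
    obtain ⟨N, _, s, h0, -, h1, h2, h3⟩ := triple hS.ringClosed hl hft h f
    rw [h1]
    filter_upwards [h0, h2.1 ih1, h3.1 ih2] with B c0 c1 c2
    exact hS.glue _ (s B) c0 c1 c2
  | closed R f h _ ih1 ih2 =>
    obtain ⟨N, _, s, h0, -, h1, h2, h3⟩ := triple hS.ringClosed hl hft (h.finiteType hM) f
    rw [h2]
    filter_upwards [h0, h1.1 ih1, h3.1 ih2] with B c0 c1 c2
    exact hS.closed _ (s B) c1 c2
  | opn R f h _ ih1 ih2 =>
    obtain ⟨N, _, s, h0, -, h1, h2, h3⟩ := triple hS.ringClosed hl hft (h.finiteType hM) f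
    rw [h3]
    filter_upwards [h0, h1.1 ih1, h2.1 ih2] with B c0 c1 c2
    exact hS.opn _ (s B) c1 c2
  | summand R f hf h ih =>
    obtain ⟨N, _, s, h0, hi, h1, h2, h3⟩ := triple hS.ringClosed hl hft (h.finiteType hM) f
    rw [h2]
    filter_upwards [h0, hi hf, h1.1 ih] with B c0 c1 c2
    exact hS.summand _ (s B) c1 c2
  | transfer R g h hg hd _ ih => exact spread_transfer hS hl hft h hg hd ih

end Pool.Agent.Helper87.CC
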