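import Pool.Agent.Helper87.CC.Defs
import Pool.Agent.Helper87.CC.Prod
import Pool.Agent.Helper20.BL.Main

/-!
# Tame rings
-/

namespace Pool.Agent.Helper87.CC

open TensorProduct MvPolynomial

/-- Classes of finitely generated rings which contain the finite tensor products of finitely
generated rings of dimension at most one and are closed under isomorphisms, tensor products, cut
and paste, direct factors, and polynomial rings. -/
structure CutPasteClosed (M : ∀ (A : Type) [CommRing A], Prop) : Prop where
  /-- products of curves -/
  curves : ∀ (T : Type) [CommRing T], CurveProd T → M T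
  /-- isomorphisms -/
  iso : ∀ (A B : Type) [CommRing A] [CommRing B], (A ≃+* B) → M A → M B
  /-- products -/
  tensor : ∀ (A B : Type) [CommRing A] [CommRing B], M A → M B → M (A ⊗[ℤ] B)
  /-- cut and paste -/
  glue : ∀ (A : Type) [CommRing A] (f : A), Algebra.FiniteType ℤ A →
    M (A ⧸ Ideal.span {f}) → M (Localization.Away f) → M A
  /-- cut and paste -/
  closed : ∀ (A : Type) [CommRing A] (f : A),
    M A → M (Localization.Away f) → M (A ⧸ Ideal.span {f})
  /-- cut and paste -/
  opn : ∀ (A : Type) [CommRing A] (f : A),
    M A → M (A ⧸ Ideal.span {f}) → M (Localization.Away f)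
  /-- direct factors -/
  summand : ∀ (A : Type) [CommRing A] (f : A), f * f = f → M A → M (A ⧸ Ideal.span {f})
  /-- affine lines -/
  poly : ∀ (A : Type) [CommRing A], M A → M (Polynomial A)

/-- transfer for finite free algebras of positive rank -/
def TransferClosed (M : ∀ (A : Type) [CommRing A], Prop) : Prop :=
  ∀ (A B : Type) [CommRing A] [CommRing B] [Nontrivial B] [Algebra A B]
    [Module.Free A B] [Module.Finite A B], Algebra.FiniteType ℤ A → M B → M A

/-- algebras `A` of finite type over finitely generated rings `R`, if the geometric fibres of `A`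
over the primes `p` with `dim (R ⧸ p) ≤ 1` are in the geometric class of `M`, and for the other
primes the principal open subsets of `Spec (R ⧸ p)` are in `M` and the fibre is in the geometric
class of `M` over the residue field -/
def FibrationClosed (M : ∀ (A : Type) [CommRing A], Prop) : Prop :=
  ∀ (R A : Type) [CommRing R] [CommRing A] [Algebra R A], Algebra.FiniteType ℤ R →
    Algebra.FiniteType R A →
    (∀ (p : Ideal R) [p.IsPrime], ringKrullDim (R ⧸ p) ≤ 1 →
      Geometric M (AlgebraicClosure p.ResidueField) (AlgebraicClosure p.ResidueField ⊗[R] A)) →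
    (∀ (p : Ideal R) [p.IsPrime], 1 < ringKrullDim (R ⧸ p) →
      (∀ a : R ⧸ p, a ≠ 0 → M (Localization.Away a)) ∧
      Geometric M p.ResidueField (p.ResidueField ⊗[R] A)) → M A

/-- systems of linear and at most `2 - dim R` quadratic equations over `R` -/
def LowDegreeClosed (M : ∀ (A : Type) [CommRing A], Prop) : Prop :=
  ∀ (R : Type) [CommRing R], Algebra.FiniteType ℤ R →
    (∀ (p : Ideal R) [p.IsPrime], 1 < ringKrullDim (R ⧸ p) → M (R ⧸ p)) →
    ∀ (m : ℕ) (L Q : Finset (MvPolynomial (Fin m) R)), (∀ l ∈ L, l.totalDegree ≤ 1) →
    (∀ q ∈ Q, q.totalDegree ≤ 2) → ringKrullDim R + (Q.card : WithBot ℕ∞) ≤ 2 →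
    M (MvPolynomial (Fin m) R ⧸ Ideal.span ((L : Set (MvPolynomial (Fin m) R)) ∪ Q))

/-- systems of at most two and at most `3 - dim R` equations over `R` which have degree at most
one in the first and in the second group of unknowns -/
def BilinearClosed (M : ∀ (A : Type) [CommRing A], Prop) : Prop :=
  ∀ (R : Type) [CommRing R], Algebra.FiniteType ℤ R →
    (∀ (p : Ideal R) [p.IsPrime], 1 < ringKrullDim (R ⧸ p) → M (R ⧸ p)) →
    ∀ (m n : ℕ) (F : Finset (MvPolynomial (Fin m ⊕ Fin n) R)),
    (∀ f ∈ F, Helper20.BL.IsBilin f) →
    F.card ≤ 2 → ringKrullDim R + (F.card : WithBot ℕ∞) ≤ 3 →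
    M (MvPolynomial (Fin m ⊕ Fin n) R ⧸ Ideal.span (F : Set (MvPolynomial (Fin m ⊕ Fin n) R)))

/-- polynomials with affinely independent exponents whose coefficients are products of functions
on curves -/
def SimplexClosed (M : ∀ (A : Type) [CommRing A], Prop) : Prop :=
  ∀ (p : ℕ) [Fact p.Prime] (J : Type) [Fintype J] (m : ℕ) (α : J → Fin m →₀ ℕ),
    AffineIndependent ℚ (fun (j : J) (i : Fin m) => ((α j i : ℕ) : ℚ)) →
    ∀ (T : Type) [CommRing T] (c : J → T), ProductFunctions p J T c →
    M (MvPolynomial (Fin m) T ⧸ Ideal.span {∑ j, monomial (α j) (c j)})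

/-- cubic polynomials in at most four variables over finite fields -/
def CubicClosed (M : ∀ (A : Type) [CommRing A], Prop) : Prop :=
  ∀ (k : Type) [Field k] [Finite k] (m : ℕ) (f : MvPolynomial (Fin m) k), m ≤ 4 →
    f.totalDegree ≤ 3 → M (MvPolynomial (Fin m) k ⧸ Ideal.span {f})

/-- Classes of finitely generated rings closed under all the constructions above. -/
structure TameClosed (M : ∀ (A : Type) [CommRing A], Prop) : Prop where
  /-- cut and paste -/
  cutPaste : CutPasteClosed M
  /-- transfer -/
  transfer : TransferClosed M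
  /-- fibrations -/
  fibration : FibrationClosed M
  /-- linear and quadratic equations -/
  lowDegree : LowDegreeClosed M
  /-- bilinear equations -/
  bilinear : BilinearClosed M
  /-- affinely independent exponents -/
  simplex : SimplexClosed M
  /-- cubic polynomials -/
  cubic : CubicClosed M

/-- **Tame rings**: the smallest class with the closure properties above. -/
def Tame (B : Type) [CommRing B] : Prop :=
  ∀ M : (∀ (A : Type) [CommRing A], Prop), TameClosed M → M B

end Pool.Agent.Helper87.CC
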